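import Mathlib
import Pool.Agent.Shared.PolyTime.GraphEnc

/-! Drawings of graphs in the plane and the independent algebraic crossing number. -/

set_option autoImplicit false

namespace Pool.Agent.Lib.MP_d8c195_lc

open unitInterval Topology Pool.Agent.Shared.PolyTime

/-- Orientation preserving: isotopic to the identity through injective maps of the plane. -/
def OrPres (h : ℂ → ℂ) : Prop :=
  ∃ H : ℝ × ℂ → ℂ, Continuous H ∧ (∀ u, Function.Injective fun z => H (u, z)) ∧
    (∀ z, H (0, z) = z) ∧ ∀ z, H (1, z) = h z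

/-- Positive proper crossing of `γ` (at parameter `s`) and `η` (at parameter `t`): after an
orientation preserving homeomorphism of the plane, `γ` runs through the origin along the real axis
from left to right and `η` runs through it along the imaginary axis from below to above. -/
def Cross (γ η : I → ℂ) (s t : I) : Prop :=
  ∃ h : ℂ ≃ₜ ℂ, OrPres h ∧
    (∀ᶠ s' in 𝓝 s, (h (γ s')).im = 0 ∧
      SignType.sign (h (γ s')).re = SignType.sign ((s' : ℝ) - s)) ∧
    (∀ᶠ t' in 𝓝 t, (h (η t')).re = 0 ∧
      SignType.sign (h (η t')).im = SignType.sign ((t' : ℝ) - t))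

/-- Pairs of interior parameters at which two curves meet. -/
def Meet (γ η : I → ℂ) : Set (I × I) :=
  {p | 0 < p.1 ∧ p.1 < 1 ∧ 0 < p.2 ∧ p.2 < 1 ∧ γ p.1 = η p.2}

/-- The sum of the signs of the crossings: positive crossings minus negative crossings. -/
noncomputable def inter (γ η : I → ℂ) : ℤ :=
  ({p ∈ Meet γ η | Cross γ η p.1 p.2}.ncard : ℤ) - ({p ∈ Meet γ η | Cross η γ p.2 p.1}.ncard : ℤ)

/-- Edges, oriented from the smaller to the larger end. -/
abbrev Edge {n : ℕ} (G : SimpleGraph (Fin n)) : Type :=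
  {e : Fin n × Fin n // e.1 < e.2 ∧ G.Adj e.1 e.2}

/-- Edges without a common endpoint. -/
def Indep {n : ℕ} {G : SimpleGraph (Fin n)} (e f : Edge G) : Prop :=
  e.1.1 ≠ f.1.1 ∧ e.1.1 ≠ f.1.2 ∧ e.1.2 ≠ f.1.1 ∧ e.1.2 ≠ f.1.2

/-- A drawing of `G` in the plane. -/
structure Drawing {n : ℕ} (G : SimpleGraph (Fin n)) where
  /-- positions of the vertices -/
  pos : Fin n → ℂ
  pos_inj : Function.Injective pos
  /-- the curve of an edge -/
  arc : (e : Edge G) → Path (pos e.1.1) (pos e.1.2)
  avoid : ∀ (e : Edge G) (s : I) (v : Fin n), 0 < s → s < 1 → arc e s ≠ pos v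
  finite : ∀ e f : Edge G, e ≠ f → (Meet (arc e) (arc f)).Finite
  proper : ∀ e f : Edge G, e ≠ f → ∀ p ∈ Meet (arc e) (arc f),
    Cross (arc e) (arc f) p.1 p.2 ∨ Cross (arc f) (arc e) p.2 p.1

/-- All edges are simple arcs. -/
def Drawing.Simple {n : ℕ} {G : SimpleGraph (Fin n)} (D : Drawing G) : Prop :=
  ∀ e : Edge G, Function.Injective (D.arc e)

open Classical in
/-- The sum of `|i_D(e,f)|` over the unordered pairs of independent edges. -/
noncomputable def Drawing.iacr {n : ℕ} {G : SimpleGraph (Fin n)} (D : Drawing G) : ℕ :=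
  ∑ p : Edge G × Edge G with Indep p.1 p.2 ∧ p.1.1.1 < p.2.1.1,
    (inter (D.arc p.1) (D.arc p.2)).natAbs

/-- An instance: a graph and a bound. -/
structure Inst where
  /-- number of vertices -/
  n : ℕ
  /-- the graph -/
  graph : SimpleGraph (Fin n)
  /-- the bound -/
  k : ℕ

/-- The adjacency matrix together with the binary digits of the bound. -/
noncomputable def Inst.code (x : Inst) : List Bool :=
  encPair (encGraph x.graph) (encList (fun b => [b]) x.k.bits)

/-- Yes-instances: `iacr(G) ≤ k`; for `simple = true` only drawings by simple arcs are allowed. -/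
def IACR (simple : Bool) (x : Inst) : Prop :=
  ∃ D : Drawing x.graph, (simple = true → D.Simple) ∧ D.iacr ≤ x.k

end Pool.Agent.Lib.MP_d8c195_lc
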