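import Mathlib

/-! Variation of the logarithm along curves and degree on rectangles. -/

set_option autoImplicit false

namespace Pool.Agent.Lib.MP_d8c195_lc

open Set Complex

/-- `L` is a continuous logarithm of `g` on `[a, b]`. -/
def IsLift (L g : ℝ → ℂ) (a b : ℝ) : Prop :=
  ContinuousOn L (Icc a b) ∧ ∀ t ∈ Icc a b, exp (L t) = g t

open Classical in
/-- Total variation of the logarithm. -/
noncomputable def dlog (g : ℝ → ℂ) (a b : ℝ) : ℂ :=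
  if h : ∃ L, IsLift L g a b then h.choose b - h.choose a else 0

lemma dlog_eq {L g : ℝ → ℂ} {a b : ℝ} (hab : a ≤ b) (h : IsLift L g a b) :
    dlog g a b = L b - L a := by
  have hex : ∃ L, IsLift L g a b := ⟨L, h⟩
  unfold dlog
  rw [dif_pos hex]
  have h2 := hex.choose_spec
  have := isCoveringMap_exp.constOn_of_comp (g := fun t => hex.choose t - L t) isPreconnected_Icc
    (h2.1.sub h.1) (fun x hx y hy => by
      apply Subtype.ext
      simp only [exp_sub, h2.2 x hx, h2.2 y hy, h.2 x hx, h.2 y hy]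
      rw [← h.2 x hx, ← h.2 y hy, div_self (exp_ne_zero _), div_self (exp_ne_zero _)])
    (left_mem_Icc.mpr hab) (right_mem_Icc.mpr hab)
  linear_combination -this

lemma exists_log {X : Type} [TopologicalSpace X] [SimplyConnectedSpace X]
    [LocallyPathConnectedSpace X] (f : X → ℂ) (hf : Continuous f) (h0 : ∀ x, f x ≠ 0) :
    ∃ L : X → ℂ, Continuous L ∧ ∀ x, exp (L x) = f x := by
  obtain ⟨x0⟩ : Nonempty X := inferInstance
  obtain ⟨F, ⟨-, hF⟩, -⟩ := isCoveringMapOn_exp.existsUnique_continuousMap_lifts ⟨f, hf⟩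
    (a₀ := x0) (exp_log (h0 x0)) h0
  exact ⟨F, F.continuous, fun x => congrFun hF x⟩

lemma clamp_mem {a b : ℝ} (hab : a ≤ b) (s : ℝ) : max a (min s b) ∈ Icc a b :=
  ⟨le_max_left _ _, max_le hab (min_le_right _ _)⟩

lemma clamp_eq {a b s : ℝ} (hs : s ∈ Icc a b) : max a (min s b) = s := by
  rw [min_eq_left hs.2, max_eq_right hs.1]

lemma exists_lift {g : ℝ → ℂ} (hg : Continuous g) {a b : ℝ} (hab : a ≤ b)
    (h0 : ∀ t ∈ Icc a b, g t ≠ 0) : ∃ L, IsLift L g a b := by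
  obtain ⟨L, h1, h2⟩ := exists_log (fun s => g (max a (min s b))) (by fun_prop)
    (fun s => h0 _ (clamp_mem hab s))
  exact ⟨L, h1.continuousOn, fun t ht => by rw [h2, clamp_eq ht]⟩

lemma IsLift.mono {L g : ℝ → ℂ} {a b a' b' : ℝ} (h : IsLift L g a b) (h1 : a ≤ a') (h2 : b' ≤ b) :
    IsLift L g a' b' :=
  ⟨h.1.mono (Icc_subset_Icc h1 h2), fun t ht => h.2 t (Icc_subset_Icc h1 h2 ht)⟩

lemma dlog_add {g : ℝ → ℂ} (hg : Continuous g) {a b c : ℝ} (hab : a ≤ b) (hbc : b ≤ c)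
    (h0 : ∀ t ∈ Icc a c, g t ≠ 0) : dlog g a c = dlog g a b + dlog g b c := by
  obtain ⟨L, hL⟩ := exists_lift hg (hab.trans hbc) h0
  rw [dlog_eq (hab.trans hbc) hL, dlog_eq hab (hL.mono le_rfl hbc), dlog_eq hbc (hL.mono hab le_rfl)]
  ring

lemma dlog_neg {g : ℝ → ℂ} (hg : Continuous g) {a b : ℝ} (hab : a ≤ b)
    (h0 : ∀ t ∈ Icc a b, g t ≠ 0) : dlog (fun t => -g t) a b = dlog g a b := by
  obtain ⟨L, hL⟩ := exists_lift hg hab h0
  have : IsLift (fun t => L t + Real.pi * I) (fun t => -g t) a b :=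
    ⟨hL.1.add continuousOn_const, fun t ht => by
      rw [exp_add, exp_pi_mul_I, hL.2 t ht]; ring⟩
  rw [dlog_eq hab hL, dlog_eq hab this]
  ring

lemma exp_dlog {g : ℝ → ℂ} (hg : Continuous g) {a b : ℝ} (hab : a ≤ b)
    (h0 : ∀ t ∈ Icc a b, g t ≠ 0) : exp (dlog g a b) * g a = g b := by
  obtain ⟨L, hL⟩ := exists_lift hg hab h0
  rw [dlog_eq hab hL, ← hL.2 a (left_mem_Icc.mpr hab), ← hL.2 b (right_mem_Icc.mpr hab), ← exp_add]
  congr 1
  ring

lemma dlog_slit {g : ℝ → ℂ} (hg : Continuous g) {a b : ℝ} (hab : a ≤ b) (c : ℂ) (hc : c ≠ 0)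
    (h : ∀ t ∈ Icc a b, c * g t ∈ slitPlane) : dlog g a b = log (c * g b) - log (c * g a) := by
  have : IsLift (fun t => log (c * g t) - log c) g a b :=
    ⟨(ContinuousOn.clog (by fun_prop) h).sub continuousOn_const, fun t ht => by
      rw [exp_sub, exp_log (slitPlane_ne_zero (h t ht)), exp_log hc]
      field_simp⟩
  rw [dlog_eq hab this]
  ring

lemma log_neg_of_im_pos {z : ℂ} (h : 0 < z.im) : log (-z) = log z - Real.pi * I := by
  unfold Complex.log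
  rw [arg_neg_eq_arg_sub_pi_of_im_pos h, norm_neg]
  push_cast
  ring

lemma log_neg_of_im_neg {z : ℂ} (h : z.im < 0) : log (-z) = log z + Real.pi * I := by
  unfold Complex.log
  rw [arg_neg_eq_arg_add_pi_of_im_neg h, norm_neg]
  push_cast
  ring

/-- Variation of the logarithm around a rectangle. -/
noncomputable def rd (F : ℝ × ℝ → ℂ) (a b c d : ℝ) : ℂ :=
  dlog (fun s => F (s, c)) a b + dlog (fun t => F (b, t)) c d - dlog (fun s => F (s, d)) a b -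
    dlog (fun t => F (a, t)) c d

lemma rd_zero {F : ℝ × ℝ → ℂ} (hF : Continuous F) {a b c d : ℝ} (hab : a ≤ b) (hcd : c ≤ d)
    (h0 : ∀ s ∈ Icc a b, ∀ t ∈ Icc c d, F (s, t) ≠ 0) : rd F a b c d = 0 := by
  obtain ⟨L, h1, h2⟩ := exists_log (fun p : ℝ × ℝ => F (max a (min p.1 b), max c (min p.2 d)))
    (by fun_prop) (fun p => h0 _ (clamp_mem hab _) _ (clamp_mem hcd _))
  have hh : ∀ t ∈ Icc c d, dlog (fun s => F (s, t)) a b = L (b, t) - L (a, t) := fun t ht =>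
    dlog_eq (L := fun s => L (s, t)) hab ⟨by fun_prop, fun s hs => by
      rw [h2, clamp_eq hs, clamp_eq ht]⟩
  have hv : ∀ s ∈ Icc a b, dlog (fun t => F (s, t)) c d = L (s, d) - L (s, c) := fun s hs =>
    dlog_eq (L := fun t => L (s, t)) hcd ⟨by fun_prop, fun t ht => by
      rw [h2, clamp_eq hs, clamp_eq ht]⟩
  unfold rd
  rw [hh c (left_mem_Icc.mpr hcd), hh d (right_mem_Icc.mpr hcd), hv a (left_mem_Icc.mpr hab),
    hv b (right_mem_Icc.mpr hab)]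
  ring

lemma rd_homotopy {F : ℝ × ℝ × ℝ → ℂ} (hF : Continuous F) {a b c d : ℝ} (hab : a ≤ b) (hcd : c ≤ d)
    (h0 : ∀ u, ∀ s ∈ Icc a b, ∀ t ∈ Icc c d, (s = a ∨ s = b ∨ t = c ∨ t = d) → F (u, s, t) ≠ 0) :
    rd (fun p => F (0, p)) a b c d = rd (fun p => F (1, p)) a b c d := by
  have ha := left_mem_Icc.mpr hab
  have hb := right_mem_Icc.mpr hab
  have hc := left_mem_Icc.mpr hcd
  have hd := right_mem_Icc.mpr hcd
  have h1 := rd_zero (F := fun p => F (p.1, p.2, c)) (by fun_prop) zero_le_one hab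
    (fun u _ s hs => h0 u s hs c hc (by simp))
  have h2 := rd_zero (F := fun p => F (p.1, p.2, d)) (by fun_prop) zero_le_one hab
    (fun u _ s hs => h0 u s hs d hd (by simp))
  have h3 := rd_zero (F := fun p => F (p.1, a, p.2)) (by fun_prop) zero_le_one hcd
    (fun u _ t ht => h0 u a ha t ht (by simp))
  have h4 := rd_zero (F := fun p => F (p.1, b, p.2)) (by fun_prop) zero_le_one hcd
    (fun u _ t ht => h0 u b hb t ht (by simp))
  unfold rd at *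
  simp only at *
  linear_combination -h1 + h2 + h3 - h4

lemma rd_model {F : ℝ × ℝ → ℂ} (hF : Continuous F) {a b c d : ℝ} (hab : a ≤ b) (hcd : c ≤ d)
    (h1 : ∀ s ∈ Icc a b, (F (s, c)).im < 0) (h2 : ∀ s ∈ Icc a b, 0 < (F (s, d)).im)
    (h3 : ∀ t ∈ Icc c d, (F (b, t)).re < 0) (h4 : ∀ t ∈ Icc c d, 0 < (F (a, t)).re) :
    rd F a b c d = -(2 * Real.pi * I) := by
  have hb := right_mem_Icc.mpr hab
  unfold rd
  rw [dlog_slit (by fun_prop) hab 1 one_ne_zero (fun s hs => Or.inr (by simpa using (h1 s hs).ne)),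
    dlog_slit (g := fun s => F (s, d)) (by fun_prop) hab 1 one_ne_zero
      (fun s hs => Or.inr (by simpa using (h2 s hs).ne')),
    dlog_slit (g := fun t => F (b, t)) (by fun_prop) hcd (-1) (by simp)
      (fun t ht => Or.inl (by simpa using h3 t ht)),
    dlog_slit (g := fun t => F (a, t)) (by fun_prop) hcd 1 one_ne_zero
      (fun t ht => Or.inl (by simpa using h4 t ht))]
  simp only [one_mul, neg_mul]
  rw [log_neg_of_im_pos (h2 b hb), log_neg_of_im_neg (h1 b hb)]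
  ring

lemma rd_swap {F : ℝ × ℝ → ℂ} (hF : Continuous F) {a b c d : ℝ} (hab : a ≤ b) (hcd : c ≤ d)
    (h0 : ∀ s ∈ Icc a b, ∀ t ∈ Icc c d, (s = a ∨ s = b ∨ t = c ∨ t = d) → F (s, t) ≠ 0) :
    rd (fun p => -F (p.2, p.1)) c d a b = -rd F a b c d := by
  have ha := left_mem_Icc.mpr hab
  have hb := right_mem_Icc.mpr hab
  have hc := left_mem_Icc.mpr hcd
  have hd := right_mem_Icc.mpr hcd
  unfold rd
  simp only
  rw [dlog_neg (g := fun t => F (a, t)) (by fun_prop) hcd (fun t ht => h0 a ha t ht (by simp)),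
    dlog_neg (g := fun t => F (b, t)) (by fun_prop) hcd (fun t ht => h0 b hb t ht (by simp)),
    dlog_neg (g := fun s => F (s, c)) (by fun_prop) hab (fun s hs => h0 s hs c hc (by simp)),
    dlog_neg (g := fun s => F (s, d)) (by fun_prop) hab (fun s hs => h0 s hs d hd (by simp))]
  ring

lemma chain (S : Set ℝ) (hS : S.Finite) (φ : ℝ → ℝ → ℂ) (δ : ℝ) (hδ : 0 < δ)
    (hadd : ∀ a b c, a ∈ Icc (0 : ℝ) 1 \ S → b ∈ Icc (0 : ℝ) 1 \ S → c ∈ Icc (0 : ℝ) 1 \ S →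
      a ≤ b → b ≤ c → φ a c = φ a b + φ b c)
    (hsmall : ∀ a b, a ∈ Icc (0 : ℝ) 1 \ S → b ∈ Icc (0 : ℝ) 1 \ S → a ≤ b → b - a < δ → φ a b = 0)
    (a b : ℝ) (ha : a ∈ Icc (0 : ℝ) 1 \ S) (hb : b ∈ Icc (0 : ℝ) 1 \ S) (hab : a ≤ b) :
    φ a b = 0 := by
  have key : ∀ n : ℕ, ∀ b, b ∈ Icc (0 : ℝ) 1 \ S → a ≤ b → b - a ≤ n * (δ / 2) → φ a b = 0 := by
    intro n
    induction n with
    | zero => intro b hb h1 h2; exact hsmall a b ha hb h1 (by simp at h2; linarith)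
    | succ n ih =>
      intro b hb h1 h2
      rcases lt_or_ge (b - a) δ with h3 | h3
      · exact hsmall a b ha hb h1 h3
      · obtain ⟨x, hx, hxS⟩ := (Set.Ioo_infinite (show b - δ < b - δ / 2 by linarith)).exists_notMem_finite hS
        have hx' : x ∈ Icc (0 : ℝ) 1 \ S :=
          ⟨⟨by linarith [hx.1, ha.1.1], by linarith [hx.2, hb.1.2]⟩, hxS⟩
        rw [hadd a x b ha hx' hb (by linarith [hx.1]) (by linarith [hx.2]),
          ih x hx' (by linarith [hx.1]) (by push_cast at h2; linarith [hx.2]),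
          hsmall x b hx' hb (by linarith [hx.2]) (by linarith [hx.1]), add_zero]
  obtain ⟨n, hn⟩ := exists_nat_ge ((b - a) / (δ / 2))
  exact key n b hb hab (by rwa [div_le_iff₀ (by linarith)] at hn)

open Classical in
lemma ite_split {x a e b : ℝ} (h : x ≠ e) (h1 : a ≤ e) (h2 : e ≤ b) (P : Prop) (w : ℂ) :
    ((if a < x ∧ x < b ∧ P then w else 0) =
      (if a < x ∧ x < e ∧ P then w else 0) + (if e < x ∧ x < b ∧ P then w else 0)) := by
  rcases lt_or_gt_of_ne h with h3 | h3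
  · simp [h3, h3.trans_le h2, h3.not_gt]
  · simp [h3, h1.trans_lt h3, h3.not_gt]

open Classical in
/-- The degree on the unit square is the sum of the local degrees. -/
theorem rd_eq_sum {F : ℝ × ℝ → ℂ} (hF : Continuous F) (Z : Finset (ℝ × ℝ)) (w : ℝ × ℝ → ℂ)
    (hZ : ∀ p ∈ Z, p.1 ∈ Ioo (0 : ℝ) 1 ∧ p.2 ∈ Ioo (0 : ℝ) 1)
    (h0 : ∀ s ∈ Icc (0 : ℝ) 1, ∀ t ∈ Icc (0 : ℝ) 1, F (s, t) = 0 → (s, t) ∈ Z)
    (hw : ∀ p ∈ Z, ∃ δ > 0, ∀ a b c d, p.1 - δ < a → a < p.1 → p.1 < b → b < p.1 + δ →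
      p.2 - δ < c → c < p.2 → p.2 < d → d < p.2 + δ → rd F a b c d = w p) :
    rd F 0 1 0 1 = ∑ p ∈ Z, w p := by
  set S : Set ℝ := Prod.fst '' (Z : Set (ℝ × ℝ)) with hS
  set T : Set ℝ := Prod.snd '' (Z : Set (ℝ × ℝ)) with hT
  have hSf : S.Finite := Z.finite_toSet.image _
  have hTf : T.Finite := Z.finite_toSet.image _
  set Φ : ℝ → ℝ → ℝ → ℝ → ℂ := fun a b c d => rd F a b c d -
    ∑ p ∈ Z, if a < p.1 ∧ p.1 < b ∧ c < p.2 ∧ p.2 < d then w p else 0 with hΦ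
  have hloc : ∀ q : ℝ × ℝ, ∃ δ > 0, ∀ a b c d, a ∈ Icc (0 : ℝ) 1 \ S → b ∈ Icc (0 : ℝ) 1 \ S →
      c ∈ Icc (0 : ℝ) 1 \ T → d ∈ Icc (0 : ℝ) 1 \ T → a ≤ b → c ≤ d →
      Icc a b ×ˢ Icc c d ⊆ Metric.ball q δ → Φ a b c d = 0 := by
    intro q
    obtain ⟨δ1, hδ1, h1⟩ := Metric.isOpen_iff.mp
      ((Z.erase q).finite_toSet.isClosed.isOpen_compl) q (by simp)
    obtain ⟨δ2, hδ2, h2⟩ : ∃ δ > 0, q ∈ Z → ∀ a b c d, q.1 - δ < a → a < q.1 → q.1 < b →
        b < q.1 + δ → q.2 - δ < c → c < q.2 → q.2 < d → d < q.2 + δ → rd F a b c d = w q := by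
      by_cases hq : q ∈ Z
      · obtain ⟨δ, hδ, h⟩ := hw q hq
        exact ⟨δ, hδ, fun _ => h⟩
      · exact ⟨1, one_pos, fun h => absurd h hq⟩
    refine ⟨min δ1 δ2, lt_min hδ1 hδ2, fun a b c d ha hb hc hd hab hcd hsub => ?_⟩
    have h3 : ∀ p ∈ Z, p ∈ Icc a b ×ˢ Icc c d → p = q := by
      intro p hp hp'
      by_contra hne
      exact h1 (Metric.ball_subset_ball (min_le_left _ _) (hsub hp'))
        (Finset.mem_coe.mpr (Finset.mem_erase.mpr ⟨hne, hp⟩))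
    simp only [hΦ]
    by_cases hq : q ∈ Z ∧ a < q.1 ∧ q.1 < b ∧ c < q.2 ∧ q.2 < d
    · rw [Finset.sum_eq_single q (fun p hp hne => if_neg fun h =>
        hne (h3 p hp ⟨⟨h.1.le, h.2.1.le⟩, h.2.2.1.le, h.2.2.2.le⟩)) (fun h => absurd hq.1 h),
        if_pos hq.2]
      have e1 := Metric.ball_subset_ball (min_le_right _ _)
        (hsub (mk_mem_prod (left_mem_Icc.mpr hab) (left_mem_Icc.mpr hcd)))
      have e2 := Metric.ball_subset_ball (min_le_right _ _)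
        (hsub (mk_mem_prod (right_mem_Icc.mpr hab) (right_mem_Icc.mpr hcd)))
      rw [Metric.mem_ball, Prod.dist_eq, max_lt_iff, Real.dist_eq, Real.dist_eq, abs_lt,
        abs_lt] at e1 e2
      rw [h2 hq.1 a b c d (by linarith [e1.1.1]) hq.2.1 hq.2.2.1 (by linarith [e2.1.2])
        (by linarith [e1.2.1]) hq.2.2.2.1 hq.2.2.2.2 (by linarith [e2.2.2]), sub_self]
    · have h4 : ∀ p ∈ Z, ¬ p ∈ Icc a b ×ˢ Icc c d := by
        intro p hp hp'
        have := h3 p hp hp'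
        subst this
        exact hq ⟨hp, lt_of_le_of_ne hp'.1.1 (fun h => ha.2 ⟨p, hp, h.symm⟩),
          lt_of_le_of_ne hp'.1.2 (fun h => hb.2 ⟨p, hp, h⟩),
          lt_of_le_of_ne hp'.2.1 (fun h => hc.2 ⟨p, hp, h.symm⟩),
          lt_of_le_of_ne hp'.2.2 (fun h => hd.2 ⟨p, hp, h⟩)⟩
      rw [Finset.sum_eq_zero (fun p hp => if_neg fun h =>
        h4 p hp ⟨⟨h.1.le, h.2.1.le⟩, h.2.2.1.le, h.2.2.2.le⟩), sub_zero]
      exact rd_zero hF hab hcd fun s hs t ht h => h4 _ (h0 s ⟨ha.1.1.trans hs.1, hs.2.trans hb.1.2⟩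
        t ⟨hc.1.1.trans ht.1, ht.2.trans hd.1.2⟩ h) ⟨hs, ht⟩
  choose r hr hloc using hloc
  obtain ⟨δ, hδ, hL⟩ := lebesgue_number_lemma_of_metric
    ((isCompact_Icc (a := (0 : ℝ)) (b := 1)).prod (isCompact_Icc (a := (0 : ℝ)) (b := 1)))
    (c := fun q => Metric.ball q (r q)) (fun _ => Metric.isOpen_ball)
    (fun q _ => mem_iUnion.mpr ⟨q, Metric.mem_ball_self (hr q)⟩)
  have g0 : (0 : ℝ) ∈ Icc (0 : ℝ) 1 \ S :=
    ⟨by simp, fun ⟨p, hp, h⟩ => (hZ p hp).1.1.ne' h⟩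
  have g1 : (1 : ℝ) ∈ Icc (0 : ℝ) 1 \ S :=
    ⟨by simp, fun ⟨p, hp, h⟩ => (hZ p hp).1.2.ne h⟩
  have g2 : (0 : ℝ) ∈ Icc (0 : ℝ) 1 \ T :=
    ⟨by simp, fun ⟨p, hp, h⟩ => (hZ p hp).2.1.ne' h⟩
  have g3 : (1 : ℝ) ∈ Icc (0 : ℝ) 1 \ T :=
    ⟨by simp, fun ⟨p, hp, h⟩ => (hZ p hp).2.2.ne h⟩
  have nh : ∀ t ∈ Icc (0 : ℝ) 1 \ T, ∀ s ∈ Icc (0 : ℝ) 1, F (s, t) ≠ 0 :=
    fun t ht s hs h => ht.2 ⟨_, h0 s hs t ht.1 h, rfl⟩
  have nv : ∀ s ∈ Icc (0 : ℝ) 1 \ S, ∀ t ∈ Icc (0 : ℝ) 1, F (s, t) ≠ 0 :=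
    fun s hs t ht h => hs.2 ⟨_, h0 s hs.1 t ht h, rfl⟩
  have main : Φ 0 1 0 1 = 0 := by
    refine chain T hTf (fun c d => Φ 0 1 c d) δ hδ ?_ ?_ 0 1 g2 g3 zero_le_one
    · intro c e d hc he hd hce hed
      have hsub : Icc c d ⊆ Icc (0 : ℝ) 1 := Icc_subset_Icc hc.1.1 hd.1.2
      simp only [hΦ, rd]
      rw [dlog_add (g := fun t => F (0, t)) (by fun_prop) hce hed (fun t ht => nv 0 g0 t (hsub ht)),
        dlog_add (g := fun t => F (1, t)) (by fun_prop) hce hed (fun t ht => nv 1 g1 t (hsub ht))]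
      have : ∑ p ∈ Z, (if 0 < p.1 ∧ p.1 < 1 ∧ c < p.2 ∧ p.2 < d then w p else 0) =
          ∑ p ∈ Z, (if 0 < p.1 ∧ p.1 < 1 ∧ c < p.2 ∧ p.2 < e then w p else 0) +
          ∑ p ∈ Z, (if 0 < p.1 ∧ p.1 < 1 ∧ e < p.2 ∧ p.2 < d then w p else 0) := by
        rw [← Finset.sum_add_distrib]
        refine Finset.sum_congr rfl fun p hp => ?_
        have := ite_split (show p.2 ≠ e from fun h => he.2 ⟨p, hp, h⟩) hce hed True (w p)
        simpa [(hZ p hp).1.1, (hZ p hp).1.2] using this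
      rw [this]
      ring
    · intro c d hc hd hcd hδ1
      have hsub : Icc c d ⊆ Icc (0 : ℝ) 1 := Icc_subset_Icc hc.1.1 hd.1.2
      refine chain S hSf (fun a b => Φ a b c d) δ hδ ?_ ?_ 0 1 g0 g1 zero_le_one
      · intro a e b ha he hb hae heb
        have hsub : Icc a b ⊆ Icc (0 : ℝ) 1 := Icc_subset_Icc ha.1.1 hb.1.2
        simp only [hΦ, rd]
        rw [dlog_add (g := fun s => F (s, c)) (by fun_prop) hae heb
            (fun s hs => nh c hc s (hsub hs)),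
          dlog_add (g := fun s => F (s, d)) (by fun_prop) hae heb (fun s hs => nh d hd s (hsub hs))]
        have : ∑ p ∈ Z, (if a < p.1 ∧ p.1 < b ∧ c < p.2 ∧ p.2 < d then w p else 0) =
            ∑ p ∈ Z, (if a < p.1 ∧ p.1 < e ∧ c < p.2 ∧ p.2 < d then w p else 0) +
            ∑ p ∈ Z, (if e < p.1 ∧ p.1 < b ∧ c < p.2 ∧ p.2 < d then w p else 0) := by
          rw [← Finset.sum_add_distrib]
          refine Finset.sum_congr rfl fun p hp => ?_
          convert ite_split (show p.1 ≠ e from fun h => he.2 ⟨p, hp, h⟩) hae heb _ (w p)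
        rw [this]
        ring
      · intro a b ha hb hab hδ2
        obtain ⟨q, hq⟩ := hL (a, c) ⟨ha.1, hc.1⟩
        refine hloc q a b c d ha hb hc hd hab hcd (subset_trans ?_ hq)
        intro p hp
        rw [Metric.mem_ball, Prod.dist_eq, max_lt_iff, Real.dist_eq, Real.dist_eq, abs_lt, abs_lt]
        exact ⟨⟨by linarith [hp.1.1], by linarith [hp.1.2]⟩, by linarith [hp.2.1],
          by linarith [hp.2.2]⟩
  simp only [hΦ] at main
  rw [sub_eq_zero] at main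
  rw [main]
  exact Finset.sum_congr rfl fun p hp =>
    if_pos ⟨(hZ p hp).1.1, (hZ p hp).1.2, (hZ p hp).2.1, (hZ p hp).2.2⟩

end Pool.Agent.Lib.MP_d8c195_lc
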