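import Pool.Agent.Lib.MP_d8c195_lc.Real

-- part Pool.Agent.Lib.MP_d8c195_lc.Small
section

/-! Small integer solutions of linear systems. -/

set_option autoImplicit false

namespace Pool.Agent.Lib.MP_d8c195_lc

open Finset Matrix

attribute [local instance] Matrix.seminormedAddCommGroup in
lemma small_ker {R C : Type} [Fintype R] [Fintype C] (A : Matrix R C ℤ) (T : ℕ) (hT : 1 ≤ T)
    (hA : ∀ i j, |A i j| ≤ T) (t0 : C → ℤ) (h0 : t0 ≠ 0) (h1 : A *ᵥ t0 = 0) :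
    ∃ t : C → ℤ, t ≠ 0 ∧ A *ᵥ t = 0 ∧ ∀ j, |t j| ≤ ((Fintype.card C * T) ^ Fintype.card C : ℕ) := by
  classical
  obtain ⟨κ, a, ha, hsp, hli⟩ := exists_linearIndependent' ℚ (fun (i : R) (j : C) => (A i j : ℚ))
  have : Fintype κ := Fintype.ofInjective a ha
  obtain ⟨j0, hj0⟩ := Function.ne_iff.mp h0
  have hC : 1 ≤ Fintype.card C := Fintype.card_pos_iff.mpr ⟨j0⟩
  have key : ∀ t : C → ℤ, (∀ i, ∑ j, A (a i) j * t j = 0) → A *ᵥ t = 0 := by
    intro t ht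
    funext i
    let φ : (C → ℚ) →ₗ[ℚ] ℚ := Fintype.linearCombination ℚ (fun j => (t j : ℚ))
    have h2 : Submodule.span ℚ (Set.range ((fun (i : R) (j : C) => (A i j : ℚ)) ∘ a)) ≤
        LinearMap.ker φ := by
      rw [Submodule.span_le]
      rintro _ ⟨i, rfl⟩
      have := ht i
      simp only [SetLike.mem_coe, LinearMap.mem_ker, φ, Fintype.linearCombination_apply,
        Function.comp, smul_eq_mul]
      exact_mod_cast this
    have h3 := h2 (hsp ▸ Submodule.subset_span (Set.mem_range_self i))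
    simp only [LinearMap.mem_ker, φ, Fintype.linearCombination_apply, smul_eq_mul] at h3
    exact_mod_cast h3
  have hlt : Fintype.card κ < Fintype.card C := by
    rw [← finrank_span_eq_card hli, ← Module.finrank_fintype_fun_eq_card ℚ]
    apply Submodule.finrank_lt
    intro htop
    let φ : (C → ℚ) →ₗ[ℚ] ℚ := Fintype.linearCombination ℚ (fun j => (t0 j : ℚ))
    have h2 : Submodule.span ℚ (Set.range ((fun (i : R) (j : C) => (A i j : ℚ)) ∘ a)) ≤
        LinearMap.ker φ := by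
      rw [Submodule.span_le]
      rintro _ ⟨i, rfl⟩
      have := congrFun h1 (a i)
      simp only [SetLike.mem_coe, LinearMap.mem_ker, φ, Fintype.linearCombination_apply,
        Function.comp, smul_eq_mul]
      exact_mod_cast this
    have h3 := h2 (htop ▸ Submodule.mem_top (x := Pi.single j0 1))
    simp [φ] at h3
    exact hj0 h3
  have hb : 1 ≤ Fintype.card C * T := Nat.mul_pos hC hT
  rcases Nat.eq_zero_or_pos (Fintype.card κ) with hκ | hκ
  · have := Fintype.card_eq_zero_iff.mp hκ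
    refine ⟨Pi.single j0 1, by simp, key _ (fun i => isEmptyElim i), fun j => ?_⟩
    have : (1 : ℤ) ≤ ((Fintype.card C * T) ^ Fintype.card C : ℕ) := by
      exact_mod_cast Nat.one_le_pow _ _ hb
    by_cases h : j = j0
    · subst h; simpa using this
    · simp only [Pi.single_eq_of_ne h, abs_zero]; positivity
  obtain ⟨t, t1, t2, t3⟩ := Int.Matrix.exists_ne_zero_int_vec_norm_le
    (Matrix.of fun i j => A (a i) j) hlt hκ
  refine ⟨t, t1, key t (fun i => congrFun t2 i), fun j => ?_⟩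
  have h2 : ‖Matrix.of fun i j => A (a i) j‖ ≤ T :=
    (Matrix.norm_le_iff (by positivity)).mpr fun i j => by
      rw [Int.norm_eq_abs]; exact_mod_cast hA (a i) j
  have h3 : (1 : ℝ) ≤ T := by exact_mod_cast hT
  have h4 : (1 : ℝ) ≤ Fintype.card C := by exact_mod_cast hC
  have h5 : (Fintype.card κ : ℝ) + 1 ≤ Fintype.card C := by exact_mod_cast hlt
  have h6 : (|t j| : ℝ) ≤ ((Fintype.card C : ℝ) * T) ^ (Fintype.card C : ℝ) := by
    refine le_trans (by rw [← Int.norm_eq_abs]; exact norm_le_pi_norm t j) (t3.trans ?_)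
    refine le_trans (Real.rpow_le_rpow (by positivity)
      (mul_le_mul_of_nonneg_left (max_le h3 h2) (by positivity))
      (div_nonneg (by positivity) (by linarith))) ?_
    apply Real.rpow_le_rpow_of_exponent_le (by nlinarith)
    rw [div_le_iff₀ (by linarith)]
    nlinarith
  rw [Real.rpow_natCast] at h6
  exact_mod_cast h6

lemma small_sol {R C : Type} [Fintype R] [Fintype C] (A : Matrix R C ℤ) (T β : ℕ) (hT : 1 ≤ T)
    (hA : ∀ i j, |A i j| ≤ T) (x0 : C → ℤ) (hb : ∀ i, |(A *ᵥ x0) i| ≤ β) :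
    ∃ x : C → ℤ, A *ᵥ x = A *ᵥ x0 ∧ ∀ j, |x j| ≤ (((Fintype.card C + 1) * (β + T +
      (Fintype.card C + 1) * T * (Fintype.card C * T) ^ Fintype.card C)) ^ (Fintype.card C + 1) : ℕ) := by
  classical
  set N := Fintype.card C with hN
  set B := (N * T) ^ N with hB
  obtain ⟨x, hx, hmin⟩ := exists_minimalFor_of_wellFoundedLT (fun x => A *ᵥ x = A *ᵥ x0)
    (fun x : C → ℤ => (univ.filter fun j => (B : ℤ) < |x j|).card) ⟨x0, rfl⟩
  have hind : ∀ t : C → ℤ, A *ᵥ t = 0 → (∀ j, |x j| ≤ B → t j = 0) → t = 0 := by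
    intro t0 g1 g2
    by_contra g0
    obtain ⟨t, t1, t2, t3⟩ := small_ker (Matrix.of (Sum.elim A fun j : C =>
        if |x j| ≤ B then Pi.single j 1 else 0)) T hT (by
      rintro (i | i) j
      · exact hA i j
      · have : (1 : ℤ) ≤ T := by exact_mod_cast hT
        simp only [of_apply, Sum.elim_inr]
        split_ifs
        · by_cases h : j = i
          · subst h; simpa using this
          · simp [h]
        · simp) t0 g0 (by
      funext i
      rcases i with i | i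
      · exact congrFun g1 i
      · simp only [mulVec, of_apply, Sum.elim_inr, Pi.zero_apply]
        split_ifs with h
        · simpa using g2 i h
        · simp)
    have t4 : A *ᵥ t = 0 := funext fun i => congrFun t2 (Sum.inl i)
    have t5 : ∀ j, |x j| ≤ B → t j = 0 := fun j h => by
      have := congrFun t2 (Sum.inr j)
      simpa [mulVec, h] using this
    obtain ⟨j, hj⟩ := Function.ne_iff.mp t1
    have hlt : (univ.filter fun i => (B : ℤ) < |(x - (x j / t j) • t) i|).card <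
        (univ.filter fun j => (B : ℤ) < |x j|).card := by
      apply card_lt_card
      refine ⟨fun i hi => ?_, fun h => ?_⟩
      · simp only [mem_filter, mem_univ, true_and] at hi ⊢
        by_contra h
        simp [t5 i (not_lt.mp h)] at hi
        exact h hi
      · have := h (mem_filter.mpr ⟨mem_univ j, not_le.mp fun h' => hj (t5 j h')⟩)
        simp only [mem_filter, mem_univ, true_and, Pi.sub_apply, Pi.smul_apply, smul_eq_mul] at this
        have e : x j - x j / t j * t j = x j % t j := by rw [Int.emod_def]; ring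
        rw [e, abs_of_nonneg (Int.emod_nonneg _ hj)] at this
        linarith [Int.emod_lt_abs (x j) hj, t3 j]
    exact hlt.not_ge (hmin (by beta_reduce; rw [mulVec_sub, mulVec_smul, t4, smul_zero, sub_zero, hx]) hlt.le)
  let y : C → ℤ := fun j => if |x j| ≤ B then 0 else x j
  have hy : ∀ i, |(A *ᵥ y) i| ≤ (β + T + (N + 1) * T * B : ℕ) := by
    intro i
    have e : A *ᵥ y = A *ᵥ x0 - A *ᵥ (x - y) := by rw [mulVec_sub, hx]; simp
    have h1 : |(A *ᵥ (x - y)) i| ≤ ∑ _j : C, (T : ℤ) * B := by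
      refine (abs_sum_le_sum_abs _ _).trans (sum_le_sum fun j _ => ?_)
      rw [abs_mul]
      refine mul_le_mul (hA i j) ?_ (abs_nonneg _) (by positivity)
      simp only [Pi.sub_apply, y]
      split_ifs with h
      · simpa using h
      · simp
    rw [sum_const, card_univ, nsmul_eq_mul, ← hN] at h1
    rw [e, Pi.sub_apply]
    refine (abs_sub _ _).trans ?_
    have : (0 : ℤ) ≤ T * B := by positivity
    push_cast
    nlinarith [hb i]
  obtain ⟨t, t1, t2, t3⟩ := small_ker (Matrix.of (Sum.elim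
      (fun i (o : Option C) => o.elim (-(A *ᵥ y) i) (A i)) fun j : C =>
        if |x j| ≤ B then Pi.single (some j) 1 else 0)) (β + T + (N + 1) * T * B) (by omega) (by
      rintro (i | i) j
      · rcases j with _ | j
        · simpa using hy i
        · refine (hA i j).trans ?_
          exact_mod_cast (by omega)
      · have : (1 : ℤ) ≤ (β + T + (N + 1) * T * B : ℕ) := by exact_mod_cast (by omega)
        simp only [of_apply, Sum.elim_inr]
        split_ifs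
        · by_cases h : j = some i
          · subst h; simpa using this
          · simp only [Pi.single_eq_of_ne h, abs_zero]; positivity
        · simp only [Pi.zero_apply, abs_zero]; positivity) (fun o => o.elim 1 y)
      (fun h => by simpa using congrFun h none) (by
      funext i
      rcases i with i | i
      · simp [mulVec, dotProduct, Fintype.sum_option]
      · simp only [mulVec, of_apply, Sum.elim_inr, Pi.zero_apply]
        split_ifs with h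
        · simp [y, h]
        · simp)
  have t5 : ∀ j, |x j| ≤ B → t (some j) = 0 := fun j h => by
    have := congrFun t2 (Sum.inr j)
    simpa [mulVec, h] using this
  have t6 := hind (fun j => t none * y j - t (some j)) (by
    funext i
    have := congrFun t2 (Sum.inl i)
    simp only [mulVec, dotProduct, Fintype.sum_option, of_apply, Sum.elim_inl, Option.elim_none,
      Option.elim_some, Pi.zero_apply, mul_sub, sum_sub_distrib] at this ⊢
    simp only [mul_left_comm _ (t none), ← mul_sum]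
    linarith) (fun j h => by simp [y, h, t5 j h])
  have t7 : t none ≠ 0 := fun h => t1 (funext fun o => by
    rcases o with _ | j
    · exact h
    · simpa [h] using congrFun t6 j)
  rw [Fintype.card_option, ← hN] at t3
  refine ⟨x, hx, fun j => ?_⟩
  by_cases h : |x j| ≤ B
  · refine h.trans ?_
    have h1 : B ≤ (N + 1) * (β + T + (N + 1) * T * B) := by nlinarith [Nat.zero_le (N * T * B)]
    exact_mod_cast h1.trans (Nat.le_self_pow (by omega) _)
  · have h1 := congrFun t6 j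
    simp only [y, if_neg h, Pi.zero_apply, sub_eq_zero] at h1
    refine le_trans ?_ (t3 (some j))
    rw [← h1, abs_mul]
    exact le_mul_of_one_le_left (abs_nonneg _) (Int.one_le_abs t7)

/-- The number of binary digits that suffice for the finger moves. -/
def nbits (n : ℕ) : ℕ :=
  (n ^ 3 + (n ^ 4 + 6 + (n ^ 3 + 2 + (n ^ 3 + 2) * n ^ 3))) * (n ^ 3 + 1) + 2

lemma small_cocycle (n : ℕ) (A : ℕ → ℕ → Bool) (x0 : ℕ → ℕ → ℕ → ℤ)
    (h : acost n A m0 x0 ≤ n ^ 4) :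
    ∃ x : ℕ → ℕ → ℕ → ℕ, (∀ a b v, x a b v < 2 ^ nbits n) ∧
      acost n A m0 (fun a b v => x a b v) = acost n A m0 x0 := by
  classical
  let C := {j // j ∈ range n ×ˢ range n ×ˢ range n}
  have hC : Fintype.card C = n ^ 3 := by simp [C]; ring
  let s : ℕ × ℕ × ℕ → C → ℤ := fun p j => if j.1 = p then 1 else 0
  have hs : ∀ (a b v : ℕ) (h : (a, b, v) ∈ range n ×ˢ range n ×ˢ range n) (z : C → ℤ),
      s (a, b, v) ⬝ᵥ z = z ⟨_, h⟩ := by
    intro a b v h z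
    simp only [s, dotProduct, ite_mul, one_mul, zero_mul]
    rw [sum_eq_single ⟨_, h⟩ (fun j _ hj => if_neg fun e => hj (Subtype.ext e)) (by simp), if_pos rfl]
  let M : Matrix (Q4 n A) C ℤ := fun q => s (q.1.1, q.1.2.1, q.1.2.2.1) - s (q.1.1, q.1.2.1, q.1.2.2.2) +
    s (q.1.2.2.1, q.1.2.2.2, q.1.2.1) - s (q.1.2.2.1, q.1.2.2.2, q.1.1)
  have hM : ∀ (x : ℕ → ℕ → ℕ → ℤ) (z : C → ℤ) (c : ℤ), (∀ j : C, x j.1.1 j.1.2.1 j.1.2.2 = z j + c) →
      ∀ q : Q4 n A, Yf m0 x q.1.1 q.1.2.1 q.1.2.2.1 q.1.2.2.2 =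
        (M *ᵥ z) q + Yf m0 0 q.1.1 q.1.2.1 q.1.2.2.1 q.1.2.2.2 := by
    rintro x z c hz ⟨⟨a, b, c, d⟩, hq⟩
    have := mem_Q4.mp hq
    have m1 : (a, b, c) ∈ range n ×ˢ range n ×ˢ range n := by simp; omega
    have m2 : (a, b, d) ∈ range n ×ˢ range n ×ˢ range n := by simp; omega
    have m3 : (c, d, b) ∈ range n ×ˢ range n ×ˢ range n := by simp; omega
    have m4 : (c, d, a) ∈ range n ×ˢ range n ×ˢ range n := by simp; omega
    simp only [mulVec, M, sub_dotProduct, add_dotProduct, hs _ _ _ m1, hs _ _ _ m2, hs _ _ _ m3,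
      hs _ _ _ m4, Yf, Pi.zero_apply]
    linarith [hz ⟨_, m1⟩, hz ⟨_, m2⟩, hz ⟨_, m3⟩, hz ⟨_, m4⟩]
  have h0 := hM x0 (fun j => x0 j.1.1 j.1.2.1 j.1.2.2) 0 (fun j => (add_zero _).symm)
  obtain ⟨z, z1, z2⟩ := small_sol M 4 (n ^ 4 + 2) (by norm_num) (fun q j => by
      simp only [M, s, Pi.sub_apply, Pi.add_apply]
      split_ifs <;> norm_num) (fun j => x0 j.1.1 j.1.2.1 j.1.2.2) (fun q => by
      have h1 := h0 q
      have h2 : _ ≤ acost n A m0 x0 := single_le_sum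
        (f := fun q : ℕ × ℕ × ℕ × ℕ => (Yf m0 x0 q.1 q.2.1 q.2.2.1 q.2.2.2).natAbs)
        (fun _ _ => Nat.zero_le _) q.2
      have h3 : |Yf m0 0 q.1.1 q.1.2.1 q.1.2.2.1 q.1.2.2.2| ≤ 2 := by
        simp only [Yf, m0, Pi.zero_apply]
        split_ifs <;> norm_num
      rw [abs_le] at h3 ⊢
      omega)
  rw [hC] at z2
  have hb : ((n ^ 3 + 1) * (n ^ 4 + 2 + 4 + (n ^ 3 + 1) * 4 * (n ^ 3 * 4) ^ n ^ 3)) ^ (n ^ 3 + 1) ≤
      2 ^ (nbits n - 2) := by
    rw [nbits, Nat.add_sub_cancel, pow_mul, pow_add 2 (n ^ 3), pow_add 2 (n ^ 4 + 6), pow_add 2 (n ^ 3 + 2),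
      pow_mul]
    have a1 : n ^ 3 + 1 ≤ 2 ^ n ^ 3 := Nat.lt_two_pow_self
    have a2 : n ^ 4 + 6 + 1 ≤ 2 ^ (n ^ 4 + 6) := Nat.lt_two_pow_self
    have a3 : (n ^ 3 + 1) * 4 ≤ 2 ^ (n ^ 3 + 2) := by rw [pow_add]; omega
    have a4 : (n ^ 3 * 4) ^ n ^ 3 ≤ (2 ^ (n ^ 3 + 2)) ^ n ^ 3 := Nat.pow_le_pow_left (by omega) _
    have a5 := Nat.mul_le_mul a3 a4
    have a6 : 0 < 2 ^ (n ^ 3 + 2) * (2 ^ (n ^ 3 + 2)) ^ n ^ 3 := by positivity
    refine Nat.pow_le_pow_left (Nat.mul_le_mul a1 ?_) _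
    nlinarith
  have hb2 : 2 ^ nbits n = 4 * 2 ^ (nbits n - 2) := by
    rw [nbits, Nat.add_sub_cancel, pow_add]; ring
  have z3 : ∀ j, |z j| ≤ (2 ^ (nbits n - 2) : ℕ) := fun j => (z2 j).trans (by exact_mod_cast hb)
  refine ⟨fun a b v => if h : (a, b, v) ∈ range n ×ˢ range n ×ˢ range n then
    (z ⟨_, h⟩ + (2 ^ (nbits n - 2) : ℕ)).toNat else 0, fun a b v => ?_, ?_⟩
  · have : 0 < 2 ^ (nbits n - 2) := by positivity
    beta_reduce
    split_ifs with h
    · have := abs_le.mp (z3 ⟨_, h⟩)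
      omega
    · omega
  · unfold acost
    refine sum_congr rfl fun q hq => ?_
    rw [hM _ z (2 ^ (nbits n - 2) : ℕ) (fun j => by
      have := abs_le.mp (z3 j)
      beta_reduce
      rw [dif_pos j.2]
      exact Int.toNat_of_nonneg (by linarith [this.1])) ⟨q, hq⟩, h0 ⟨q, hq⟩, z1]

end Pool.Agent.Lib.MP_d8c195_lc
end

-- part Pool.Agent.Lib.MP_d8c195_lc.Gadget
section

/-! The graphs of the reduction and their two-page drawings. -/

set_option autoImplicit false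

namespace Pool.Agent.Lib.MP_d8c195_lc

open Finset

/-- Vertex names: kind, index, copy. -/
abbrev Tr : Type := ℕ × ℕ × ℕ

/-- Successor on the cycle. -/
def nx (G i : ℕ) : ℕ := bif i == 4 * G then 0 else i + 1

/-- The cycle vertex to which a half chord is attached. -/
def ep (i : ℕ) : ℕ := 4 * (i / 4) + i / 2 % 2 + 2 * (i % 2)

/-- The edges. -/
def rel (G W M : ℕ) (nd : ℕ → ℕ) (v w : Tr) : Bool :=
  (v.1 == 1 && (Nat.ble v.2.1 (4 * G) && (Nat.blt v.2.2 M && (w.1 == 0 && (w.2.2 == 0 &&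
    (w.2.1 == v.2.1 || w.2.1 == nx G v.2.1)))))) ||
  ((v.1 == 3 && (Nat.blt v.2.1 (4 * G) && (Nat.blt v.2.2 W && (w.2.2 == 0 &&
    ((w.1 == 2 && w.2.1 == v.2.1 / 2) || (w.1 == 0 && w.2.1 == ep v.2.1)))))) ||
  (v.1 == 2 && (Nat.blt v.2.1 (2 * G) && (v.2.2 == 0 && (w.1 == 4 && (w.2.1 == nd v.2.1 &&
    w.2.2 == 0))))))

/-- Decoding of vertex numbers. -/
def dec (P v : ℕ) : Tr := (v % 5, v / 5 % P, v / 5 / P)

/-- Coding of vertex names. -/
def cod (P : ℕ) (t : Tr) : ℕ := t.1 + 5 * (t.2.1 + P * t.2.2)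

/-- The adjacency relation. -/
def adj (G W M P : ℕ) (nd : ℕ → ℕ) (a b : ℕ) : Bool :=
  rel G W M nd (dec P a) (dec P b) || rel G W M nd (dec P b) (dec P a)

lemma cod_dec (P v : ℕ) : cod P (dec P v) = v := by
  unfold cod dec
  simp only [Nat.mod_add_div]

lemma dec_cod {P : ℕ} {t : Tr} (h1 : t.1 < 5) (h2 : t.2.1 < P) : dec P (cod P t) = t := by
  obtain ⟨k, i, r⟩ := t
  unfold cod dec
  simp only at h1 h2 ⊢
  rw [show (k + 5 * (i + P * r)) / 5 = i + P * r by omega, Nat.add_mul_mod_self_left,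
    Nat.add_mul_mod_self_left, Nat.add_mul_div_left _ _ (by omega), Nat.mod_eq_of_lt h1,
    Nat.mod_eq_of_lt h2, Nat.div_eq_of_lt h2, zero_add]

lemma rel_iff {G W M : ℕ} {nd : ℕ → ℕ} {v w : Tr} : rel G W M nd v w = true ↔
    (∃ i r, i ≤ 4 * G ∧ r < M ∧ v = (1, i, r) ∧ w = (0, i, 0)) ∨
    (∃ i r, i < 4 * G ∧ r < M ∧ v = (1, i, r) ∧ w = (0, i + 1, 0)) ∨
    (∃ r, r < M ∧ v = (1, 4 * G, r) ∧ w = (0, 0, 0)) ∨
    (∃ i r, i < 4 * G ∧ r < W ∧ v = (3, i, r) ∧ w = (2, i / 2, 0)) ∨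
    (∃ i r, i < 4 * G ∧ r < W ∧ v = (3, i, r) ∧ w = (0, ep i, 0)) ∨
    (∃ j, j < 2 * G ∧ v = (2, j, 0) ∧ w = (4, nd j, 0)) := by
  obtain ⟨k, i, r⟩ := v
  obtain ⟨k', i', r'⟩ := w
  simp only [rel, nx, Bool.or_eq_true, Bool.and_eq_true, beq_iff_eq, Nat.ble_eq, Nat.blt_eq,
    Bool.cond_eq_ite, Prod.mk.injEq]
  constructor
  · rintro (⟨rfl, h1, h2, rfl, rfl, rfl | h⟩ | ⟨rfl, h1, h2, rfl, ⟨rfl, rfl⟩ | ⟨rfl, rfl⟩⟩ |
      ⟨rfl, h1, rfl, rfl, rfl, rfl⟩)
    · exact Or.inl ⟨_, _, h1, h2, by simp⟩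
    · split_ifs at h with h3
      · exact Or.inr (Or.inr (Or.inl ⟨_, h2, by simp [h, h3]⟩))
      · exact Or.inr (Or.inl ⟨i, _, by omega, h2, by simp [h]⟩)
    · exact Or.inr (Or.inr (Or.inr (Or.inl ⟨_, _, h1, h2, by simp⟩)))
    · exact Or.inr (Or.inr (Or.inr (Or.inr (Or.inl ⟨_, _, h1, h2, by simp⟩))))
    · exact Or.inr (Or.inr (Or.inr (Or.inr (Or.inr ⟨_, h1, by simp⟩))))
  · rintro (⟨i, r, h1, h2, ⟨rfl, rfl, rfl⟩, rfl, rfl, rfl⟩ |
      ⟨i, r, h1, h2, ⟨rfl, rfl, rfl⟩, rfl, rfl, rfl⟩ | ⟨r, h2, ⟨rfl, rfl, rfl⟩, rfl, rfl, rfl⟩ |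
      ⟨i, r, h1, h2, ⟨rfl, rfl, rfl⟩, rfl, rfl, rfl⟩ |
      ⟨i, r, h1, h2, ⟨rfl, rfl, rfl⟩, rfl, rfl, rfl⟩ | ⟨j, h1, ⟨rfl, rfl, rfl⟩, rfl, rfl, rfl⟩)
    all_goals simp [*]
    all_goals omega

/-- Position on the spine. -/
def pos (G W : ℕ) (nd s : ℕ → ℕ) (v : Tr) : ℕ × ℕ :=
  if v.1 = 0 then (4 * v.2.1, 0) else if v.1 = 1 then (4 * v.2.1 + 2, v.2.2)
  else if v.1 = 2 then (8 * v.2.1 + s (nd v.2.1), W)
  else if v.1 = 3 then (8 * (v.2.1 / 2) + s (nd (v.2.1 / 2)), (W + 1) * (v.2.1 % 2) + v.2.2)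
  else (16 * G + s v.2.1, v.2.1)

/-- The page of an edge. -/
def pg (nd s : ℕ → ℕ) (v w : Tr) : ℕ :=
  if v.1 = 1 then (if w.2.1 = v.2.1 then 3 else 1)
  else if v.1 = 3 then (if w.1 = 2 then 4 - s (nd (v.2.1 / 2)) else s (nd (v.2.1 / 2)))
  else s (nd v.2.1)

/-- Lexicographic order. -/
def plt (p q : ℕ × ℕ) : Prop := p.1 < q.1 ∨ p.1 = q.1 ∧ p.2 < q.2

/-- The left end, the right end and the page of an edge. -/
def Ty (G W : ℕ) (nd s : ℕ → ℕ) (v w : Tr) (lo hi : ℕ × ℕ) (p : ℕ) : Prop :=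
  (∃ i r, i ≤ 4 * G ∧ lo = (4 * i, 0) ∧ hi = (4 * i + 2, r) ∧ p = 3) ∨
  (∃ i r, i < 4 * G ∧ lo = (4 * i + 2, r) ∧ hi = (4 * i + 4, 0) ∧ p = 1) ∨
  (∃ r, lo = (0, 0) ∧ hi = (16 * G + 2, r) ∧ (p = 1 ∨ p = 3 ∧ G = 0)) ∨
  (∃ j r, j < 2 * G ∧ r < W ∧ lo = (8 * j + s (nd j), r) ∧ hi = (8 * j + s (nd j), W) ∧
    p + s (nd j) = 4) ∨
  (∃ j r, j < 2 * G ∧ lo = (8 * j + s (nd j), W) ∧ hi = (8 * j + s (nd j), W + 1 + r) ∧
    p + s (nd j) = 4) ∨
  (∃ j g r, j = 2 * g ∧ g < G ∧ r < W ∧ lo = (16 * g, 0) ∧ hi = (8 * j + s (nd j), r) ∧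
    p = s (nd j)) ∨
  (∃ j g r, j = 2 * g ∧ g < G ∧ r < W ∧ lo = (8 * j + s (nd j), W + 1 + r) ∧ hi = (16 * g + 8, 0) ∧
    p = s (nd j) ∧ v = (3, 4 * g + 1, r) ∧ w = (0, 4 * g + 2, 0)) ∨
  (∃ j g r, j = 2 * g + 1 ∧ g < G ∧ r < W ∧ lo = (16 * g + 4, 0) ∧ hi = (8 * j + s (nd j), r) ∧
    p = s (nd j) ∧ v = (3, 4 * g + 2, r) ∧ w = (0, 4 * g + 1, 0)) ∨
  (∃ j g r, j = 2 * g + 1 ∧ g < G ∧ lo = (8 * j + s (nd j), W + 1 + r) ∧ hi = (16 * g + 12, 0) ∧
    p = s (nd j)) ∨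
  (∃ j, j < 2 * G ∧ lo = (8 * j + s (nd j), W) ∧ hi = (16 * G + s (nd j), nd j) ∧ p = s (nd j) ∧
    v = (2, j, 0) ∧ w = (4, nd j, 0))

lemma edge_data {G W M : ℕ} {nd s : ℕ → ℕ} (hs : ∀ i, s i = 1 ∨ s i = 3) {v w : Tr}
    (h : rel G W M nd v w = true) : ∃ lo hi, (pos G W nd s v = lo ∧ pos G W nd s w = hi ∨
      pos G W nd s v = hi ∧ pos G W nd s w = lo) ∧ Ty G W nd s v w lo hi (pg nd s v w) := by
  rcases rel_iff.mp h with ⟨i, r, h1, h2, rfl, rfl⟩ | ⟨i, r, h1, h2, rfl, rfl⟩ | ⟨r, h2, rfl, rfl⟩ |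
    ⟨i, r, h1, h2, rfl, rfl⟩ | ⟨i, r, h1, h2, rfl, rfl⟩ | ⟨i, h1, rfl, rfl⟩
  · exact ⟨_, _, Or.inr ⟨rfl, rfl⟩, Or.inl ⟨i, r, h1, rfl, rfl, by simp [pg]⟩⟩
  · exact ⟨_, _, Or.inl ⟨rfl, rfl⟩, Or.inr (Or.inl ⟨i, r, h1, rfl, rfl, by simp [pg]⟩)⟩
  · refine ⟨_, _, Or.inr ⟨rfl, rfl⟩, Or.inr (Or.inr (Or.inl ⟨r, rfl, ?_, ?_⟩))⟩
    · simp [pos]; omega
    · simp only [pg, if_true]; split_ifs <;> omega
  · have := hs (nd (i / 2))
    rcases Nat.mod_two_eq_zero_or_one i with h | h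
    · exact ⟨_, _, Or.inl ⟨rfl, rfl⟩, Or.inr (Or.inr (Or.inr (Or.inl ⟨i / 2, r, by omega, h2,
        by simp [pos, h], rfl, by simp [pg]; omega⟩)))⟩
    · exact ⟨_, _, Or.inr ⟨rfl, rfl⟩, Or.inr (Or.inr (Or.inr (Or.inr (Or.inl ⟨i / 2, r, by omega,
        rfl, by simp [pos, h], by simp [pg]; omega⟩))))⟩
  · have h4 : i % 4 = 0 ∨ i % 4 = 1 ∨ i % 4 = 2 ∨ i % 4 = 3 := by omega
    rcases h4 with h | h | h | h
    · exact ⟨_, _, Or.inr ⟨rfl, rfl⟩, Or.inr (Or.inr (Or.inr (Or.inr (Or.inr (Or.inl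
        ⟨i / 2, i / 4, r, by omega, by omega, h2, by simp [pos, ep]; omega,
        by simp [pos]; omega, by simp [pg]⟩)))))⟩
    · exact ⟨_, _, Or.inl ⟨rfl, rfl⟩, Or.inr (Or.inr (Or.inr (Or.inr (Or.inr (Or.inr (Or.inl
        ⟨i / 2, i / 4, r, by omega, by omega, h2, by simp [pos, show i % 2 = 1 by omega],
        by simp [pos, ep]; omega, by simp [pg], by simp; omega, by simp [ep]; omega⟩))))))⟩
    · exact ⟨_, _, Or.inr ⟨rfl, rfl⟩, Or.inr (Or.inr (Or.inr (Or.inr (Or.inr (Or.inr (Or.inr (Or.inl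
        ⟨i / 2, i / 4, r, by omega, by omega, h2, by simp [pos, ep]; omega,
        by simp [pos]; omega, by simp [pg], by simp; omega, by simp [ep]; omega⟩)))))))⟩
    · exact ⟨_, _, Or.inl ⟨rfl, rfl⟩, Or.inr (Or.inr (Or.inr (Or.inr (Or.inr (Or.inr (Or.inr (Or.inr
        (Or.inl ⟨i / 2, i / 4, r, by omega, by omega, by simp [pos, show i % 2 = 1 by omega],
        by simp [pos, ep]; omega, by simp [pg]⟩))))))))⟩
  · exact ⟨_, _, Or.inl ⟨rfl, rfl⟩, Or.inr (Or.inr (Or.inr (Or.inr (Or.inr (Or.inr (Or.inr (Or.inr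
      (Or.inr ⟨i, h1, rfl, rfl, by simp [pg], rfl, rfl⟩))))))))⟩

/-- The crossing pairs. -/
def Des (G W : ℕ) (nd s : ℕ → ℕ) (v w v' w' : Tr) : Prop :=
  (∃ j j', j < 2 * G ∧ j' < 2 * G ∧ v = (2, j, 0) ∧ w = (4, nd j, 0) ∧ v' = (2, j', 0) ∧
      w' = (4, nd j', 0)) ∨
  ∃ g r r', g < G ∧ r < W ∧ r' < W ∧ s (nd (2 * g)) = s (nd (2 * g + 1)) ∧
    v = (3, 4 * g + 1, r) ∧ w = (0, 4 * g + 2, 0) ∧ v' = (3, 4 * g + 2, r') ∧ w' = (0, 4 * g + 1, 0)

lemma core {G W : ℕ} {nd s : ℕ → ℕ} (hs : ∀ i, s i = 1 ∨ s i = 3) {v w v' w' : Tr}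
    {lo hi lo' hi' : ℕ × ℕ} {p : ℕ} (h : Ty G W nd s v w lo hi p) (h' : Ty G W nd s v' w' lo' hi' p)
    (c1 : plt lo lo') (c2 : plt lo' hi) (c3 : plt hi hi') : Des G W nd s v w v' w' := by
  have hc : ∀ j j', j = j' → s (nd j) = s (nd j') := fun j j' h => by rw [h]
  rcases h with ⟨j, r, h1, rfl, rfl, h2⟩ | ⟨j, r, h1, rfl, rfl, h2⟩ | ⟨j, rfl, rfl, h2⟩ |
    ⟨j, r, h1, h2, rfl, rfl, h3⟩ | ⟨j, r, h1, rfl, rfl, h3⟩ | ⟨j, g, r, h1, h2, h3, rfl, rfl, h4⟩ |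
    ⟨j, g, r, h1, h2, h3, rfl, rfl, h4, h5, h6⟩ | ⟨j, g, r, h1, h2, h3, rfl, rfl, h4, h5, h6⟩ |
    ⟨j, g, r, h1, h2, rfl, rfl, h4⟩ | ⟨j, h1, rfl, rfl, h4, h5, h6⟩ <;>
  rcases h' with ⟨j', r', k1, rfl, rfl, k2⟩ | ⟨j', r', k1, rfl, rfl, k2⟩ | ⟨j', rfl, rfl, k2⟩ |
    ⟨j', r', k1, k2, rfl, rfl, k3⟩ | ⟨j', r', k1, rfl, rfl, k3⟩ |
    ⟨j', g', r', k1, k2, k3, rfl, rfl, k4⟩ |
    ⟨j', g', r', k1, k2, k3, rfl, rfl, k4, k5, k6⟩ | ⟨j', g', r', k1, k2, k3, rfl, rfl, k4, k5, k6⟩ |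
    ⟨j', g', r', k1, k2, rfl, rfl, k4⟩ | ⟨j', k1, rfl, rfl, k4, k5, k6⟩
  all_goals
    have a1 := hs (nd j)
    have a2 := hs (nd j')
    have a3 := hc j j'
    simp only [plt] at c1 c2 c3
    first
      | exact Or.inl ⟨j, j', h1, k1, h5, h6, k5, k6⟩
      | (exfalso; omega)
      | skip
  obtain rfl : g = g' := by omega
  exact Or.inr ⟨g, r, r', h2, h3, k3, by rw [← k1, ← h1, ← h4, k4], h5, h6, k5, k6⟩

lemma Ty.lt {G W : ℕ} {nd s : ℕ → ℕ} (hs : ∀ i, s i = 1 ∨ s i = 3) {v w : Tr}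
    {lo hi : ℕ × ℕ} {p : ℕ} (h : Ty G W nd s v w lo hi p) : plt lo hi ∧ (p = 1 ∨ p = 3) := by
  rcases h with ⟨j, r, h1, rfl, rfl, h2⟩ | ⟨j, r, h1, rfl, rfl, h2⟩ | ⟨j, rfl, rfl, h2⟩ |
    ⟨j, r, h1, h2, rfl, rfl, h3⟩ | ⟨j, r, h1, rfl, rfl, h3⟩ | ⟨j, g, r, h1, h2, h3, rfl, rfl, h4⟩ |
    ⟨j, g, r, h1, h2, h3, rfl, rfl, h4, h5, h6⟩ | ⟨j, g, r, h1, h2, h3, rfl, rfl, h4, h5, h6⟩ |
    ⟨j, g, r, h1, h2, rfl, rfl, h4⟩ | ⟨j, h1, rfl, rfl, h4, h5, h6⟩
  all_goals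
    have a1 := hs (nd j)
    simp only [plt, true_and]
    omega

/-- Vertices that are not isolated. -/
def Used (G W : ℕ) (v : Tr) : Prop :=
  (∃ i, v = (0, i, 0)) ∨ (∃ i r, v = (1, i, r)) ∨ (∃ j, j < 2 * G ∧ v = (2, j, 0)) ∨
    (∃ i r, i < 4 * G ∧ r < W ∧ v = (3, i, r)) ∨ ∃ z, v = (4, z, 0)

lemma rel_used {G W M : ℕ} {nd : ℕ → ℕ} {v w : Tr} (h : rel G W M nd v w = true) :
    Used G W v ∧ Used G W w := by
  rcases rel_iff.mp h with ⟨i, r, h1, h2, rfl, rfl⟩ | ⟨i, r, h1, h2, rfl, rfl⟩ | ⟨r, h2, rfl, rfl⟩ |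
    ⟨i, r, h1, h2, rfl, rfl⟩ | ⟨i, r, h1, h2, rfl, rfl⟩ | ⟨i, h1, rfl, rfl⟩ <;>
  simp [Used, *]
  omega

lemma pos_inj {G W : ℕ} {nd s : ℕ → ℕ} (hs : ∀ i, s i = 1 ∨ s i = 3) {v w : Tr} (hv : Used G W v)
    (hw : Used G W w) (h : pos G W nd s v = pos G W nd s w) : v = w := by
  rcases hv with ⟨i, rfl⟩ | ⟨i, r, rfl⟩ | ⟨i, h1, rfl⟩ | ⟨i, r, h1, h2, rfl⟩ | ⟨i, rfl⟩ <;>
  rcases hw with ⟨i', rfl⟩ | ⟨i', r', rfl⟩ | ⟨i', h3, rfl⟩ | ⟨i', r', h3, h4, rfl⟩ | ⟨i', rfl⟩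
  all_goals
    have := hs i
    have := hs i'
    have := hs (nd i)
    have := hs (nd i')
    have := hs (nd (i / 2))
    have := hs (nd (i' / 2))
    rcases Nat.mod_two_eq_zero_or_one i with e | e <;>
    rcases Nat.mod_two_eq_zero_or_one i' with e' | e' <;>
    simp [pos, e, e'] at h ⊢ <;> omega

lemma order_aux {α : Type} [LinearOrder α] {a b c d lo hi lo' hi' : α}
    (h1 : a = lo ∧ b = hi ∨ a = hi ∧ b = lo) (h2 : c = lo' ∧ d = hi' ∨ c = hi' ∧ d = lo')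
    (h3 : lo < hi) (h4 : lo' < hi') (n1 : a ≠ c) (n2 : a ≠ d) (n3 : b ≠ c) (n4 : b ≠ d)
    (h : (if b < c then 1 else 0) - (if a < c then 1 else 0) - (if b < d then 1 else 0) +
      (if a < d then 1 else 0) ≠ (0 : ℤ)) :
    (lo < lo' ∧ lo' < hi ∧ hi < hi') ∨ (lo' < lo ∧ lo < hi' ∧ hi' < hi) := by
  rcases h1 with ⟨rfl, rfl⟩ | ⟨rfl, rfl⟩ <;> rcases h2 with ⟨rfl, rfl⟩ | ⟨rfl, rfl⟩ <;>
  split_ifs at h <;>
  first | exact absurd rfl h | (left; refine ⟨?_, ?_, ?_⟩ <;> order) |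
    (right; refine ⟨?_, ?_, ?_⟩ <;> order)

lemma order_aux' {α : Type} [LinearOrder α] (a b c d : α) :
    ((if b < c then 1 else 0) - (if a < c then 1 else 0) - (if b < d then 1 else 0) +
      (if a < d then 1 else 0) : ℤ).natAbs ≤ 1 := by
  split_ifs <;> first | decide | (exfalso; order)

/-- Normal form of a pair of edges. -/
def nrm (a b c d : ℕ) : ℕ × ℕ × ℕ × ℕ :=
  if min a b < min c d then (min a b, max a b, min c d, max c d)
  else (min c d, max c d, min a b, max a b)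

theorem upper (n G W M P : ℕ) (nd : ℕ → ℕ) (sd : ℕ → Bool) :
    ∃ x, acost n (adj G W M P nd) m0 x ≤
      W ^ 2 * ((range G).filter fun g => sd (nd (2 * g)) = sd (nd (2 * g + 1))).card + (2 * G) ^ 2 := by
  classical
  let s : ℕ → ℕ := fun i => if sd i = true then 3 else 1
  have hs : ∀ i, s i = 1 ∨ s i = 3 := fun i => by simp only [s]; split_ifs <;> simp
  let q : ℕ → Lex (Lex (ℕ × ℕ) × ℕ) := fun v => toLex (toLex (pos G W nd s (dec P v)), v)
  have hq : Function.Injective q := fun u v h => congrArg (fun x => (ofLex x).2) h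
  let m : ℕ → ℕ → ℤ := fun u v => if q u < q v then 1 else 0
  have hm : ∀ u v, u ≠ v → m u v + m v u = 1 := fun u v h => by
    have := hq.ne h
    simp only [m]
    split_ifs <;> first | rfl | (exfalso; order)
  let tp : ℕ → ℕ → ℕ := fun a b => if rel G W M nd (dec P a) (dec P b) = true then
    pg nd s (dec P a) (dec P b) else pg nd s (dec P b) (dec P a)
  obtain ⟨x, hx⟩ := change_tour n (adj G W M P nd) m hm
    (fun a b v => (if tp a b = 3 then 1 else 0) * (m a v - m b v))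
  refine ⟨x, hx ▸ ?_⟩
  set Un := (range G).filter fun g => sd (nd (2 * g)) = sd (nd (2 * g + 1)) with hUn
  let T : Finset (ℕ × ℕ × ℕ × ℕ) := (range (2 * G) ×ˢ range (2 * G)).image (fun j =>
      nrm (cod P (2, j.1, 0)) (cod P (4, nd j.1, 0)) (cod P (2, j.2, 0)) (cod P (4, nd j.2, 0))) ∪
    (Un ×ˢ range W ×ˢ range W).image (fun j => nrm (cod P (3, 4 * j.1 + 1, j.2.1))
      (cod P (0, 4 * j.1 + 2, 0)) (cod P (3, 4 * j.1 + 2, j.2.2)) (cod P (0, 4 * j.1 + 1, 0)))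
  have hT : T.card ≤ W ^ 2 * Un.card + (2 * G) ^ 2 := by
    refine (card_union_le _ _).trans ((add_le_add card_image_le card_image_le).trans (le_of_eq ?_))
    simp only [card_product, card_range]
    ring
  have hD : ∀ a b c d, Des G W nd s (dec P a) (dec P b) (dec P c) (dec P d) → nrm a b c d ∈ T := by
    rintro a b c d (⟨j, j', h1, h2, e1, e2, e3, e4⟩ | ⟨g, r, r', h1, h2, h3, h4, e1, e2, e3, e4⟩)
    · refine mem_union_left _ (mem_image.mpr ⟨(j, j'), by simp [h1, h2], ?_⟩)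
      simp only [← e1, ← e2, ← e3, ← e4, cod_dec]
    · refine mem_union_right _ (mem_image.mpr ⟨(g, r, r'), ?_, ?_⟩)
      · simp only [hUn, mem_product, mem_filter, mem_range, h1, h2, h3, and_true, true_and]
        simp only [s] at h4
        cases h5 : sd (nd (2 * g)) <;> cases h6 : sd (nd (2 * g + 1)) <;> simp_all
      · simp only [← e1, ← e2, ← e3, ← e4, cod_dec]
  have hE : ∀ a b, adj G W M P nd a b = true → ∃ a' b' lo hi, (a' = a ∧ b' = b ∨ a' = b ∧ b' = a) ∧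
      Used G W (dec P a) ∧ Used G W (dec P b) ∧
      (pos G W nd s (dec P a) = lo ∧ pos G W nd s (dec P b) = hi ∨
        pos G W nd s (dec P a) = hi ∧ pos G W nd s (dec P b) = lo) ∧
      Ty G W nd s (dec P a') (dec P b') lo hi (tp a b) := by
    intro a b h
    by_cases h1 : rel G W M nd (dec P a) (dec P b) = true
    · obtain ⟨lo, hi, e1, e2⟩ := edge_data hs h1
      exact ⟨a, b, lo, hi, Or.inl ⟨rfl, rfl⟩, (rel_used h1).1, (rel_used h1).2, e1, by
        simpa only [tp, if_pos h1] using e2⟩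
    · have h2 : rel G W M nd (dec P b) (dec P a) = true := by simpa [adj, h1] using h
      obtain ⟨lo, hi, e1, e2⟩ := edge_data hs h2
      exact ⟨b, a, lo, hi, Or.inr ⟨rfl, rfl⟩, (rel_used h2).2, (rel_used h2).1, by tauto, by
        simpa only [tp, if_neg h1] using e2⟩
  refine le_trans ?_ hT
  rw [card_eq_sum_ones, acost]
  refine (sum_filter_ne_zero _).symm.le.trans ((sum_le_sum (g := fun _ => 1) ?_).trans
    (sum_le_sum_of_subset ?_))
  all_goals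
    rintro ⟨a, b, c, d⟩ hq
    obtain ⟨hq, hne⟩ := mem_filter.mp hq
    obtain ⟨-, -, g1, g2, g3, g4, g5, g6, g7⟩ := mem_Q4.mp hq
    have e : Yf m (fun a b v => (if tp a b = 3 then 1 else 0) * (m a v - m b v)) a b c d =
        (m b c - m a c - m b d + m a d) *
          (1 - (if tp a b = 3 then 1 else 0) - (if tp c d = 3 then 1 else 0)) := by
      simp only [Yf]
      linear_combination (if tp c d = 3 then 1 else 0) *
        (hm b c g4 - hm b d g5 - hm a c g3.ne + hm a d (by omega))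
    simp only [e] at hne ⊢
  · have := order_aux' (q a) (q b) (q c) (q d)
    rw [Int.natAbs_mul]
    exact mul_le_one' this (by split_ifs <;> decide)
  · rw [Int.natAbs_ne_zero, mul_ne_zero_iff] at hne
    obtain ⟨a', b', lo, hi, u1, u2, u3, u4, u5⟩ := hE a b g6
    obtain ⟨c', d', lo', hi', w1, w2, w3, w4, w5⟩ := hE c d g7
    have key : ∀ u v, u ≠ v → Used G W (dec P u) → Used G W (dec P v) →
        toLex (pos G W nd s (dec P u)) ≠ toLex (pos G W nd s (dec P v)) ∧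
        m u v = if toLex (pos G W nd s (dec P u)) < toLex (pos G W nd s (dec P v)) then 1 else 0 := by
      intro u v huv hu hv
      have : toLex (pos G W nd s (dec P u)) ≠ toLex (pos G W nd s (dec P v)) := fun h =>
        huv (by rw [← cod_dec P u, pos_inj hs hu hv h, cod_dec])
      refine ⟨this, ?_⟩
      simp only [m, q, Prod.Lex.toLex_lt_toLex (α := Lex (ℕ × ℕ)), this, false_and, or_false]
    have k1 := key a c g3.ne u2 w2
    have k2 := key a d (by omega) u2 w3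
    have k3 := key b c g4 u3 w2
    have k4 := key b d g5 u3 w3
    rw [k1.2, k2.2, k3.2, k4.2] at hne
    have l1 := u5.lt hs
    have l2 := w5.lt hs
    have hG : tp c d = tp a b := by
      have := hne.2
      split_ifs at this <;> omega
    rw [hG] at w5
    have := order_aux (lo := toLex lo) (hi := toLex hi) (lo' := toLex lo') (hi' := toLex hi')
      (by simpa using u4) (by simpa using w4) (Prod.Lex.toLex_lt_toLex.mpr l1.1)
      (Prod.Lex.toLex_lt_toLex.mpr l2.1) k1.1 k2.1 k3.1 k4.1 hne.1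
    simp only [Prod.Lex.toLex_lt_toLex] at this
    have e1 : nrm a' b' c' d' = (a, b, c, d) ∧ nrm c' d' a' b' = (a, b, c, d) := by
      rcases u1 with ⟨rfl, rfl⟩ | ⟨rfl, rfl⟩ <;> rcases w1 with ⟨rfl, rfl⟩ | ⟨rfl, rfl⟩ <;>
      simp [nrm, g1.le, g2.le, g3, g3.not_gt]
    rcases this with ⟨c1, c2, c3⟩ | ⟨c1, c2, c3⟩
    · exact e1.1 ▸ hD _ _ _ _ (core hs u5 w5 c1 c2 c3)
    · exact e1.2 ▸ hD _ _ _ _ (core hs w5 u5 c1 c2 c3)

end Pool.Agent.Lib.MP_d8c195_lc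
end

-- part Pool.Agent.Lib.MP_d8c195_lc.Lower
section

/-! The parity lower bound for the graphs of the reduction. -/

set_option autoImplicit false

namespace Pool.Agent.Lib.MP_d8c195_lc

open Finset

/-- The standard order mod 2. -/
def ms (u v : ℕ) : ZMod 2 := (m0 u v : ℤ)

/-- Finger moves mod 2, for unordered edges. -/
def xs (x : ℕ → ℕ → ℕ → ℤ) (a b v : ℕ) : ZMod 2 := (x (min a b) (max a b) v : ℤ)

/-- Crossing parity of two paths. -/
def Yv (a b : ℕ) (X : ℕ → ZMod 2) (c d : ℕ) (X' : ℕ → ZMod 2) : ZMod 2 :=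
  X c + X d + X' a + X' b + ms b c + ms a c + ms b d + ms a d

lemma two0 : (2 : ZMod 2) = 0 := rfl

lemma ms_tour (u v : ℕ) (h : u ≠ v) : ms u v + ms v u = 1 := by
  unfold ms
  rw [← Int.cast_add, m0_tour u v h, Int.cast_one]

lemma Yv_left (e a b : ℕ) (X1 X2 : ℕ → ZMod 2) (c d : ℕ) (X' : ℕ → ZMod 2) :
    Yv a b (X1 + X2) c d X' = Yv e a X1 c d X' + Yv e b X2 c d X' := by
  simp only [Yv, Pi.add_apply]
  linear_combination (-(X' e + ms e c + ms e d)) * two0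

lemma Yv_right (e a b : ℕ) (X : ℕ → ZMod 2) (c d : ℕ) (X1 X2 : ℕ → ZMod 2) :
    Yv a b X c d (X1 + X2) = Yv a b X e c X1 + Yv a b X e d X2 := by
  simp only [Yv, Pi.add_apply]
  linear_combination (-(X e + ms a e + ms b e)) * two0

lemma odd_mem (n : ℕ) (A : ℕ → ℕ → Bool) (hA : ∀ a b, A a b = A b a) (x : ℕ → ℕ → ℕ → ℤ)
    (a b c d : ℕ) (ha : a < n) (hb : b < n) (hc : c < n) (hd : d < n) (h1 : A a b = true)
    (h2 : A c d = true) (n0 : a ≠ b) (n0' : c ≠ d) (n1 : a ≠ c) (n2 : a ≠ d) (n3 : b ≠ c)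
    (n4 : b ≠ d) (h : Yv a b (xs x a b) c d (xs x c d) ≠ 0) :
    ∃ q ∈ (Q4 n A).filter (fun q => Yf m0 x q.1 q.2.1 q.2.2.1 q.2.2.2 ≠ 0), ∀ φ : ℕ → ℕ,
      φ q.1 + φ q.2.1 + φ q.2.2.1 + φ q.2.2.2 = φ a + φ b + φ c + φ d := by
  wlog hab : a < b generalizing a b
  · obtain ⟨q, q1, q2⟩ := this b a hb ha (hA a b ▸ h1) n0.symm n3 n4 n1 n2 (by
      convert h using 1
      simp only [Yv, xs, min_comm a b, max_comm a b]
      ring) (by omega)
    exact ⟨q, q1, fun φ => by rw [q2]; ring⟩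
  wlog hcd : c < d generalizing c d
  · obtain ⟨q, q1, q2⟩ := this d c hd hc (hA c d ▸ h2) n0'.symm n2 n1 n4 n3 (by
      convert h using 1
      simp only [Yv, xs, min_comm c d, max_comm c d]
      ring) (by omega)
    exact ⟨q, q1, fun φ => by rw [q2]; ring⟩
  wlog hac : a < c generalizing a b c d
  · obtain ⟨q, q1, q2⟩ := this c d hc hd h2 n0' hcd a b ha hb h1 n0 n1.symm n3.symm n2.symm n4.symm
      (by
        convert h using 1
        simp only [Yv]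
        linear_combination ms_tour _ _ n1 + ms_tour _ _ n2 + ms_tour _ _ n3 + ms_tour _ _ n4 +
          (2 - ms a c - ms a d - ms b c - ms b d) * two0) hab (by omega)
    exact ⟨q, q1, fun φ => by rw [q2]; ring⟩
  refine ⟨(a, b, c, d), mem_filter.mpr ⟨mem_Q4.mpr ⟨hb, hd, hab, hcd, hac, n3, n4, h1, h2⟩,
    fun h0 => h ?_⟩, fun _ => rfl⟩
  have := congrArg (Int.cast : ℤ → ZMod 2) h0
  simp only [Yf, Yv, xs, ms, min_eq_left hab.le, max_eq_right hab.le, min_eq_left hcd.le,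
    max_eq_right hcd.le] at this ⊢
  push_cast at this
  linear_combination this + ((x a b d : ZMod 2) + x c d a + m0 a c + m0 b d) * two0

lemma k33 {p1 p2 p3 p4 a b : ℕ} (h1 : p1 ≠ p2) (h2 : p1 ≠ p4) (h3 : p2 ≠ p4)
    (A1 A2 A3 a1 a3 b2 b4 sd : ℕ → ZMod 2)
    (e1 : Yv p2 p3 A2 a p3 a3 + Yv p3 p4 A3 a p3 a3 = sd a + sd p3)
    (e2 : Yv p1 p2 A1 b p2 b2 + Yv p2 p3 A2 b p2 b2 = sd b + sd p2)
    (e3 : Yv p1 p2 A1 p2 p3 A2 + Yv p2 p3 A2 p2 p3 A2 + Yv p3 p4 A3 p2 p3 A2 = sd p2 + sd p3)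
    (f1 : Yv p2 p3 A2 a p1 a1 = 0) (f2 : Yv p3 p4 A3 a p1 a1 = 0) (f3 : Yv p1 p2 A1 b p4 b4 = 0)
    (f4 : Yv p2 p3 A2 b p4 b4 = 0) (f5 : Yv p1 p2 A1 p3 p4 A3 = 0)
    (g1 : Yv a p1 a1 b p2 b2 = 0) (g2 : Yv a p1 a1 b p4 b4 = 0) (g3 : Yv a p3 a3 b p2 b2 = 0)
    (g4 : Yv a p3 a3 b p4 b4 = 0) : sd a ≠ sd b := by
  intro h
  have t1 := ms_tour _ _ h1
  have t2 := ms_tour _ _ h2
  have t3 := ms_tour _ _ h3
  simp only [Yv] at *
  have : (1 : ZMod 2) = 0 := by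
    linear_combination e1 + e2 + e3 + f1 + f2 + f3 + f4 + f5 + g1 + g2 + g3 + g4 + t1 + t2 + t3 + h +
      ((-1) * A2 a + (-2) * A2 p3 + (-1) * a3 p2 + (-1) * a3 p3 + (-2) * ms p3 a +
      (-1) * ms p2 a + (-2) * ms p3 p3 + (-2) * ms p2 p3 + (-1) * A3 a + (-1) * A3 p3 +
      (-1) * a3 p4 + (-1) * ms p4 a + (-1) * ms p4 p3 + (1) * sd p3 + (-1) * A1 b +
      (-1) * A1 p2 + (-1) * b2 p1 + (-1) * b2 p2 + (-2) * ms p2 b + (-2) * ms p1 b +
      (-2) * ms p2 p2 + (-2) * ms p1 p2 + (-1) * A2 b + (-2) * A2 p2 + (-1) * b2 p3 +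
      (-2) * ms p3 b + (-2) * ms p3 p2 + (1) * sd b + (1) * sd p2 + (-1) * A1 p3 + (-1) * A2 p1 +
      (-1) * ms p1 p3 + (-1) * A3 p2 + (-1) * A2 p4 + (-1) * ms p4 p2 + (-1) * a1 p2 +
      (-1) * a1 p3 + (-1) * ms p3 p1 + (-1) * ms p2 p1 + (-1) * A3 p1 + (-1) * a1 p4 +
      (-1) * ms p4 p1 + (-1) * A1 p4 + (-1) * b4 p1 + (-1) * b4 p2 + (-2) * ms p2 p4 +
      (-2) * ms p1 p4 + (-1) * b4 p3 + (-1) * ms p3 p4 + (-1) * a1 b + (-1) * b2 a +
      (-2) * ms a b + (-1) * ms a p2 + (-1) * b4 a + (-1) * ms a p4 + (-1) * a3 b +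
      (2) * 1) * two0
  exact absurd this (by decide)

theorem lower (n G W M P k U : ℕ) (nd : ℕ → ℕ) (hP : 4 * G < P) (hnd : ∀ j < 2 * G, nd j < P)
    (hn : ∀ t : Tr, t.1 < 5 → t.2.1 < P → t.2.2 < M + W → cod P t < n) (hM : 4 * k < M)
    (hk : k < W ^ 2 * (U + 1)) (x : ℕ → ℕ → ℕ → ℤ) (hx : acost n (adj G W M P nd) m0 x ≤ k) :
    ∃ sd : ℕ → Bool, ((range G).filter fun g => sd (nd (2 * g)) = sd (nd (2 * g + 1))).card ≤ U := by
  classical
  set Q := (Q4 n (adj G W M P nd)).filter (fun q => Yf m0 x q.1 q.2.1 q.2.2.1 q.2.2.2 ≠ 0) with hQ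
  have hQk : Q.card ≤ k := by
    refine le_trans ?_ hx
    rw [card_eq_sum_ones, acost]
    exact (sum_le_sum fun q hq => Int.natAbs_pos.mpr (mem_filter.mp hq).2).trans
      (sum_le_sum_of_subset (filter_subset _ _))
  have hb : ∀ v w, rel G W M nd v w = true → v ≠ w ∧ (v.1 < 5 ∧ v.2.1 < P ∧ v.2.2 < M + W) ∧
      w.1 < 5 ∧ w.2.1 < P ∧ w.2.2 < M + W := by
    intro v w h
    rcases rel_iff.mp h with ⟨i, r, h1, h2, rfl, rfl⟩ | ⟨i, r, h1, h2, rfl, rfl⟩ |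
      ⟨r, h2, rfl, rfl⟩ | ⟨i, r, h1, h2, rfl, rfl⟩ | ⟨i, r, h1, h2, rfl, rfl⟩ | ⟨i, h1, rfl, rfl⟩
    all_goals try have := hnd _ h1
    all_goals
      simp only [ep, ne_eq, Prod.mk.injEq]
      omega
  have hinj : ∀ t t' : Tr, t.1 < 5 → t.2.1 < P → t'.1 < 5 → t'.2.1 < P → t ≠ t' →
      cod P t ≠ cod P t' := fun t t' h1 h2 h3 h4 h5 h =>
    h5 (by rw [← dec_cod h1 h2, h, dec_cod h3 h4])
  let X : Tr → Tr → ℕ → ZMod 2 := fun v w => xs x (cod P v) (cod P w)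
  have odd : ∀ v w v' w', rel G W M nd v w = true → rel G W M nd v' w' = true → v ≠ v' → v ≠ w' →
      w ≠ v' → w ≠ w' → Yv (cod P v) (cod P w) (X v w) (cod P v') (cod P w') (X v' w') ≠ 0 →
      ∃ q ∈ Q, ∀ φ : Tr → ℕ, φ (dec P q.1) + φ (dec P q.2.1) + φ (dec P q.2.2.1) +
        φ (dec P q.2.2.2) = φ v + φ w + φ v' + φ w' := by
    intro v w v' w' h h' n1 n2 n3 n4 hY
    obtain ⟨a0, ⟨a1, a2, a3⟩, a4, a5, a6⟩ := hb v w h
    obtain ⟨b0, ⟨b1, b2, b3⟩, b4, b5, b6⟩ := hb v' w' h'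
    obtain ⟨q, q1, q2⟩ := odd_mem n (adj G W M P nd) (fun a b => Bool.or_comm _ _) x _ _ _ _
      (hn v a1 a2 a3) (hn w a4 a5 a6) (hn v' b1 b2 b3) (hn w' b4 b5 b6)
      (by simp [adj, dec_cod a1 a2, dec_cod a4 a5, h]) (by simp [adj, dec_cod b1 b2, dec_cod b4 b5, h'])
      (hinj _ _ a1 a2 a4 a5 a0) (hinj _ _ b1 b2 b4 b5 b0) (hinj _ _ a1 a2 b1 b2 n1)
      (hinj _ _ a1 a2 b4 b5 n2) (hinj _ _ a4 a5 b1 b2 n3) (hinj _ _ a4 a5 b4 b5 n4) hY
    refine ⟨q, q1, fun φ => ?_⟩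
    simpa only [dec_cod a1 a2, dec_cod a4 a5, dec_cod b1 b2, dec_cod b4 b5] using
      q2 (fun u => φ (dec P u))
  obtain ⟨ρ, hρ, hcl⟩ : ∃ r < M, ∀ q ∈ Q, (dec P q.1).2.2 ≠ r ∧ (dec P q.2.1).2.2 ≠ r ∧
      (dec P q.2.2.1).2.2 ≠ r ∧ (dec P q.2.2.2).2.2 ≠ r := by
    obtain ⟨r, r1, r2⟩ := exists_mem_notMem_of_card_lt_card (s := Q.biUnion fun q =>
      {(dec P q.1).2.2, (dec P q.2.1).2.2, (dec P q.2.2.1).2.2, (dec P q.2.2.2).2.2})
      (t := range M) (by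
        rw [card_range]
        refine lt_of_le_of_lt (card_biUnion_le_card_mul _ _ 4 fun q _ => card_le_four) (by omega))
    refine ⟨r, mem_range.mp r1, fun q hq => ?_⟩
    simp only [mem_biUnion, mem_insert, mem_singleton, not_exists, not_and, not_or] at r2
    have := r2 q hq
    exact ⟨Ne.symm this.1, Ne.symm this.2.1, Ne.symm this.2.2.1, Ne.symm this.2.2.2⟩
  let c : ℕ → ℕ := fun i => cod P (0, i, 0)
  let H : ℕ → ℕ → ZMod 2 := fun i => X (1, i, ρ) (0, i, 0) + X (1, i, ρ) (0, nx G i, 0)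
  have r1 : ∀ i ≤ 4 * G, rel G W M nd (1, i, ρ) (0, i, 0) = true := fun i hi => by
    simp [rel, hi, hρ]
  have r2 : ∀ i ≤ 4 * G, rel G W M nd (1, i, ρ) (0, nx G i, 0) = true := fun i hi => by
    simp [rel, hi, hρ]
  have clean : ∀ i ≤ 4 * G, ∀ v w, rel G W M nd v w = true → v ≠ (1, i, ρ) → w ≠ (0, i, 0) →
      w ≠ (0, nx G i, 0) → Yv (c i) (c (nx G i)) (H i) (cod P v) (cod P w) (X v w) = 0 := by
    intro i hi v w h n1 n2 n3
    have hv : v.1 ≠ 0 ∧ w.1 ≠ 1 := by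
      rcases rel_iff.mp h with ⟨i, r, h1, h2, rfl, rfl⟩ | ⟨i, r, h1, h2, rfl, rfl⟩ |
        ⟨r, h2, rfl, rfl⟩ | ⟨i, r, h1, h2, rfl, rfl⟩ | ⟨i, r, h1, h2, rfl, rfl⟩ |
        ⟨i, h1, rfl, rfl⟩ <;> simp
    have key : ∀ j, rel G W M nd (1, i, ρ) (0, j, 0) = true → w ≠ (0, j, 0) →
        Yv (cod P (1, i, ρ)) (c j) (X (1, i, ρ) (0, j, 0)) (cod P v) (cod P w) (X v w) = 0 := by
      intro j hj n
      by_contra hY
      obtain ⟨q, q1, q2⟩ := odd _ _ _ _ hj h n1.symm (fun e => hv.2 (by rw [← e]))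
        (fun e => hv.1 (by rw [← e])) n.symm hY
      have h1 := q2 (fun t => if t.2.2 = ρ then 1 else 0)
      obtain ⟨g1, g2, g3, g4⟩ := hcl q q1
      simp only [g1, g2, g3, g4, if_true, if_false] at h1
      omega
    rw [Yv_left (cod P (1, i, ρ)), key i (r1 i hi) n2, key _ (r2 i hi) n3, add_zero]
  let side : ℕ → ZMod 2 := fun v => ∑ i ∈ range (4 * G + 1), H i v
  have total : ∀ (S : Finset ℕ) (a b : ℕ) (X' : ℕ → ZMod 2), (∀ i ∈ S, i ≤ 4 * G) →
      (∀ i ≤ 4 * G, i ∉ S → Yv (c i) (c (nx G i)) (H i) a b X' = 0) →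
      ∑ i ∈ S, Yv (c i) (c (nx G i)) (H i) a b X' = side a + side b := by
    intro S a b X' h1 h2
    rw [sum_subset (s₂ := range (4 * G + 1)) (fun i hi => mem_range.mpr (by have := h1 i hi; omega))
      (fun i hi hi' => h2 i (by have := mem_range.mp hi; omega) hi')]
    have tel : ∀ φ : ℕ → ZMod 2, ∑ i ∈ range (4 * G + 1), φ (c (nx G i)) =
        ∑ i ∈ range (4 * G + 1), φ (c i) := by
      intro φ
      rw [sum_range_succ, sum_range_succ']
      congr 1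
      · refine sum_congr rfl fun i hi => ?_
        have : (i == 4 * G) = false := by simpa using (mem_range.mp hi).ne
        simp only [nx, this, cond_false]
      · simp [nx]
    simp only [Yv, sum_add_distrib, tel X', tel (fun u => ms u a), tel (fun u => ms u b), side]
    linear_combination (∑ i ∈ range (4 * G + 1), X' (c i) + ∑ i ∈ range (4 * G + 1), ms (c i) a +
      ∑ i ∈ range (4 * G + 1), ms (c i) b) * two0
  have link : ∀ j < 2 * G, side (cod P (2, j, 0)) = side (cod P (4, nd j, 0)) := by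
    intro j hj
    have := total ∅ _ _ (X (2, j, 0) (4, nd j, 0)) (by simp) (fun i hi _ =>
      clean i hi (2, j, 0) (4, nd j, 0) (by simp [rel, hj]) (by simp) (by simp) (by simp))
    rw [sum_empty] at this
    linear_combination -this - side (cod P (4, nd j, 0)) * two0
  refine ⟨fun z => decide (side (cod P (4, z, 0)) = 0), ?_⟩
  set Un := (range G).filter fun g => decide (side (cod P (4, nd (2 * g), 0)) = 0) =
    decide (side (cod P (4, nd (2 * g + 1), 0)) = 0) with hUn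
  let φ1 : Tr → ℕ := fun t => if t.1 = 3 ∧ t.2.1 / 2 % 2 = 0 then t.2.1 / 4 else 0
  let φ2 : Tr → ℕ := fun t => if t.1 = 3 ∧ t.2.1 / 2 % 2 = 0 then t.2.2 else 0
  let φ3 : Tr → ℕ := fun t => if t.1 = 3 ∧ t.2.1 / 2 % 2 = 1 then t.2.2 else 0
  let sm : (Tr → ℕ) → ℕ × ℕ × ℕ × ℕ → ℕ := fun φ q =>
    φ (dec P q.1) + φ (dec P q.2.1) + φ (dec P q.2.2.1) + φ (dec P q.2.2.2)
  have main : Un ×ˢ range W ×ˢ range W ⊆ Q.image fun q => (sm φ1 q, sm φ2 q, sm φ3 q) := by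
    rintro ⟨g, r, r'⟩ hg
    simp only [hUn, mem_product, mem_filter, mem_range] at hg
    obtain ⟨⟨g1, g2⟩, g3, g4⟩ := hg
    by_contra hno
    have nxe : ∀ i < 4 * G, nx G i = i + 1 := fun i hi => by
      have : (i == 4 * G) = false := by simpa using hi.ne
      simp only [nx, this, cond_false]
    have nxn : ∀ i j, 0 < j → i + 1 ≠ j → nx G i ≠ j := fun i j h1 h2 => by
      unfold nx
      cases i == 4 * G
      · exact h2
      · exact h1.ne
    let Z : ℕ → ℕ → ℕ → ZMod 2 := fun i r => X (3, i, r) (2, i / 2, 0) + X (3, i, r) (0, ep i, 0)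
    have q1 : ∀ i r, i < 4 * G → r < W → rel G W M nd (3, i, r) (2, i / 2, 0) = true :=
      fun i r h1 h2 => by simp [rel, h1, h2]
    have q2 : ∀ i r, i < 4 * G → r < W → rel G W M nd (3, i, r) (0, ep i, 0) = true :=
      fun i r h1 h2 => by simp [rel, h1, h2]
    have cl2 : ∀ i ≤ 4 * G, ∀ j r, j < 4 * G → r < W → ep j ≠ i → ep j ≠ nx G i →
        Yv (c i) (c (nx G i)) (H i) (cod P (2, j / 2, 0)) (c (ep j)) (Z j r) = 0 := by
      intro i hi j r h1 h2 h3 h4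
      rw [Yv_right (cod P (3, j, r)), clean i hi _ _ (q1 j r h1 h2) (by simp) (by simp) (by simp),
        clean i hi _ _ (q2 j r h1 h2) (by simp) (by simpa using h3) (by simpa using h4), add_zero]
    have cl3 : ∀ i ≤ 4 * G, ∀ j ≤ 4 * G, j ≠ i → j ≠ nx G i → nx G j ≠ i → nx G j ≠ nx G i →
        Yv (c i) (c (nx G i)) (H i) (c j) (c (nx G j)) (H j) = 0 := by
      intro i hi j hj h1 h2 h3 h4
      rw [Yv_right (cod P (1, j, ρ)), clean i hi _ _ (r1 j hj) (by simpa using h1)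
        (by simpa using h1) (by simpa using h2),
        clean i hi _ _ (r2 j hj) (by simpa using h1) (by simpa using h3) (by simpa using h4),
        add_zero]
    have cr : ∀ i i', (i = 4 * g ∨ i = 4 * g + 1) → (i' = 4 * g + 2 ∨ i' = 4 * g + 3) →
        Yv (cod P (2, i / 2, 0)) (c (ep i)) (Z i r) (cod P (2, i' / 2, 0)) (c (ep i')) (Z i' r') =
          0 := by
      intro i i' h1 h2
      have key : ∀ w w', rel G W M nd (3, i, r) w = true → rel G W M nd (3, i', r') w' = true →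
          w.1 ≠ 3 → w'.1 ≠ 3 → w ≠ w' → Yv (cod P (3, i, r)) (cod P w) (X (3, i, r) w)
            (cod P (3, i', r')) (cod P w') (X (3, i', r') w') = 0 := by
        intro w w' a1 a2 a3 a4 a5
        by_contra hY
        obtain ⟨q, b1, b2⟩ := odd _ _ _ _ a1 a2 (by simp; omega) (fun e => a4 (by rw [← e]))
          (fun e => a3 (by rw [e])) a5 hY
        refine hno (mem_image.mpr ⟨q, b1, ?_⟩)
        have e1 : i / 2 % 2 = 0 := by omega
        have e2 : i' / 2 % 2 = 1 := by omega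
        have e3 : i / 4 = g := by omega
        simp only [sm, b2]
        simp [φ1, φ2, φ3, a3, a4, e1, e2, e3]
      have a1 := q1 i r (by omega) g3
      have a2 := q2 i r (by omega) g3
      have a3 := q1 i' r' (by omega) g4
      have a4 := q2 i' r' (by omega) g4
      rw [Yv_left (cod P (3, i, r)), Yv_right (cod P (3, i', r')), Yv_right (cod P (3, i', r')),
        key _ _ a1 a3 (by simp) (by simp) (by simp; omega), key _ _ a1 a4 (by simp) (by simp) (by simp),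
        key _ _ a2 a3 (by simp) (by simp) (by simp),
        key _ _ a2 a4 (by simp) (by simp) (by simp [ep]; omega)]
      simp
    have p0 : ep (4 * g) = 4 * g := by unfold ep; omega
    have p1 : ep (4 * g + 1) = 4 * g + 2 := by unfold ep; omega
    have p2 : ep (4 * g + 2) = 4 * g + 1 := by unfold ep; omega
    have p3 : ep (4 * g + 3) = 4 * g + 3 := by unfold ep; omega
    have d0 : 4 * g / 2 = 2 * g := by omega
    have d1 : (4 * g + 1) / 2 = 2 * g := by omega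
    have d2 : (4 * g + 2) / 2 = 2 * g + 1 := by omega
    have d3 : (4 * g + 3) / 2 = 2 * g + 1 := by omega
    have n0 := nxe (4 * g) (by omega)
    have n1 := nxe (4 * g + 1) (by omega)
    have n2 := nxe (4 * g + 2) (by omega)
    have e1 := total {4 * g + 1, 4 * g + 2} _ _ (Z (4 * g + 1) r) (by simp; omega)
      (fun i hi h => cl2 i hi (4 * g + 1) r (by omega) g3 (by simp at h; omega)
        (by rw [p1]; exact (nxn _ _ (by omega) (by simp at h; omega)).symm))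
    have e2 := total {4 * g, 4 * g + 1} _ _ (Z (4 * g + 2) r') (by simp; omega)
      (fun i hi h => cl2 i hi (4 * g + 2) r' (by omega) g4 (by simp at h; omega)
        (by rw [p2]; exact (nxn _ _ (by omega) (by simp at h; omega)).symm))
    have e3 := total {4 * g, 4 * g + 1, 4 * g + 2} _ _ (H (4 * g + 1)) (by simp; omega)
      (fun i hi h => cl3 i hi (4 * g + 1) (by omega) (by simp at h; omega)
        (nxn _ _ (by omega) (by simp at h; omega)).symm (by simp at h; omega)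
        (by rw [n1]; exact (nxn _ _ (by omega) (by simp at h; omega)).symm))
    rw [sum_pair (by omega)] at e1 e2
    rw [sum_insert (by simp), sum_pair (by omega), ← add_assoc] at e3
    have f1 := cl2 (4 * g + 1) (by omega) (4 * g) r (by omega) g3 (by omega) (by omega)
    have f2 := cl2 (4 * g + 2) (by omega) (4 * g) r (by omega) g3 (by omega) (by omega)
    have f3 := cl2 (4 * g) (by omega) (4 * g + 3) r' (by omega) g4 (by omega) (by omega)
    have f4 := cl2 (4 * g + 1) (by omega) (4 * g + 3) r' (by omega) g4 (by omega) (by omega)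
    have f5 := cl3 (4 * g) (by omega) (4 * g + 2) (by omega) (by omega) (by omega) (by omega)
      (by omega)
    have k1 := cr (4 * g) (4 * g + 2) (by omega) (by omega)
    have k2 := cr (4 * g) (4 * g + 3) (by omega) (by omega)
    have k3 := cr (4 * g + 1) (4 * g + 2) (by omega) (by omega)
    have k4 := cr (4 * g + 1) (4 * g + 3) (by omega) (by omega)
    simp only [p0, p1, p2, p3, d0, d1, d2, d3, n0, n1, n2, add_assoc (4 * g), Nat.reduceAdd]
      at e1 e2 e3 f1 f2 f3 f4 f5 k1 k2 k3 k4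
    have hc : ∀ i j, i < P → j < P → i ≠ j → c i ≠ c j := fun i j h1 h2 h3 =>
      hinj _ _ (by simp) h1 (by simp) h2 (by simpa using h3)
    apply k33 (hc _ _ (by omega) (by omega) (by omega)) (hc _ _ (by omega) (by omega) (by omega))
      (hc _ _ (by omega) (by omega) (by omega)) _ _ _ _ _ _ _ side e1 e2 e3 f1 f2 f3 f4 f5 k1 k2 k3 k4
    rw [link _ (by omega), link _ (by omega)]
    revert g2
    generalize side _ = u
    generalize side _ = v
    revert u v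
    decide
  have h1 := (card_le_card main).trans (card_image_le.trans hQk)
  simp only [card_product, card_range] at h1
  by_contra h2
  have := Nat.mul_le_mul_right (W * W) (show U + 1 ≤ Un.card by omega)
  nlinarith

end Pool.Agent.Lib.MP_d8c195_lc
end
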