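import Pool.Agent.Lib.MP_d8c195_lc.Defs
import Pool.Agent.Lib.MP_d8c195_lc.Deg

-- part Pool.Agent.Lib.MP_d8c195_lc.Inter
section

/-! The algebraic crossing number of two independent curves through winding numbers. -/

set_option autoImplicit false

namespace Pool.Agent.Lib.MP_d8c195_lc

open Set Complex Topology

lemma ev_real {s : unitInterval} (h0 : 0 < s) (h1 : s < 1) {P : ℝ → Prop}
    (h : ∀ᶠ s' : unitInterval in 𝓝 s, P s') : ∃ δ > 0, ∀ x : ℝ, (s : ℝ) - δ < x → x < s + δ → P x := by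
  obtain ⟨δ, hδ, h⟩ := Metric.eventually_nhds_iff.mp h
  have h0' : (0 : ℝ) < s := h0
  have h1' : (s : ℝ) < 1 := h1
  refine ⟨min δ (min s (1 - s)), lt_min hδ (lt_min h0' (by linarith)), fun x hx1 hx2 => ?_⟩
  have a1 := min_le_left δ (min (s : ℝ) (1 - s))
  have a2 := (min_le_right δ (min (s : ℝ) (1 - s))).trans (min_le_left _ _)
  have a3 := (min_le_right δ (min (s : ℝ) (1 - s))).trans (min_le_right _ _)
  refine h (y := ⟨x, by linarith, by linarith⟩) ?_
  rw [Subtype.dist_eq, Real.dist_eq, abs_lt]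
  constructor <;> simp only <;> linarith

lemma sign_facts {x y : ℝ} (h : SignType.sign x = SignType.sign y) :
    (0 < y → 0 < x) ∧ (y < 0 → x < 0) ∧ (x = 0 → y = 0) :=
  ⟨fun hy => sign_eq_one_iff.mp (h.trans (sign_pos hy)),
    fun hy => sign_eq_neg_one_iff.mp (h.trans (sign_neg hy)),
    fun hx => sign_eq_zero_iff.mp (by rw [← h, hx, sign_zero])⟩

lemma local_deg {γ η : ℝ → ℂ} (hγ : Continuous γ) (hη : Continuous η) {s t : unitInterval}
    (hs0 : 0 < s) (hs1 : s < 1) (ht0 : 0 < t) (ht1 : t < 1)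
    (h : Cross (fun x => γ x) (fun x => η x) s t) :
    ∃ δ > 0, ∀ a b c d : ℝ, (s : ℝ) - δ < a → a < s → s < b → b < s + δ →
      (t : ℝ) - δ < c → c < t → t < d → d < t + δ →
      rd (fun p => η p.2 - γ p.1) a b c d = -(2 * Real.pi * I) ∧
      rd (fun p => γ p.2 - η p.1) c d a b = 2 * Real.pi * I := by
  obtain ⟨h, ⟨H, hH, hinj, H0, H1⟩, e1, e2⟩ := h
  obtain ⟨δ1, hδ1, e1⟩ := ev_real hs0 hs1 (P := fun x => (h (γ x)).im = 0 ∧
    SignType.sign (h (γ x)).re = SignType.sign (x - s)) e1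
  obtain ⟨δ2, hδ2, e2⟩ := ev_real ht0 ht1 (P := fun x => (h (η x)).re = 0 ∧
    SignType.sign (h (η x)).im = SignType.sign (x - t)) e2
  refine ⟨min δ1 δ2, lt_min hδ1 hδ2, fun a b c d a1 a2 b1 b2 c1 c2 d1 d2 => ?_⟩
  have m1 := min_le_left δ1 δ2
  have m2 := min_le_right δ1 δ2
  have hab : a ≤ b := by linarith
  have hcd : c ≤ d := by linarith
  have f1 := fun x (hx : x ∈ Icc a b) => e1 x (by linarith [hx.1]) (by linarith [hx.2])
  have f2 := fun x (hx : x ∈ Icc c d) => e2 x (by linarith [hx.1]) (by linarith [hx.2])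
  have hne : ∀ x ∈ Icc a b, ∀ y ∈ Icc c d, (x = a ∨ x = b ∨ y = c ∨ y = d) → η y ≠ γ x := by
    intro x hx y hy hb heq
    have g1 := f1 x hx
    have g2 := f2 y hy
    rw [heq] at g2
    have g3 := (sign_facts g1.2).2.2 g2.1
    have g4 := (sign_facts g2.2).2.2 g1.1
    rcases hb with hb | hb | hb | hb <;> linarith
  have key : rd (fun p => η p.2 - γ p.1) a b c d = -(2 * Real.pi * I) := by
    have h1 := rd_homotopy (F := fun q => H (q.1, η q.2.2) - H (q.1, γ q.2.1)) (by fun_prop) hab hcd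
      (fun u x hx y hy hb h0 => hne x hx y hy hb (hinj u (sub_eq_zero.mp h0)))
    simp only [H0, H1] at h1
    rw [h1]
    have ha := left_mem_Icc.mpr hab
    have hb := right_mem_Icc.mpr hab
    have hc := left_mem_Icc.mpr hcd
    have hd := right_mem_Icc.mpr hcd
    apply rd_model (by fun_prop) hab hcd
    · intro x hx
      rw [sub_im, (f1 x hx).1, sub_zero]
      exact (sign_facts (f2 c hc).2).2.1 (by linarith)
    · intro x hx
      rw [sub_im, (f1 x hx).1, sub_zero]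
      exact (sign_facts (f2 d hd).2).1 (by linarith)
    · intro y hy
      rw [sub_re, (f2 y hy).1]
      linarith [(sign_facts (f1 b hb).2).1 (by linarith)]
    · intro y hy
      rw [sub_re, (f2 y hy).1]
      linarith [(sign_facts (f1 a ha).2).2.1 (by linarith)]
  refine ⟨key, ?_⟩
  have := rd_swap (F := fun p => η p.2 - γ p.1) (by fun_prop) hab hcd
    (fun x hx y hy hb => sub_ne_zero.mpr (hne x hx y hy hb))
  simp only [neg_sub] at this
  rw [this, key, neg_neg]

theorem inter_eq {γ η : ℝ → ℂ} (hγ : Continuous γ) (hη : Continuous η)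
    (hfin : (Meet (fun x => γ x) (fun x => η x)).Finite)
    (hpr : ∀ p ∈ Meet (fun x => γ x) (fun x => η x),
      Cross (fun x => γ x) (fun x => η x) p.1 p.2 ∨ Cross (fun x => η x) (fun x => γ x) p.2 p.1)
    (h1 : ∀ s ∈ Icc (0 : ℝ) 1, γ s ≠ η 0 ∧ γ s ≠ η 1)
    (h2 : ∀ t ∈ Icc (0 : ℝ) 1, η t ≠ γ 0 ∧ η t ≠ γ 1) :
    -(2 * Real.pi * I) * (inter (fun x => γ x) (fun x => η x) : ℂ) =
      dlog (fun s => γ s - η 0) 0 1 + dlog (fun t => η t - γ 1) 0 1 -
        dlog (fun s => γ s - η 1) 0 1 - dlog (fun t => η t - γ 0) 0 1 := by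
  classical
  set C : unitInterval × unitInterval → Prop :=
    fun p => Cross (fun x => γ x) (fun x => η x) p.1 p.2 with hC
  set j : unitInterval × unitInterval → ℝ × ℝ := fun p => (p.1, p.2) with hj
  have hjinj : Function.Injective j := fun p q h =>
    Prod.ext (Subtype.ext (congrArg Prod.fst h)) (Subtype.ext (congrArg Prod.snd h))
  have hpi : (2 * Real.pi * I : ℂ) ≠ 0 := two_pi_I_ne_zero
  have hdisj : ∀ p ∈ Meet (fun x => γ x) (fun x => η x), C p →
      ¬ Cross (fun x => η x) (fun x => γ x) p.2 p.1 := by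
    intro p hp g1 g2
    obtain ⟨δ1, hδ1, e1⟩ := local_deg hγ hη hp.1 hp.2.1 hp.2.2.1 hp.2.2.2.1 g1
    obtain ⟨δ2, hδ2, e2⟩ := local_deg hη hγ hp.2.2.1 hp.2.2.2.1 hp.1 hp.2.1 g2
    have m1 := min_le_left δ1 δ2
    have m2 := min_le_right δ1 δ2
    have m0 := lt_min hδ1 hδ2
    have f1 := (e1 (p.1 - min δ1 δ2 / 2) (p.1 + min δ1 δ2 / 2) (p.2 - min δ1 δ2 / 2)
      (p.2 + min δ1 δ2 / 2) (by linarith) (by linarith) (by linarith) (by linarith) (by linarith)
      (by linarith) (by linarith) (by linarith)).1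
    have f2 := (e2 (p.2 - min δ1 δ2 / 2) (p.2 + min δ1 δ2 / 2) (p.1 - min δ1 δ2 / 2)
      (p.1 + min δ1 δ2 / 2) (by linarith) (by linarith) (by linarith) (by linarith) (by linarith)
      (by linarith) (by linarith) (by linarith)).2
    exact hpi (by linear_combination (f1 - f2) / 2)
  have main := rd_eq_sum (F := fun p => η p.2 - γ p.1) (by fun_prop) (hfin.toFinset.image j)
    (fun q => if ∃ p, j p = q ∧ C p then -(2 * Real.pi * I) else 2 * Real.pi * I)
    (fun q hq => by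
      obtain ⟨p, hp, rfl⟩ := Finset.mem_image.mp hq
      rw [Finite.mem_toFinset] at hp
      exact ⟨⟨hp.1, hp.2.1⟩, hp.2.2.1, hp.2.2.2.1⟩)
    (fun s hs t ht h0 => by
      have e : η t = γ s := sub_eq_zero.mp h0
      refine Finset.mem_image.mpr ⟨(⟨s, hs⟩, ⟨t, ht⟩), hfin.mem_toFinset.mpr ⟨?_, ?_, ?_, ?_, e.symm⟩,
        rfl⟩
      · exact (lt_of_le_of_ne hs.1 (fun h => (h2 t ht).1 (by rw [e, h])) : (0 : ℝ) < s)
      · exact (lt_of_le_of_ne hs.2 (fun h => (h2 t ht).2 (by rw [e, h])) : s < 1)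
      · exact (lt_of_le_of_ne ht.1 (fun h => (h1 s hs).1 (by rw [← e, h])) : (0 : ℝ) < t)
      · exact (lt_of_le_of_ne ht.2 (fun h => (h1 s hs).2 (by rw [← e, h])) : t < 1))
    (fun q hq => by
      obtain ⟨p, hp, rfl⟩ := Finset.mem_image.mp hq
      rw [Finite.mem_toFinset] at hp
      by_cases hc : C p
      · obtain ⟨δ, hδ, e⟩ := local_deg hγ hη hp.1 hp.2.1 hp.2.2.1 hp.2.2.2.1 hc
        refine ⟨δ, hδ, fun a b c d a1 a2 a3 a4 a5 a6 a7 a8 => ?_⟩
        rw [if_pos ⟨p, rfl, hc⟩]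
        exact (e a b c d a1 a2 a3 a4 a5 a6 a7 a8).1
      · obtain ⟨δ, hδ, e⟩ := local_deg hη hγ hp.2.2.1 hp.2.2.2.1 hp.1 hp.2.1
          ((hpr p hp).resolve_left hc)
        refine ⟨δ, hδ, fun a b c d a1 a2 a3 a4 a5 a6 a7 a8 => ?_⟩
        rw [if_neg (fun ⟨p', e1, e2⟩ => hc (hjinj e1 ▸ e2))]
        exact (e c d a b a5 a6 a7 a8 a1 a2 a3 a4).2)
  rw [Finset.sum_image (fun a _ b _ h => hjinj h)] at main
  have e1 : ∀ p, (∃ p', j p' = j p ∧ C p') ↔ C p :=
    fun p => ⟨fun ⟨p', e1, e2⟩ => hjinj e1 ▸ e2, fun h => ⟨p, rfl, h⟩⟩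
  simp only [e1] at main
  rw [Finset.sum_ite, Finset.sum_const, Finset.sum_const, nsmul_eq_mul, nsmul_eq_mul] at main
  have c1 : {p ∈ Meet (fun x => γ x) (fun x => η x) | C p}.ncard =
      (hfin.toFinset.filter C).card := by
    rw [← ncard_coe_finset]
    congr 1
    ext p
    simp
  have c2 : {p ∈ Meet (fun x => γ x) (fun x => η x) |
      Cross (fun x => η x) (fun x => γ x) p.2 p.1}.ncard =
      (hfin.toFinset.filter (fun p => ¬ C p)).card := by
    rw [← ncard_coe_finset]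
    congr 1
    ext p
    simp only [mem_ofPred_eq, Finset.coe_filter, Finite.mem_toFinset]
    exact and_congr_right fun hp => ⟨fun h h' => hdisj p hp h' h, fun h => (hpr p hp).resolve_left h⟩
  unfold inter
  rw [c1, c2]
  unfold rd at main
  have n1 := dlog_neg (g := fun s => γ s - η 0) (by fun_prop) zero_le_one
    (fun s hs => sub_ne_zero.mpr (h1 s hs).1)
  have n2 := dlog_neg (g := fun s => γ s - η 1) (by fun_prop) zero_le_one
    (fun s hs => sub_ne_zero.mpr (h1 s hs).2)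
  simp only [neg_sub] at n1 n2
  simp only [n1, n2] at main
  push_cast
  linear_combination -main

end Pool.Agent.Lib.MP_d8c195_lc
end

-- part Pool.Agent.Lib.MP_d8c195_lc.Alg
section

/-! The algebraic form of the independent algebraic crossing number. -/

set_option autoImplicit false

namespace Pool.Agent.Lib.MP_d8c195_lc

open Finset

/-- The van Kampen cocycle given by a tournament `m` and finger moves `x`. -/
def Yf (m : ℕ → ℕ → ℤ) (x : ℕ → ℕ → ℕ → ℤ) (a b c d : ℕ) : ℤ :=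
  x a b c - x a b d + x c d b - x c d a + m b c - m a c - m b d + m a d

/-- The standard order. -/
def m0 (u v : ℕ) : ℤ := if u < v then 1 else 0

/-- Pairs of independent edges. -/
def Q4 (n : ℕ) (A : ℕ → ℕ → Bool) : Finset (ℕ × ℕ × ℕ × ℕ) :=
  (range n ×ˢ range n ×ˢ range n ×ˢ range n).filter fun q =>
    q.1 < q.2.1 ∧ q.2.2.1 < q.2.2.2 ∧ q.1 < q.2.2.1 ∧ q.2.1 ≠ q.2.2.1 ∧ q.2.1 ≠ q.2.2.2 ∧
      A q.1 q.2.1 = true ∧ A q.2.2.1 q.2.2.2 = true

/-- The cost of a cocycle. -/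
def acost (n : ℕ) (A : ℕ → ℕ → Bool) (m : ℕ → ℕ → ℤ) (x : ℕ → ℕ → ℕ → ℤ) : ℕ :=
  ∑ q ∈ Q4 n A, (Yf m x q.1 q.2.1 q.2.2.1 q.2.2.2).natAbs

lemma mem_Q4 {n : ℕ} {A : ℕ → ℕ → Bool} {a b c d : ℕ} : (a, b, c, d) ∈ Q4 n A ↔
    b < n ∧ d < n ∧ a < b ∧ c < d ∧ a < c ∧ b ≠ c ∧ b ≠ d ∧ A a b = true ∧ A c d = true := by
  simp only [Q4, mem_filter, mem_product, mem_range]
  constructor
  · rintro ⟨⟨_, _, _, _⟩, h⟩
    exact ⟨by assumption, by assumption, h⟩
  · rintro ⟨h1, h2, h⟩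
    exact ⟨⟨by omega, h1, by omega, h2⟩, h⟩

lemma m0_tour (u v : ℕ) (h : u ≠ v) : m0 u v + m0 v u = 1 := by
  unfold m0
  split_ifs <;> omega

lemma change_tour (n : ℕ) (A : ℕ → ℕ → Bool) (m : ℕ → ℕ → ℤ)
    (hm : ∀ u v, u ≠ v → m u v + m v u = 1) (x : ℕ → ℕ → ℕ → ℤ) :
    ∃ x', acost n A m0 x' = acost n A m x := by
  let r : ℕ → ℕ → ℤ := fun u v => if u < v then m u v - m0 u v else 0
  have hr : ∀ u v, u ≠ v → r u v - r v u = m u v - m0 u v := by
    intro u v h
    have h1 := hm u v h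
    have h2 := m0_tour u v h
    simp only [r]
    split_ifs <;> omega
  refine ⟨fun a b v => x a b v + r b v - r a v, sum_congr rfl fun ⟨a, b, c, d⟩ hq => ?_⟩
  rw [mem_Q4] at hq
  have h1 := hr b c (by omega)
  have h2 := hr a c (by omega)
  have h3 := hr b d (by omega)
  have h4 := hr a d (by omega)
  congr 1
  simp only [Yf]
  linarith

variable {n : ℕ} {G : SimpleGraph (Fin n)}

lemma iacr_eq (D : Drawing G) (A : ℕ → ℕ → Bool) (hA : ∀ i j : Fin n, G.Adj i j ↔ A i j = true)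
    (m : ℕ → ℕ → ℤ) (x : ℕ → ℕ → ℕ → ℤ)
    (h : ∀ e f : Edge G, Indep e f →
      inter (D.arc e) (D.arc f) = Yf m x e.1.1 e.1.2 f.1.1 f.1.2) :
    D.iacr = acost n A m x := by
  classical
  unfold Drawing.iacr acost
  refine sum_bij (fun p _ => ((p.1.1.1 : ℕ), (p.1.1.2 : ℕ), (p.2.1.1 : ℕ), (p.2.1.2 : ℕ)))
    ?_ ?_ ?_ ?_
  · rintro ⟨e, f⟩ hp
    obtain ⟨⟨-, -, h3, h4⟩, h5⟩ := (mem_filter.mp hp).2
    exact mem_Q4.mpr ⟨e.1.2.2, f.1.2.2, e.2.1, f.2.1, h5, fun h => h3 (Fin.ext h),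
      fun h => h4 (Fin.ext h), (hA _ _).mp e.2.2, (hA _ _).mp f.2.2⟩
  · rintro ⟨e, f⟩ - ⟨e', f'⟩ - hp
    simp only [Prod.mk.injEq] at hp
    exact Prod.ext (Subtype.ext (Prod.ext (Fin.ext hp.1) (Fin.ext hp.2.1)))
      (Subtype.ext (Prod.ext (Fin.ext hp.2.2.1) (Fin.ext hp.2.2.2)))
  · rintro ⟨a, b, c, d⟩ hq
    obtain ⟨h1, h2, h3, h4, h5, h6, h7, h8, h9⟩ := mem_Q4.mp hq
    refine ⟨(⟨(⟨a, by omega⟩, ⟨b, h1⟩), h3, (hA _ _).mpr h8⟩,
      ⟨(⟨c, by omega⟩, ⟨d, h2⟩), h4, (hA _ _).mpr h9⟩), mem_filter.mpr ⟨mem_univ _, ?_, h5⟩, rfl⟩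
    simp only [Indep, ne_eq, Fin.mk.injEq]
    omega
  · rintro ⟨e, f⟩ hp
    rw [h e f (mem_filter.mp hp).2.1]

lemma Drawing.ne_pos (D : Drawing G) (e : Edge G) (v : Fin n) (h1 : v ≠ e.1.1) (h2 : v ≠ e.1.2)
    (s : ℝ) (hs : s ∈ Set.Icc (0 : ℝ) 1) : (D.arc e).extend s ≠ D.pos v := by
  rcases eq_or_lt_of_le hs.1 with h | h
  · rw [← h, Path.extend_zero]
    exact fun h => h1 (D.pos_inj h).symm
  rcases eq_or_lt_of_le hs.2 with h' | h'
  · rw [h', Path.extend_one]
    exact fun h => h2 (D.pos_inj h).symm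
  rw [Path.extend_apply _ hs]
  exact D.avoid e _ v h h'

open Complex in
lemma inter_formula (D : Drawing G) (l : Fin n → Fin n → ℂ) (x : ℕ → ℕ → ℕ → ℤ)
    (hl : ∀ u v : Fin n, u < v → l v u = l u v + Real.pi * I)
    (hx : ∀ (e : Edge G) (v : Fin n), v ≠ e.1.1 → v ≠ e.1.2 →
      dlog (fun s => (D.arc e).extend s - D.pos v) 0 1 =
        l e.1.2 v - l e.1.1 v - 2 * Real.pi * I * x e.1.1 e.1.2 v)
    (e f : Edge G) (h : Indep e f) :
    inter (D.arc e) (D.arc f) = Yf m0 x e.1.1 e.1.2 f.1.1 f.1.2 := by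
  have hne : e ≠ f := fun h' => h.1 (by rw [h'])
  have e1 : ∀ g : Edge G, ⇑(D.arc g) = fun s : unitInterval => (D.arc g).extend s :=
    fun g => funext fun s => ((D.arc g).extend_extends' s).symm
  have h1 := inter_eq (D.arc e).continuous_extend (D.arc f).continuous_extend
    (by rw [← e1, ← e1]; exact D.finite e f hne) (by rw [← e1, ← e1]; exact D.proper e f hne)
    (fun s hs => by
      rw [Path.extend_zero, Path.extend_one]
      exact ⟨D.ne_pos e _ h.1.symm h.2.2.1.symm s hs, D.ne_pos e _ h.2.1.symm h.2.2.2.symm s hs⟩)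
    (fun s hs => by
      rw [Path.extend_zero, Path.extend_one]
      exact ⟨D.ne_pos f _ h.1 h.2.1 s hs, D.ne_pos f _ h.2.2.1 h.2.2.2 s hs⟩)
  rw [← e1, ← e1] at h1
  simp only [Path.extend_zero, Path.extend_one] at h1
  rw [hx e _ h.1.symm h.2.2.1.symm, hx e _ h.2.1.symm h.2.2.2.symm, hx f _ h.1 h.2.1,
    hx f _ h.2.2.1 h.2.2.2] at h1
  have hl' : ∀ u v : Fin n, u ≠ v → l u v - l v u = Real.pi * I * (1 - 2 * (m0 u v : ℤ)) := by
    intro u v huv
    unfold m0
    rcases lt_or_gt_of_ne huv with h | h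
    · rw [if_pos (show (u : ℕ) < v from h), hl u v h]; push_cast; ring
    · rw [if_neg (show ¬ (u : ℕ) < v from not_lt.mpr h.le), hl v u h]; push_cast; ring
  have g1 := hl' _ _ h.1
  have g2 := hl' _ _ h.2.1
  have g3 := hl' _ _ h.2.2.1
  have g4 := hl' _ _ h.2.2.2
  have hpi : (2 * Real.pi * I : ℂ) ≠ 0 := two_pi_I_ne_zero
  have : (inter (D.arc e) (D.arc f) : ℂ) = (Yf m0 x e.1.1 e.1.2 f.1.1 f.1.2 : ℤ) := by
    apply mul_left_cancel₀ hpi
    unfold Yf
    push_cast
    linear_combination -h1 + g1 - g2 - g3 + g4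
  exact_mod_cast this

open Complex in
/-- Every drawing gives a cocycle of the same cost. -/
theorem exists_cocycle (D : Drawing G) (A : ℕ → ℕ → Bool)
    (hA : ∀ i j : Fin n, G.Adj i j ↔ A i j = true) : ∃ x, D.iacr = acost n A m0 x := by
  let l : Fin n → Fin n → ℂ := fun u v =>
    if u < v then log (D.pos u - D.pos v) else log (D.pos v - D.pos u) + Real.pi * I
  have hl : ∀ u v, u ≠ v → exp (l u v) = D.pos u - D.pos v := by
    intro u v huv
    have h0 : D.pos u - D.pos v ≠ 0 := sub_ne_zero.mpr (D.pos_inj.ne huv)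
    have h1 : D.pos v - D.pos u ≠ 0 := sub_ne_zero.mpr (D.pos_inj.ne huv.symm)
    simp only [l]
    split_ifs
    · exact exp_log h0
    · rw [exp_add, exp_log h1, exp_pi_mul_I]; ring
  have key : ∀ a b w : ℕ, ∃ z : ℤ, ∀ (e : Edge G) (v : Fin n), (e.1.1 : ℕ) = a → (e.1.2 : ℕ) = b →
      (v : ℕ) = w → v ≠ e.1.1 → v ≠ e.1.2 → dlog (fun s => (D.arc e).extend s - D.pos v) 0 1 =
        l e.1.2 v - l e.1.1 v - 2 * Real.pi * I * z := by
    intro a b w
    by_cases h : ∃ (e : Edge G) (v : Fin n), (e.1.1 : ℕ) = a ∧ (e.1.2 : ℕ) = b ∧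
      (v : ℕ) = w ∧ v ≠ e.1.1 ∧ v ≠ e.1.2
    · obtain ⟨e, v, rfl, rfl, rfl, h1, h2⟩ := h
      have h3 := exp_dlog (g := fun s => (D.arc e).extend s - D.pos v) (by fun_prop) zero_le_one
        (fun s hs => sub_ne_zero.mpr (D.ne_pos e v h1 h2 s hs))
      simp only [Path.extend_zero, Path.extend_one] at h3
      rw [← hl _ _ h1.symm, ← hl _ _ h2.symm, ← exp_add, exp_eq_exp_iff_exists_int] at h3
      obtain ⟨z, hz⟩ := h3
      refine ⟨-z, fun e' v' g1 g2 g3 _ _ => ?_⟩
      obtain rfl : e' = e := Subtype.ext (Prod.ext (Fin.ext g1) (Fin.ext g2))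
      obtain rfl : v' = v := Fin.ext g3
      push_cast
      linear_combination hz
    · exact ⟨0, fun e v g1 g2 g3 g4 g5 => absurd ⟨e, v, g1, g2, g3, g4, g5⟩ h⟩
  choose x hx using key
  refine ⟨x, iacr_eq D A hA m0 x (inter_formula D l x (fun u v huv => ?_)
    (fun e v h1 h2 => hx _ _ _ e v rfl rfl rfl h1 h2))⟩
  simp only [l]
  rw [if_pos huv, if_neg (not_lt.mpr huv.le)]

end Pool.Agent.Lib.MP_d8c195_lc
end

-- part Pool.Agent.Lib.MP_d8c195_lc.Poly
section

/-! Polygonal curves in general position. -/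

set_option autoImplicit false

namespace Pool.Agent.Lib.MP_d8c195_lc

open Set Complex Topology

/-- The determinant of two plane vectors. -/
def det2 (u v : ℂ) : ℝ := u.re * v.im - u.im * v.re

lemma quad_finite (A B C : ℝ) (h : A ≠ 0) : {t : ℝ | A * t ^ 2 + B * t + C = 0}.Finite := by
  have h1 : (Polynomial.C A * Polynomial.X ^ 2 + Polynomial.C B * Polynomial.X + Polynomial.C C :
      Polynomial ℝ) ≠ 0 := by
    intro h0
    have := congrArg (fun p => Polynomial.coeff p 2) h0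
    simp at this
    exact h this
  refine (Polynomial.finite_setOfPred_isRoot h1).subset fun t ht => ?_
  simpa using ht

lemma exists_gp {ι : Type} (s : Finset ι) (U : ι → Set ℂ) (hU : ∀ i, IsOpen (U i) ∧ (U i).Nonempty) :
    ∃ q : ι → ℂ, (∀ i ∈ s, q i ∈ U i) ∧ (∀ i ∈ s, ∀ j ∈ s, i ≠ j → q i ≠ q j) ∧
      ∀ i ∈ s, ∀ j ∈ s, ∀ k ∈ s, i ≠ j → i ≠ k → j ≠ k → det2 (q j - q i) (q k - q i) ≠ 0 := by
  choose b hb using fun i => (hU i).2
  obtain ⟨κ, hκ⟩ := countable_iff_exists_injOn.mp s.finite_toSet.countable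
  let q : ℝ → ι → ℂ := fun t i => b i + t * ((κ i : ℝ) + ((κ i : ℝ) ^ 2 : ℝ) * I)
  have h1 : ∀ᶠ t in 𝓝 (0 : ℝ), ∀ i ∈ s, q t i ∈ U i := by
    rw [Filter.eventually_all_finset]
    intro i _
    have : Continuous fun t => q t i := by simp only [q]; fun_prop
    exact this.continuousAt.eventually_mem ((hU i).1.mem_nhds (by simpa [q] using hb i))
  have hκ' : ∀ i ∈ s, ∀ j ∈ s, i ≠ j → (κ i : ℝ) - κ j ≠ 0 := fun i hi j hj hij h =>
    hij (hκ hi hj (by exact_mod_cast sub_eq_zero.mp h))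
  have h2 : (⋃ i ∈ s, ⋃ j ∈ s, {t | i ≠ j ∧ q t i = q t j}).Finite := by
    refine s.finite_toSet.biUnion fun i hi => s.finite_toSet.biUnion fun j hj => ?_
    by_cases hij : i = j
    · simp [hij]
    refine (quad_finite _ ((b i).re - (b j).re) 0 (hκ' i hi j hj hij)).subset fun t ht => ?_
    have := congrArg re ht.2
    simp only [q, add_re, mul_re, ofReal_re, ofReal_im, I_re, I_im, add_im, mul_im] at this
    simp only [mem_ofPred_eq]
    linear_combination t * this
  have h3 : (⋃ i ∈ s, ⋃ j ∈ s, ⋃ k ∈ s, {t | i ≠ j ∧ i ≠ k ∧ j ≠ k ∧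
      det2 (q t j - q t i) (q t k - q t i) = 0}).Finite := by
    refine s.finite_toSet.biUnion fun i hi => s.finite_toSet.biUnion fun j hj =>
      s.finite_toSet.biUnion fun k hk => ?_
    by_cases hij : i ≠ j ∧ i ≠ k ∧ j ≠ k
    swap
    · refine finite_empty.subset fun t ht => hij ⟨ht.1, ht.2.1, ht.2.2.1⟩
    refine (quad_finite _ (((b j).re - (b i).re) * ((κ k : ℝ) ^ 2 - (κ i : ℝ) ^ 2) +
        ((κ j : ℝ) - κ i) * ((b k).im - (b i).im) - ((b j).im - (b i).im) * ((κ k : ℝ) - κ i) -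
        ((κ j : ℝ) ^ 2 - (κ i : ℝ) ^ 2) * ((b k).re - (b i).re)) (det2 (b j - b i) (b k - b i))
      (mul_ne_zero (mul_ne_zero (hκ' j hj i hi hij.1.symm) (hκ' k hk i hi hij.2.1.symm))
        (hκ' k hk j hj hij.2.2.symm))).subset fun t ht => ?_
    have := ht.2.2.2
    simp only [q, det2, add_re, mul_re, ofReal_re, ofReal_im, I_re, I_im, add_im, mul_im, sub_re,
      sub_im, mem_ofPred_eq] at this ⊢
    linear_combination this
  obtain ⟨t, ht1, ht2⟩ := (infinite_of_mem_nhds (0 : ℝ) h1).exists_notMem_finite (h2.union h3)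
  simp only [mem_union, mem_iUnion, mem_ofPred_eq, not_or, not_exists, not_and] at ht2
  exact ⟨q t, ht1, ht2.1, ht2.2⟩

/-- The polygonal curve through `P 0, …, P K`, on the parameter interval `[0, K]`. -/
noncomputable def poly (P : ℕ → ℂ) (K : ℕ) (τ : ℝ) : ℂ :=
  P 0 + ∑ k ∈ Finset.range K, ((max 0 (min (τ - k) 1) : ℝ) : ℂ) * (P (k + 1) - P k)

lemma poly_cont (P : ℕ → ℂ) (K : ℕ) : Continuous (poly P K) := by
  unfold poly
  fun_prop

lemma poly_eq (P : ℕ → ℂ) {K k : ℕ} (hk : k < K) {τ : ℝ} (h1 : (k : ℝ) ≤ τ) (h2 : τ ≤ k + 1) :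
    poly P K τ = P k + ((τ - k : ℝ) : ℂ) * (P (k + 1) - P k) := by
  unfold poly
  have : ∀ j ∈ Finset.range K, ((max 0 (min (τ - j) 1) : ℝ) : ℂ) * (P (j + 1) - P j) =
      (if j < k then P (j + 1) - P j else 0) +
        if j = k then ((τ - k : ℝ) : ℂ) * (P (k + 1) - P k) else 0 := by
    intro j _
    rcases lt_trichotomy j k with h | h | h
    · have : (j : ℝ) + 1 ≤ k := by exact_mod_cast h
      rw [if_pos h, if_neg h.ne, min_eq_right (by linarith), max_eq_right zero_le_one]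
      simp
    · subst h
      rw [if_neg (lt_irrefl _), if_pos rfl, min_eq_left (by linarith), max_eq_right (by linarith),
        zero_add]
    · have : (k : ℝ) + 1 ≤ j := by exact_mod_cast h
      rw [if_neg h.not_gt, if_neg h.ne', max_eq_left (min_le_of_left_le (by linarith))]
      simp
  rw [Finset.sum_congr rfl this, Finset.sum_add_distrib, Finset.sum_ite_eq', if_pos
    (Finset.mem_range.mpr hk), ← Finset.sum_filter,
    show (Finset.range K).filter (· < k) = Finset.range k by ext j; simp; omega,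
    Finset.sum_range_sub]
  ring

lemma locate {K : ℕ} (hK : 0 < K) {τ : ℝ} (h0 : 0 ≤ τ) (h1 : τ ≤ K) :
    ∃ k < K, (k : ℝ) ≤ τ ∧ τ ≤ k + 1 ∧ (τ < K → τ < k + 1) := by
  rcases eq_or_lt_of_le h1 with h | h
  · obtain ⟨k, rfl⟩ := Nat.exists_eq_succ_of_ne_zero hK.ne'
    push_cast at h
    exact ⟨k, by omega, by linarith, by linarith, fun h' => by push_cast at h'; linarith⟩
  · exact ⟨⌊τ⌋₊, (Nat.floor_lt h0).mpr h, Nat.floor_le h0, (Nat.lt_floor_add_one τ).le,
      fun _ => Nat.lt_floor_add_one τ⟩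

lemma poly_nat (P : ℕ → ℂ) {K k : ℕ} (hK : 0 < K) (hk : k ≤ K) : poly P K k = P k := by
  rcases eq_or_lt_of_le hk with h | h
  · obtain ⟨j, rfl⟩ := Nat.exists_eq_succ_of_ne_zero hK.ne'
    rw [h, poly_eq P (k := j) (by omega) (by push_cast; linarith) (by push_cast; linarith)]
    simp
  · rw [poly_eq P h le_rfl (by linarith)]
    simp

lemma cross_of_lin {γ η : unitInterval → ℂ} {s t : unitInterval} (X u v : ℂ) (α β : ℝ)
    (hα : 0 < α) (hβ : 0 < β) (hd : 0 < det2 u v)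
    (hγ : ∀ᶠ s' in 𝓝 s, γ s' = X + ((α * ((s' : ℝ) - s) : ℝ) : ℂ) * u)
    (hη : ∀ᶠ t' in 𝓝 t, η t' = X + ((β * ((t' : ℝ) - t) : ℝ) : ℂ) * v) : Cross γ η s t := by
  have hu : u ≠ 0 := by
    rintro rfl
    simp [det2] at hd
  set w := v / u with hw
  have hv : v = u * w := by rw [hw]; field_simp
  have hwi : 0 < w.im := by
    rw [hv] at hd
    simp only [det2, mul_re, mul_im] at hd
    by_contra h
    nlinarith [sq_nonneg u.re, sq_nonneg u.im]
  clear_value w
  let ζ : ℝ × ℂ → ℂ := fun p => (p.2 - p.1 * X) * exp (-(p.1 * log u))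
  let H : ℝ × ℂ → ℂ := fun p =>
    (((ζ p).re - (ζ p).im * Real.exp (-(p.1 * Real.log w.im)) * (p.1 * w.re) : ℝ) : ℂ) +
      (((ζ p).im * Real.exp (-(p.1 * Real.log w.im)) : ℝ) : ℂ) * I
  have hH : Continuous H := by simp only [H, ζ]; fun_prop
  have hre : ∀ p, (H p).re =
      (ζ p).re - (ζ p).im * Real.exp (-(p.1 * Real.log w.im)) * (p.1 * w.re) := by
    intro p; simp only [H, add_re, mul_re, ofReal_re, ofReal_im, I_re, I_im]; ring
  have him : ∀ p, (H p).im = (ζ p).im * Real.exp (-(p.1 * Real.log w.im)) := by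
    intro p; simp only [H, add_im, mul_im, ofReal_re, ofReal_im, I_re, I_im]; ring
  have hinj : ∀ τ, Function.Injective fun z => H (τ, z) := by
    intro τ z z' h
    have h1 := congrArg re h
    have h2 := congrArg im h
    simp only [hre, him] at h1 h2
    have h3 := mul_right_cancel₀ (Real.exp_ne_zero _) h2
    have h4 : ζ (τ, z) = ζ (τ, z') := Complex.ext (by rw [h3] at h1; linarith) h3
    simpa [ζ, exp_ne_zero] using h4
  have z1 : ∀ y, ζ (1, X + u * y) = y := by
    intro y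
    simp only [ζ, ofReal_one, one_mul, add_sub_cancel_left, exp_neg, exp_log hu]
    field_simp
  have e1 : Real.exp (-(1 * Real.log w.im)) = w.im⁻¹ := by
    rw [one_mul, Real.exp_neg, Real.exp_log hwi]
  have hr : ∀ y : ℂ, H (1, X + u * (y.re + y.im * w)) = y := by
    intro y
    apply Complex.ext
    · rw [hre, z1, e1]; simp; field_simp; ring
    · rw [him, z1, e1]; simp; field_simp
  let h : ℂ ≃ₜ ℂ :=
    { toFun := fun z => H (1, z)
      invFun := fun y => X + u * (y.re + y.im * w)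
      left_inv := fun z => hinj 1 (hr _)
      right_inv := hr
      continuous_toFun := by fun_prop
      continuous_invFun := by fun_prop }
  have hs : ∀ a x : ℝ, 0 < a → SignType.sign (a * x) = SignType.sign x := fun a x ha => by
    rw [sign_mul, sign_pos ha, one_mul]
  refine ⟨h, ⟨H, hH, hinj, fun z => ?_, fun z => rfl⟩, ?_, ?_⟩
  · apply Complex.ext
    · rw [hre]; simp [ζ]
    · rw [him]; simp [ζ]
  · filter_upwards [hγ] with s' hs'
    have : h (γ s') = ((α * ((s' : ℝ) - s) : ℝ) : ℂ) := by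
      rw [hs']
      refine Eq.trans ?_ (hr _)
      change H _ = H _
      rw [ofReal_re, ofReal_im]
      congr 2
      push_cast
      ring
    rw [this, ofReal_re, ofReal_im, hs _ _ hα]
    exact ⟨rfl, rfl⟩
  · filter_upwards [hη] with t' ht'
    have : h (η t') = ((β * ((t' : ℝ) - t) : ℝ) : ℂ) * I := by
      rw [ht']
      refine Eq.trans ?_ (hr _)
      change H _ = H _
      rw [re_ofReal_mul, im_ofReal_mul, hv]
      congr 2
      simp
      ring
    rw [this, re_ofReal_mul, im_ofReal_mul, I_re, I_im, mul_zero, mul_one, hs _ _ hβ]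
    exact ⟨rfl, rfl⟩

open Classical in
/-- Signed passage of the segment `z w` above the point `p`. -/
noncomputable def pass (p z w : ℂ) : ℤ :=
  if p.im < z.im ∧ p.im < w.im then (if p.re < w.re then 1 else 0) - (if p.re < z.re then 1 else 0)
  else 0

/-- The segment `z w` is in good position with respect to `p`. -/
def SegOK (p z w : ℂ) : Prop :=
  z.re ≠ p.re ∧ w.re ≠ p.re ∧ ((p.re < z.re ↔ p.re < w.re) ∨ (z.im < p.im ∧ w.im < p.im) ∨
    (p.im < z.im ∧ p.im < w.im))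

lemma conv_pos {x y μ : ℝ} (h0 : 0 ≤ μ) (h1 : μ ≤ 1) (hx : 0 < x) (hy : 0 < y) :
    0 < x + μ * (y - x) := by
  rcases eq_or_lt_of_le h0 with h | h
  · rw [← h]; linarith
  · nlinarith

lemma dlog_seg {g : ℝ → ℂ} (hg : Continuous g) {a b : ℝ} (hab : a ≤ b) {p z w : ℂ}
    (h : SegOK p z w) (hs : ∀ t ∈ Icc a b, ∃ μ : ℝ, 0 ≤ μ ∧ μ ≤ 1 ∧ g t = z + μ * (w - z) - p)
    (ga : g a = z - p) (gb : g b = w - p) : (∀ t ∈ Icc a b, g t ≠ 0) ∧
    dlog g a b = log (I * (w - p)) - log (I * (z - p)) - 2 * Real.pi * I * pass p z w := by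
  obtain ⟨h1, h2, h3⟩ := h
  have key : ∀ c : ℂ, c ≠ 0 → (∀ μ : ℝ, 0 ≤ μ → μ ≤ 1 → c * (z + μ * (w - z) - p) ∈ slitPlane) →
      (∀ t ∈ Icc a b, g t ≠ 0) ∧ dlog g a b = log (c * (w - p)) - log (c * (z - p)) := by
    intro c hc hh
    have : ∀ t ∈ Icc a b, c * g t ∈ slitPlane := fun t ht => by
      obtain ⟨μ, m0, m1, e⟩ := hs t ht
      rw [e]; exact hh μ m0 m1
    refine ⟨fun t ht h0 => slitPlane_ne_zero (this t ht) (by rw [h0, mul_zero]), ?_⟩
    rw [dlog_slit hg hab c hc this, ga, gb]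
  by_cases h4 : (p.re < z.re ↔ p.re < w.re)
  · have hp : pass p z w = 0 := by
      unfold pass
      simp only [h4, sub_self, ite_self]
    rw [hp, Int.cast_zero, mul_zero, sub_zero]
    refine key I I_ne_zero fun μ m0 m1 => Or.inr ?_
    simp only [mul_im, I_re, I_im, zero_mul, one_mul, zero_add, sub_re, add_re, re_ofReal_mul]
    rcases lt_or_gt_of_ne h1 with h | h
    · have := conv_pos m0 m1 (sub_pos.mpr h)
        (sub_pos.mpr (lt_of_le_of_ne (not_lt.mp fun h' => h.not_gt (h4.mpr h')) h2))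
      intro h0; linarith
    · have := conv_pos m0 m1 (sub_pos.mpr h) (sub_pos.mpr (h4.mp h))
      intro h0; linarith
  rcases h3.resolve_left h4 with h5 | h5
  · have hp : pass p z w = 0 := if_neg fun h => h.1.not_gt h5.1
    rw [hp, Int.cast_zero, mul_zero, sub_zero]
    refine key I I_ne_zero fun μ m0 m1 => Or.inl ?_
    simp only [mul_re, I_re, I_im, zero_mul, one_mul, zero_sub, sub_im, add_im, im_ofReal_mul]
    have := conv_pos m0 m1 (sub_pos.mpr h5.1) (sub_pos.mpr h5.2)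
    linarith
  · obtain ⟨k1, k2⟩ := key (-I) (neg_ne_zero.mpr I_ne_zero) fun μ m0 m1 => Or.inl (by
      simp only [mul_re, neg_re, neg_im, I_re, I_im, sub_im, add_im, im_ofReal_mul]
      have := conv_pos m0 m1 (sub_pos.mpr h5.1) (sub_pos.mpr h5.2)
      linarith)
    refine ⟨k1, ?_⟩
    rw [k2, neg_mul, neg_mul]
    unfold pass
    rw [if_pos h5]
    rcases lt_or_gt_of_ne h1 with h | h
    · have h' : p.re < w.re := by
        by_contra h''
        exact h4 (iff_of_false h.not_gt h'')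
      rw [log_neg_of_im_pos (z := I * (w - p)) (by simpa using h'),
        log_neg_of_im_neg (z := I * (z - p)) (by simpa using h), if_pos h', if_neg h.not_gt]
      push_cast
      ring
    · have h' : w.re < p.re := lt_of_le_of_ne (not_lt.mp fun h'' => h4 (iff_of_true h h'')) h2
      rw [log_neg_of_im_neg (z := I * (w - p)) (by simpa using h'),
        log_neg_of_im_pos (z := I * (z - p)) (by simpa using h), if_pos h, if_neg h'.not_gt]
      push_cast
      ring

lemma dlog_poly (P : ℕ → ℂ) {K : ℕ} (hK : 0 < K) (p : ℂ) (h : ∀ k < K, SegOK p (P k) (P (k + 1)))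
    {g : ℝ → ℂ} (hg : Continuous g) (he : ∀ s ∈ Icc (0 : ℝ) 1, g s = poly P K (K * s) - p) :
    dlog g 0 1 = log (I * (P K - p)) - log (I * (P 0 - p)) -
      2 * Real.pi * I * (∑ k ∈ Finset.range K, pass p (P k) (P (k + 1)) : ℤ) := by
  have hK' : (0 : ℝ) < K := by exact_mod_cast hK
  have hmem : ∀ j ≤ K, (j : ℝ) / K ∈ Icc (0 : ℝ) 1 := fun j hj =>
    ⟨by positivity, (div_le_one hK').mpr (by exact_mod_cast hj)⟩
  have hval : ∀ j ≤ K, g (j / K) = P j - p := fun j hj => by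
    rw [he _ (hmem j hj), mul_div_cancel₀ _ hK'.ne', poly_nat P hK hj]
  have key : ∀ j ≤ K, (∀ t ∈ Icc (0 : ℝ) (j / K), g t ≠ 0) ∧ dlog g 0 (j / K) =
      log (I * (P j - p)) - log (I * (P 0 - p)) -
      2 * Real.pi * I * (∑ k ∈ Finset.range j, pass p (P k) (P (k + 1)) : ℤ) := by
    intro j
    induction j with
    | zero =>
      intro _
      have := dlog_seg (a := 0) (b := 0) hg le_rfl (p := p) (z := P 0) (w := P 0)
        ⟨(h 0 hK).1, (h 0 hK).1, Or.inl Iff.rfl⟩ (fun t ht => ⟨0, le_rfl, zero_le_one, by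
          rw [le_antisymm ht.2 ht.1]; simpa using hval 0 hK.le⟩)
        (by simpa using hval 0 hK.le) (by simpa using hval 0 hK.le)
      simpa [pass] using this
    | succ j ih =>
      intro hj
      obtain ⟨i1, i2⟩ := ih (by omega)
      have hle : (j : ℝ) / K ≤ ((j + 1 : ℕ) : ℝ) / K :=
        div_le_div_of_nonneg_right (by push_cast; linarith) hK'.le
      obtain ⟨s1, s2⟩ := dlog_seg hg hle (h j hj) (fun t ht => by
        have t1 := ht.1
        have t2 := ht.2
        rw [div_le_iff₀ hK'] at t1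
        rw [le_div_iff₀ hK'] at t2
        push_cast at t2
        refine ⟨K * t - j, by linarith, by linarith, ?_⟩
        rw [he t ⟨(hmem j (by omega)).1.trans ht.1, ht.2.trans (hmem _ hj).2⟩,
          poly_eq P hj (by linarith) (by linarith)]) (hval j (by omega)) (hval _ hj)
      have hne : ∀ t ∈ Icc (0 : ℝ) (((j + 1 : ℕ) : ℝ) / K), g t ≠ 0 := fun t ht =>
        (le_total t (j / K)).elim (fun h => i1 t ⟨ht.1, h⟩) (fun h => s1 t ⟨h, ht.2⟩)
      refine ⟨hne, ?_⟩
      rw [dlog_add hg (hmem j (by omega)).1 hle hne, i2, s2, Finset.sum_range_succ]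
      push_cast
      ring
  have := (key K le_rfl).2
  rwa [div_self hK'.ne'] at this

end Pool.Agent.Lib.MP_d8c195_lc
end

-- part Pool.Agent.Lib.MP_d8c195_lc.Spiral
section

/-! Simple spirals with prescribed winding around the vertices. -/

set_option autoImplicit false

namespace Pool.Agent.Lib.MP_d8c195_lc

open Finset

/-- Combinatorial spirals: corner `k` has a gap and lies at the top or at the bottom. -/
structure Spi (o lo hi : ℤ) (K : ℕ) (c : ℕ → ℤ × Bool) : Prop where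
  pos : 1 ≤ K
  first : (c 1).1 = o
  bd : ∀ k, 1 ≤ k → k ≤ K → lo ≤ (c k).1 ∧ (c k).1 ≤ hi
  mono : ∀ k l, 1 ≤ k → k < l → l ≤ K →
    (o ≤ (c l).1 → (c k).1 ≤ (c l).1) ∧ ((c l).1 < o → (c l).1 ≤ (c k).1)
  cons : ∀ k, 1 ≤ k → k < K → (c k).2 = (c (k + 1)).2 ∨ (c k).1 = (c (k + 1)).1

/-- Passage above `v` between two corners. -/
def step (p p' : ℤ × Bool) (v : ℤ) : ℤ :=
  if p.2 = true ∧ p'.2 = true then (if v ≤ p'.1 then 1 else 0) - (if v ≤ p.1 then 1 else 0) else 0

/-- Spirals ending in `p` with winding vector `t`. -/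
def Reach (o lo hi : ℤ) (p : ℤ × Bool) (t : ℤ → ℤ) : Prop :=
  ∃ K c, Spi o lo hi K c ∧ c K = p ∧ ∀ v, ∑ k ∈ Ico 1 K, step (c k) (c (k + 1)) v = t v

lemma Reach.ext {o lo hi : ℤ} {p : ℤ × Bool} {t : ℤ → ℤ} (h : Reach o lo hi p t) (h1 : lo < o)
    (h2 : o ≤ hi) (p' : ℤ × Bool) (h3 : p'.1 = lo ∨ p'.1 = hi) (h4 : p.2 = p'.2 ∨ p.1 = p'.1) :
    Reach o lo hi p' (fun v => t v + step p p' v) := by
  obtain ⟨K, c, hS, hK, ht⟩ := h
  have hp := hS.pos
  have e1 : ∀ k ≤ K, Function.update c (K + 1) p' k = c k := fun k hk =>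
    Function.update_of_ne (by omega) _ _
  have e2 : Function.update c (K + 1) p' (K + 1) = p' := Function.update_self _ _ _
  refine ⟨K + 1, Function.update c (K + 1) p', ⟨by omega, by rw [e1 1 hp, hS.first], ?_, ?_, ?_⟩,
    e2, fun v => ?_⟩
  · intro k k1 k2
    rcases eq_or_lt_of_le k2 with rfl | k3
    · rw [e2]; omega
    · rw [e1 k (by omega)]; exact hS.bd k k1 (by omega)
  · intro k l k1 k2 k3
    rw [e1 k (by omega)]
    rcases eq_or_lt_of_le k3 with rfl | k4
    · have := hS.bd k k1 (by omega)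
      rw [e2]; omega
    · rw [e1 l (by omega)]; exact hS.mono k l k1 k2 (by omega)
  · intro k k1 k2
    rw [e1 k (by omega)]
    rcases eq_or_lt_of_le (Nat.lt_succ_iff.mp k2) with rfl | k4
    · rw [e2, hK]; exact h4
    · rw [e1 _ k4]; exact hS.cons k k1 k4
  · beta_reduce
    rw [sum_Ico_succ_top hp, e2, e1 K le_rfl, hK, ← ht]
    congr 1
    refine sum_congr rfl fun k hk => ?_
    have := (mem_Ico.mp hk).2
    rw [e1 k this.le, e1 _ this]

lemma Reach.congr {o lo hi : ℤ} {p : ℤ × Bool} {t t' : ℤ → ℤ} (h : Reach o lo hi p t)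
    (e : ∀ v, t v = t' v) : Reach o lo hi p t' := by
  rwa [show t' = t from funext fun v => (e v).symm]

lemma Reach.widen {o lo hi lo' hi' : ℤ} {p : ℤ × Bool} {t : ℤ → ℤ} (h : Reach o lo hi p t)
    (h1 : lo' ≤ lo) (h2 : hi ≤ hi') : Reach o lo' hi' p t := by
  obtain ⟨K, c, hS, hK⟩ := h
  exact ⟨K, c, ⟨hS.pos, hS.first, fun k k1 k2 => by have := hS.bd k k1 k2; omega, hS.mono,
    hS.cons⟩, hK⟩

lemma reach_turns {o lo hi : ℤ} (h1 : lo < o) (h2 : o ≤ hi) {t : ℤ → ℤ}
    (h : ∃ g, Reach o lo hi (g, false) t) (z : ℤ) :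
    ∃ g, Reach o lo hi (g, false) (fun v => t v + if lo < v ∧ v ≤ hi then z else 0) := by
  induction z using Int.induction_on with
  | zero => simpa using h
  | succ z ih =>
    obtain ⟨g, ih⟩ := ih
    refine ⟨hi, ((((ih.ext h1 h2 (lo, false) (by simp) (by simp)).ext h1 h2 (lo, true) (by simp)
      (by simp)).ext h1 h2 (hi, true) (by simp) (by simp)).ext h1 h2 (hi, false) (by simp)
      (by simp)).congr fun v => ?_⟩
    simp only [step]
    split_ifs <;> simp_all <;> omega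
  | pred z ih =>
    obtain ⟨g, ih⟩ := ih
    refine ⟨lo, ((((ih.ext h1 h2 (hi, false) (by simp) (by simp)).ext h1 h2 (hi, true) (by simp)
      (by simp)).ext h1 h2 (lo, true) (by simp) (by simp)).ext h1 h2 (lo, false) (by simp)
      (by simp)).congr fun v => ?_⟩
    simp only [step]
    split_ifs <;> simp_all <;> omega

lemma reach_all (o : ℤ) (i j : ℕ) : ∀ T : ℤ → ℤ, ∃ t, (∃ g, Reach o (o - 1 - i) (o + j) (g, false) t) ∧
    ∀ v, v ≠ o → t v = if o - 1 - i < v ∧ v ≤ o + j then T v else 0 := by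
  induction i with
  | zero =>
    induction j with
    | zero =>
      intro T
      refine ⟨fun _ => 0, ⟨o, 1, fun _ => (o, false), ⟨le_rfl, rfl, fun _ _ _ => by simp,
        fun _ _ _ _ _ => by simp, fun _ _ _ => by simp⟩, rfl, by simp⟩, fun v hv => ?_⟩
      rw [if_neg (by omega)]
    | succ j ih =>
      intro T
      obtain ⟨t, ⟨g, h1⟩, h2⟩ := ih (fun v => T v - T (o + (j + 1 : ℕ)))
      refine ⟨_, reach_turns (by omega) (by omega) ⟨g, h1.widen le_rfl (by omega)⟩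
        (T (o + (j + 1 : ℕ))), fun v hv => ?_⟩
      simp only [h2 v hv]
      by_cases h : v = o + (j + 1 : ℕ)
      · rw [if_neg (by omega), if_pos (by omega), if_pos (by omega), h, zero_add]
      · split_ifs <;> omega
  | succ i ih =>
    intro T
    obtain ⟨t, ⟨g, h1⟩, h2⟩ := ih (fun v => T v - T (o - 1 - i))
    refine ⟨_, reach_turns (by omega) (by omega) ⟨g, h1.widen (by omega) le_rfl⟩
      (T (o - 1 - i)), fun v hv => ?_⟩
    simp only [h2 v hv]
    by_cases h : v = o - 1 - i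
    · rw [if_neg (by omega), if_pos (by omega), if_pos (by omega), h, zero_add]
    · split_ifs <;> omega

lemma reach_end {o lo hi : ℤ} (h1 : lo < o) (h2 : o ≤ hi) (g : ℤ) (hg : g = lo ∨ g = hi)
    (T : ℤ → ℤ) : ∃ K c, Spi o lo hi K c ∧ c K = (g, false) ∧ ∀ v, v ≠ o →
      ∑ k ∈ Ico 1 K, step (c k) (c (k + 1)) v = if lo < v ∧ v ≤ hi then T v else 0 := by
  obtain ⟨t, ⟨g', h3⟩, h4⟩ := reach_all o (o - 1 - lo).toNat (hi - o).toNat T
  rw [show o - 1 - ((o - 1 - lo).toNat : ℤ) = lo by omega,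
    show o + ((hi - o).toNat : ℤ) = hi by omega] at h3 h4
  obtain ⟨K, c, hS, hK, ht⟩ := h3.ext h1 h2 (g, false) hg (Or.inl rfl)
  exact ⟨K, c, hS, hK, fun v hv => by rw [ht]; simp [h4 v hv, step]⟩

/-- Open rectangles. -/
def rect (x x' y y' : ℝ) : Set ℂ := {z | x < z.re ∧ z.re < x' ∧ y < z.im ∧ z.im < y'}

lemma rect_open {x x' y y' : ℝ} (h1 : x < x') (h2 : y < y') :
    IsOpen (rect x x' y y') ∧ (rect x x' y y').Nonempty :=
  ⟨(isOpen_lt continuous_const Complex.continuous_re).inter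
    ((isOpen_lt Complex.continuous_re continuous_const).inter
    ((isOpen_lt continuous_const Complex.continuous_im).inter
    (isOpen_lt Complex.continuous_im continuous_const))),
    ⟨(x + x') / 2, (y + y') / 2⟩, by simp only; linarith, by simp only; linarith,
    by simp only; linarith, by simp only; linarith⟩

/-- The box of a vertex. -/
def Vb (v : ℤ) : Set ℂ := rect (v - 1 / 4) (v + 1 / 4) (-1) 1

/-- Fine horizontal offsets. -/
noncomputable def ph (k : ℕ) : ℝ := (1 - 1 / (k + 1)) / 4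

lemma ph_nonneg (k : ℕ) : 0 ≤ ph k := by
  have : 1 / ((k : ℝ) + 1) ≤ 1 := by
    rw [div_le_one (by positivity)]; linarith [Nat.cast_nonneg (α := ℝ) k]
  unfold ph; linarith

lemma ph_lt (k : ℕ) : ph k < 1 / 4 := by
  have : 0 < 1 / ((k : ℝ) + 1) := by positivity
  unfold ph; linarith

lemma ph_mono : StrictMono ph := by
  intro k l h
  have : 1 / ((l : ℝ) + 1) < 1 / ((k : ℝ) + 1) :=
    one_div_lt_one_div_of_lt (by positivity) (by simpa using h)
  unfold ph; linarith

/-- The box of a corner. -/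
noncomputable def Bx (o : ℤ) (k : ℕ) (c : ℤ × Bool) : Set ℂ :=
  rect (if o ≤ c.1 then c.1 + 1 / 4 + ph k else c.1 + 3 / 4 - ph (k + 1))
    (if o ≤ c.1 then c.1 + 1 / 4 + ph (k + 1) else c.1 + 3 / 4 - ph k)
    (if c.2 = true then k else -(k + 1)) (if c.2 = true then k + 1 else -k)

lemma Bx_open (o : ℤ) (k : ℕ) (c : ℤ × Bool) : IsOpen (Bx o k c) ∧ (Bx o k c).Nonempty := by
  have := ph_mono (Nat.lt_succ_self k)
  apply rect_open <;> split_ifs <;> linarith

lemma Bx_facts {o : ℤ} {k : ℕ} {c : ℤ × Bool} {z : ℂ} (h : z ∈ Bx o k c) :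
    (c.1 + 1 / 4 < z.re ∧ z.re < c.1 + 3 / 4) ∧ (o ≤ c.1 → z.re < c.1 + 1 / 2) ∧
    (c.1 < o → c.1 + 1 / 2 < z.re) ∧ (c.2 = true → k < z.im) ∧ (c.2 = false → z.im < -k) ∧
    -((k : ℝ) + 1) < z.im ∧ z.im < k + 1 := by
  obtain ⟨h1, h2, h3, h4⟩ := h
  have := ph_nonneg k
  have := ph_lt (k + 1)
  have : (0 : ℝ) ≤ k := Nat.cast_nonneg k
  refine ⟨by split_ifs at h1 h2 <;> constructor <;> linarith, fun h => ?_, fun h => ?_,
    fun h => ?_, fun h => ?_, by split_ifs at h3 h4 <;> constructor <;> linarith⟩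
  · rw [if_pos h] at h2; linarith
  · rw [if_neg h.not_ge] at h1; linarith
  · rwa [if_pos h] at h3
  · rwa [if_neg (by simp [h])] at h4

/-- The segments `z1 z2` and `z3 z4` are separated by a line. -/
def Sep4 (z1 z2 z3 z4 : ℂ) : Prop :=
  ∃ w : ℂ, (w * z1).re < (w * z3).re ∧ (w * z1).re < (w * z4).re ∧ (w * z2).re < (w * z3).re ∧
    (w * z2).re < (w * z4).re

lemma Sep4.rev {z1 z2 z3 z4 : ℂ} (h : Sep4 z1 z2 z3 z4) : Sep4 z4 z3 z2 z1 := by
  obtain ⟨w, h1, h2, h3, h4⟩ := h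
  refine ⟨-w, ?_⟩
  simp only [neg_mul, Complex.neg_re, neg_lt_neg_iff]
  exact ⟨h4, h2, h3, h1⟩

lemma SegOK.rev {p z w : ℂ} (h : SegOK p z w) : SegOK p w z :=
  ⟨h.2.1, h.1, h.2.2.imp Iff.symm (Or.imp And.symm And.symm)⟩

lemma pass_rev (p z w : ℂ) : pass p w z = -pass p z w := by
  unfold pass
  simp only [and_comm (a := p.im < w.im)]
  split_ifs <;> simp

lemma spiral_geom {o lo hi : ℤ} {K : ℕ} {c : ℕ → ℤ × Bool} (hS : Spi o lo hi K c) (h1 : lo < o)
    (h2 : o ≤ hi) {A : ℕ → ℂ} (h0 : A 0 ∈ Vb o) (hA : ∀ k, 1 ≤ k → k ≤ K → A k ∈ Bx o k (c k)) :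
    (∀ k ≤ K, lo + 1 / 2 < (A k).re ∧ (A k).re < hi + 1 / 2) ∧
    (∀ k l, k < l → l ≤ K → (o ≤ (c l).1 → (A k).re < (A l).re) ∧
      ((c l).1 < o → (A l).re < (A k).re)) ∧
    (∀ k l, k + 1 < l → l < K → Sep4 (A k) (A (k + 1)) (A l) (A (l + 1))) ∧
    ∀ v : ℤ, v ≠ o → ∀ p ∈ Vb v, (∀ k < K, SegOK p (A k) (A (k + 1))) ∧
      ∑ k ∈ range K, pass p (A k) (A (k + 1)) = ∑ k ∈ Ico 1 K, step (c k) (c (k + 1)) v := by
  obtain ⟨v1, v2, v3, v4⟩ := h0
  have F1 := fun k k1 k2 => Bx_facts (hA k k1 k2)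
  have cast : ∀ {x y : ℤ}, x ≤ y → (x : ℝ) ≤ y := fun h => by exact_mod_cast h
  have cast' : ∀ {x y : ℤ}, x < y → (x : ℝ) + 1 ≤ y := fun h => by exact_mod_cast h
  have F2 : ∀ k l, k < l → l ≤ K → (o ≤ (c l).1 → (A k).re < (A l).re) ∧
      ((c l).1 < o → (A l).re < (A k).re) := by
    intro k l hkl hl
    have f1 := (F1 l (by omega) hl).1
    rcases Nat.eq_zero_or_pos k with rfl | hk
    · exact ⟨fun h => by linarith [cast h], fun h => by linarith [cast' h]⟩
    have f2 := (F1 k hk (by omega)).1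
    have f3 := hS.mono k l hk hkl hl
    have f4 := ph_mono.monotone (show k + 1 ≤ l from hkl)
    obtain ⟨g1, g2, -⟩ := hA k hk (by omega)
    obtain ⟨g3, g4, -⟩ := hA l (by omega) hl
    constructor
    · intro h
      rcases eq_or_lt_of_le (f3.1 h) with e | e
      · rw [e, if_pos h] at g2
        rw [if_pos h] at g3
        linarith
      · linarith [cast' e]
    · intro h
      rcases eq_or_lt_of_le (f3.2 h) with e | e
      · rw [← e, if_neg h.not_ge] at g1
        rw [if_neg h.not_ge] at g4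
        linarith
      · linarith [cast' e]
  have F3 : ∀ k l : ℕ, k < l → l ≤ K → -(l : ℝ) < (A k).im ∧ (A k).im < l := by
    intro k l hkl hl
    have : (k : ℝ) + 1 ≤ l := by exact_mod_cast hkl
    rcases Nat.eq_zero_or_pos k with rfl | hk
    · push_cast at this
      constructor <;> linarith
    · have := (F1 k hk (by omega)).2.2.2.2.2
      constructor <;> linarith
  refine ⟨fun k hk => ?_, F2, fun k l hkl hl => ?_, fun v hv p hp => ?_⟩
  · rcases Nat.eq_zero_or_pos k with rfl | hk0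
    · constructor <;> linarith [cast' h1, cast h2]
    have f1 := F1 k hk0 hk
    have f2 := hS.bd k hk0 hk
    rcases le_or_gt o (c k).1 with h | h
    · constructor <;> linarith [cast' h1, cast h, cast f2.2, f1.2.1 h, f1.1.1]
    · constructor <;> linarith [cast h2, cast' h, cast f2.1, f1.2.2.1 h, f1.1.2]
  · have a1 := F3 k l (by omega) hl.le
    have a2 := F3 (k + 1) l hkl hl.le
    have b1 := F1 l (by omega) hl.le
    have b2 := F1 (l + 1) (by omega) hl
    push_cast at b2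
    rcases hS.cons l (by omega) hl with h | h
    · cases hc : (c l).2
      · refine ⟨Complex.I, ?_⟩
        simp only [Complex.I_mul_re]
        have := b1.2.2.2.2.1 hc
        have := b2.2.2.2.2.1 (h ▸ hc)
        refine ⟨?_, ?_, ?_, ?_⟩ <;> linarith
      · refine ⟨-Complex.I, ?_⟩
        simp only [neg_mul, Complex.neg_re, Complex.I_mul_re]
        have := b1.2.2.2.1 hc
        have := b2.2.2.2.1 (h ▸ hc)
        refine ⟨?_, ?_, ?_, ?_⟩ <;> linarith
    · have c1 := F2 k l (by omega) hl.le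
      have c2 := F2 k (l + 1) (by omega) hl
      have c3 := F2 (k + 1) l hkl hl.le
      have c4 := F2 (k + 1) (l + 1) (by omega) hl
      rw [← h] at c2 c4
      rcases le_or_gt o (c l).1 with h' | h'
      · refine ⟨1, ?_⟩
        simp only [one_mul]
        exact ⟨c1.1 h', c2.1 h', c3.1 h', c4.1 h'⟩
      · refine ⟨-1, ?_⟩
        simp only [neg_mul, one_mul, Complex.neg_re, neg_lt_neg_iff]
        exact ⟨c1.2 h', c2.2 h', c3.2 h', c4.2 h'⟩
  · obtain ⟨p1, p2, p3, p4⟩ := hp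
    have G1 : ∀ k, 1 ≤ k → k ≤ K → (A k).re ≠ p.re ∧ (p.re < (A k).re ↔ v ≤ (c k).1) ∧
        ((c k).2 = false → (A k).im < p.im) ∧ (p.im < (A k).im ↔ (c k).2 = true) := by
      intro k k1 k2
      have f := F1 k k1 k2
      have : (1 : ℝ) ≤ k := by exact_mod_cast k1
      have f1 : (c k).2 = false → (A k).im < p.im := fun h => by linarith [f.2.2.2.2.1 h]
      refine and_assoc.mp ⟨?_, f1, fun h => ?_, fun h => by linarith [f.2.2.2.1 h]⟩
      · rcases le_or_gt v (c k).1 with h | h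
        · have : p.re < (A k).re := by linarith [cast h, f.1.1]
          exact ⟨this.ne', iff_of_true this h⟩
        · have : (A k).re < p.re := by linarith [cast' h, f.1.2]
          exact ⟨this.ne, iff_of_false this.not_gt h.not_ge⟩
      · by_contra h'
        exact h.not_gt (f1 (by simpa using h'))
    have G0 : (A 0).re ≠ p.re ∧ (p.re < (A 0).re ↔ p.re < (A 1).re) := by
      rw [(G1 1 le_rfl hS.pos).2.1, hS.first]
      rcases lt_or_gt_of_ne hv with h | h
      · have : p.re < (A 0).re := by linarith [cast' h]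
        exact ⟨this.ne', iff_of_true this h.le⟩
      · have : (A 0).re < p.re := by linarith [cast' h]
        exact ⟨this.ne, iff_of_false this.not_gt h.not_ge⟩
    constructor
    · intro k hk
      have g2 := G1 (k + 1) (by omega) hk
      rcases Nat.eq_zero_or_pos k with rfl | hk0
      · exact ⟨G0.1, g2.1, Or.inl G0.2⟩
      have g1 := G1 k hk0 hk.le
      refine ⟨g1.1, g2.1, ?_⟩
      rcases hS.cons k hk0 hk with h | h
      · cases hc : (c k).2
        · exact Or.inr (Or.inl ⟨g1.2.2.1 hc, g2.2.2.1 (h ▸ hc)⟩)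
        · exact Or.inr (Or.inr ⟨g1.2.2.2.mpr hc, g2.2.2.2.mpr (h ▸ hc)⟩)
      · exact Or.inl (by rw [g1.2.1, g2.2.1, h])
    · rw [range_eq_Ico, sum_eq_sum_Ico_succ_bot hS.pos]
      have : pass p (A 0) (A (0 + 1)) = 0 := by
        unfold pass
        simp only [zero_add, G0.2, sub_self, ite_self]
      rw [this, zero_add]
      refine sum_congr rfl fun k hk => ?_
      have g1 := G1 k (mem_Ico.mp hk).1 (mem_Ico.mp hk).2.le
      have g2 := G1 (k + 1) (by omega) (mem_Ico.mp hk).2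
      unfold pass step
      simp only [g1.2.1, g2.2.1, g1.2.2.2, g2.2.2.2]

theorem route (n a b : ℤ) (ha : 0 ≤ a) (hab : a < b) (hb : b < n) (T : ℤ → ℤ) :
    ∃ K : ℕ, 2 ≤ K ∧ ∃ U : ℕ → Set ℂ, (∀ k, IsOpen (U k) ∧ (U k).Nonempty) ∧
      ∀ P : ℕ → ℂ, P 0 ∈ Vb a → P K ∈ Vb b → (∀ k, 0 < k → k < K → P k ∈ U k) →
        (∀ k l, k + 1 < l → l < K → Sep4 (P k) (P (k + 1)) (P l) (P (l + 1))) ∧
        ∀ v : ℤ, 0 ≤ v → v < n → v ≠ a → v ≠ b → ∀ p ∈ Vb v,
          (∀ k < K, SegOK p (P k) (P (k + 1))) ∧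
          ∑ k ∈ range K, pass p (P k) (P (k + 1)) = T v := by
  obtain ⟨K1, c1, S1, e1, t1⟩ := reach_end (o := a) (lo := -1) (hi := b - 1) (by omega) (by omega)
    (b - 1) (Or.inr rfl) T
  obtain ⟨K2, c2, S2, e2, t2⟩ := reach_end (o := b) (lo := b - 1) (hi := n) (by omega) (by omega)
    (b - 1) (Or.inl rfl) (fun v => -T v)
  have p1 := S1.pos
  have p2 := S2.pos
  refine ⟨K1 + K2 + 1, by omega,
    fun k => if k ≤ K1 then Bx a k (c1 k) else Bx b (K1 + K2 + 1 - k) (c2 (K1 + K2 + 1 - k)),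
    fun k => by dsimp only; split_ifs <;> exact Bx_open _ _ _, fun P h0 hK hP => ?_⟩
  have hA : ∀ k, 1 ≤ k → k ≤ K1 → P k ∈ Bx a k (c1 k) := fun k k1 k2 => by
    simpa [k2] using hP k k1 (by omega)
  have hB : ∀ k, 1 ≤ k → k ≤ K2 → P (K1 + K2 + 1 - k) ∈ Bx b k (c2 k) := fun k k1 k2 => by
    have := hP (K1 + K2 + 1 - k) (by omega) (by omega)
    beta_reduce at this
    rwa [if_neg (by omega), show K1 + K2 + 1 - (K1 + K2 + 1 - k) = k by omega] at this
  obtain ⟨A1, A2, A3, A4⟩ := spiral_geom S1 (by omega) (by omega) h0 hA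
  obtain ⟨B1, B2, B3, B4⟩ := spiral_geom S2 (by omega) (by omega)
    (A := fun k => P (K1 + K2 + 1 - k)) hK hB
  have hlt : ∀ i j, i < j → j ≤ K1 + K2 + 1 → (i ≤ K1 ∧ K1 ≤ j ∨ i ≤ K1 + 1 ∧ K1 + 1 ≤ j) →
      (P i).re < (P j).re := by
    intro i j hij hj h
    by_cases h1 : j ≤ K1
    · obtain rfl : j = K1 := by omega
      exact (A2 i j hij le_rfl).1 (by rw [e1]; omega)
    by_cases h2 : i ≤ K1
    · have g1 := (A1 i h2).2
      have g2 := (B1 (K1 + K2 + 1 - j) (by omega)).1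
      rw [show K1 + K2 + 1 - (K1 + K2 + 1 - j) = j by omega] at g2
      linarith
    · have g := (B2 (K1 + K2 + 1 - j) K2 (by omega) le_rfl).2 (by rw [e2]; omega)
      rwa [show K1 + K2 + 1 - (K1 + K2 + 1 - j) = j by omega,
        show K1 + K2 + 1 - K2 = i by omega] at g
  refine ⟨fun k l hkl hl => ?_, fun v v0 v1 v2 v3 p hp => ?_⟩
  · by_cases h1 : l < K1
    · exact A3 k l hkl h1
    by_cases h2 : K1 < k
    · have := (B3 (K1 + K2 - l) (K1 + K2 - k) (by omega) (by omega)).rev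
      rwa [show K1 + K2 + 1 - (K1 + K2 - k + 1) = k by omega,
        show K1 + K2 + 1 - (K1 + K2 - k) = k + 1 by omega,
        show K1 + K2 + 1 - (K1 + K2 - l + 1) = l by omega,
        show K1 + K2 + 1 - (K1 + K2 - l) = l + 1 by omega] at this
    · refine ⟨1, ?_⟩
      simp only [one_mul]
      refine ⟨?_, ?_, ?_, ?_⟩ <;> apply hlt <;> omega
  · obtain ⟨a1, a2⟩ := A4 v v2 p hp
    obtain ⟨b1, b2⟩ := B4 v v3 p hp
    have f1 := Bx_facts (hA K1 p1 le_rfl)
    have f2 := Bx_facts (hB K2 p2 le_rfl)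
    rw [show K1 + K2 + 1 - K2 = K1 + 1 by omega] at f2
    rw [e1] at f1
    rw [e2] at f2
    have g1 : (1 : ℝ) ≤ K1 := by exact_mod_cast p1
    have g2 : (1 : ℝ) ≤ K2 := by exact_mod_cast p2
    have g3 : (P K1).im < p.im := by linarith [f1.2.2.2.2.1 rfl, hp.2.2.1]
    have g4 : (P (K1 + 1)).im < p.im := by linarith [f2.2.2.2.2.1 rfl, hp.2.2.1]
    constructor
    · intro k hk
      rcases lt_trichotomy k K1 with h | h | h
      · exact a1 k h
      · subst h
        refine ⟨?_, ?_, Or.inr (Or.inl ⟨g3, g4⟩)⟩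
        · have := (a1 (k - 1) (by omega)).2.1
          rwa [show k - 1 + 1 = k by omega] at this
        · have := (b1 (K2 - 1) (by omega)).2.1
          rwa [show k + K2 + 1 - (K2 - 1 + 1) = k + 1 by omega] at this
      · have := (b1 (K1 + K2 - k) (by omega)).rev
        rwa [show K1 + K2 + 1 - (K1 + K2 - k + 1) = k by omega,
          show K1 + K2 + 1 - (K1 + K2 - k) = k + 1 by omega] at this
    · rw [show K1 + K2 + 1 = K1 + 1 + K2 by omega, sum_range_add, sum_range_succ, a2, t1 v v2,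
        ← sum_range_reflect]
      have : ∑ j ∈ range K2, pass p (P (K1 + 1 + (K2 - 1 - j))) (P (K1 + 1 + (K2 - 1 - j) + 1)) =
          -∑ k ∈ range K2, pass p (P (K1 + K2 + 1 - k)) (P (K1 + K2 + 1 - (k + 1))) := by
        rw [← sum_neg_distrib]
        refine sum_congr rfl fun j hj => ?_
        have := mem_range.mp hj
        rw [← pass_rev]
        congr 2 <;> omega
      rw [this, b2, t2 v v3, show pass p (P K1) (P (K1 + 1)) = 0 from if_neg fun h => h.1.not_gt g3]
      split_ifs <;> omega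

end Pool.Agent.Lib.MP_d8c195_lc
end

-- part Pool.Agent.Lib.MP_d8c195_lc.Real
section

/-! Every cocycle is realized by a drawing with simple arcs. -/

set_option autoImplicit false

namespace Pool.Agent.Lib.MP_d8c195_lc

open Set Complex Topology

lemma det2_cancel {u v : ℂ} (h : det2 u v ≠ 0) {a b : ℝ} (e : a * u = b * v) : a = 0 ∧ b = 0 := by
  have h1 := congrArg re e
  have h2 := congrArg im e
  simp only [re_ofReal_mul, im_ofReal_mul] at h1 h2
  unfold det2 at h
  exact ⟨(mul_eq_zero.mp (show a * _ = 0 by linear_combination v.im * h1 - v.re * h2)).resolve_right h,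
    (mul_eq_zero.mp (show b * _ = 0 by linear_combination u.im * h1 - u.re * h2)).resolve_right h⟩

lemma poly_inj (P : ℕ → ℂ) {K : ℕ} (hK : 0 < K) (h1 : ∀ k < K, P k ≠ P (k + 1))
    (h2 : ∀ k, k + 1 < K → det2 (P k - P (k + 1)) (P (k + 2) - P (k + 1)) ≠ 0)
    (h3 : ∀ k l, k + 1 < l → l < K → Sep4 (P k) (P (k + 1)) (P l) (P (l + 1))) :
    InjOn (poly P K) (Icc 0 K) := by
  have key : ∀ (k l : ℕ) (σ τ : ℝ), k ≤ l → l < K → (k : ℝ) ≤ σ → σ ≤ k + 1 → (l : ℝ) ≤ τ → τ ≤ l + 1 →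
      poly P K σ = poly P K τ → σ = τ := by
    intro k l σ τ hkl hl a1 a2 b1 b2 e
    rw [poly_eq P (by omega) a1 a2, poly_eq P hl b1 b2] at e
    rcases eq_or_lt_of_le hkl with rfl | h
    · have := mul_right_cancel₀ (sub_ne_zero.mpr (h1 k hl).symm) (add_left_cancel e)
      have := ofReal_injective this
      linarith
    rcases eq_or_lt_of_le (show k + 1 ≤ l from h) with rfl | h
    · have := det2_cancel (h2 k hl) (a := 1 - (σ - k)) (b := τ - (k + 1 : ℕ))
        (by push_cast at e ⊢; linear_combination e)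
      push_cast at this
      linarith [this.1, this.2]
    · obtain ⟨w, w1, w2, w3, w4⟩ := h3 k l h hl
      have e' := congrArg (fun z => (w * z).re) e
      simp only [mul_add, mul_left_comm w, add_re, re_ofReal_mul, mul_sub, sub_re] at e'
      have c1 := conv_pos (sub_nonneg.mpr b1) (by linarith) (sub_pos.mpr w1) (sub_pos.mpr w2)
      have c2 := conv_pos (sub_nonneg.mpr b1) (by linarith) (sub_pos.mpr w3) (sub_pos.mpr w4)
      have c3 := conv_pos (sub_nonneg.mpr a1) (by linarith) c1 c2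
      exfalso
      linarith
  intro σ hσ τ hτ e
  obtain ⟨k, k1, k2, k3, -⟩ := locate hK hσ.1 hσ.2
  obtain ⟨l, l1, l2, l3, -⟩ := locate hK hτ.1 hτ.2
  rcases le_total k l with h | h
  · exact key k l σ τ h l1 k2 k3 l2 l3 e
  · exact (key l k τ σ h k1 l2 l3 k2 k3 e.symm).symm

lemma poly_local (P : ℕ → ℂ) {K k : ℕ} (hk : k < K) {s : unitInterval} (h1 : (k : ℝ) < K * s)
    (h2 : (K : ℝ) * s < k + 1) : ∀ᶠ s' : unitInterval in 𝓝 s, poly P K (K * s') =
      poly P K (K * s) + ((K * ((s' : ℝ) - s) : ℝ) : ℂ) * (P (k + 1) - P k) := by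
  have hc : Continuous fun s' : unitInterval => (K : ℝ) * s' := by fun_prop
  filter_upwards [hc.continuousAt.eventually (Ioo_mem_nhds h1 h2)] with s' hs'
  rw [poly_eq P hk hs'.1.le hs'.2.le, poly_eq P hk h1.le h2.le]
  push_cast
  ring

variable {n : ℕ} (G : SimpleGraph (Fin n))

theorem exists_drawing (A : ℕ → ℕ → Bool) (hA : ∀ i j : Fin n, G.Adj i j ↔ A i j = true)
    (x : ℕ → ℕ → ℕ → ℤ) : ∃ D : Drawing G, D.Simple ∧ D.iacr = acost n A m0 x := by
  classical
  choose K hK U hU hR using fun e : Edge G => route n (e.1.1 : ℕ) (e.1.2 : ℕ) (by omega)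
    (by exact_mod_cast e.2.1) (by exact_mod_cast e.1.2.2) (fun v => x e.1.1 e.1.2 v.toNat)
  let s : Finset (Fin n ⊕ (Edge G × ℕ)) :=
    Finset.univ.disjSum (Finset.univ ×ˢ Finset.range (Finset.univ.sup K))
  obtain ⟨q, hq, hne, hdet⟩ := exists_gp s (Sum.elim (fun v => Vb (v : ℕ)) fun p => U p.1 p.2)
    (fun i => by
      rcases i with v | p
      · exact rect_open (by linarith) (by norm_num)
      · exact hU _ _)
  have s1 : ∀ v, Sum.inl v ∈ s := fun v => by simp [s]
  have s2 : ∀ e k, k < K e → Sum.inr (e, k) ∈ s := fun e k hk => by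
    simp only [s, Finset.inr_mem_disjSum, Finset.mem_product, Finset.mem_univ, Finset.mem_range,
      true_and]
    exact hk.trans_le (Finset.le_sup (Finset.mem_univ e))
  let idx : Edge G → ℕ → Fin n ⊕ (Edge G × ℕ) := fun e k =>
    if k = 0 then Sum.inl e.1.1 else if k = K e then Sum.inl e.1.2 else Sum.inr (e, k)
  have i0 : ∀ e, idx e 0 = Sum.inl e.1.1 := fun e => if_pos rfl
  have iK : ∀ e, idx e (K e) = Sum.inl e.1.2 := fun e => by
    have := hK e
    simp only [idx]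
    rw [if_neg (by omega), if_pos trivial]
  have im' : ∀ e k, 0 < k → k < K e → idx e k = Sum.inr (e, k) := fun e k h1 h2 => by
    simp only [idx]
    rw [if_neg h1.ne', if_neg h2.ne]
  have i1 : ∀ e k, k ≤ K e → idx e k ∈ s := fun e k hk => by
    simp only [idx]
    split_ifs
    · exact s1 _
    · exact s1 _
    · exact s2 e k (by omega)
  have i2 : ∀ e k l, k ≠ l → idx e k ≠ idx e l := fun e k l hkl => by
    have h1 := e.2.1.ne
    have h2 := e.2.1.ne'
    simp only [idx]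
    split_ifs <;> first | omega | simp [h1, h2, hkl]
  have i3 : ∀ e f k l, e ≠ f → idx e k ≠ Sum.inr (f, l) := fun e f k l hef => by
    simp only [idx]
    split_ifs <;> simp [hef]
  let P : Edge G → ℕ → ℂ := fun e k => q (idx e k)
  have hK0 : ∀ e, 0 < K e := fun e => by have := hK e; omega
  have hK' : ∀ e, (0 : ℝ) < K e := fun e => by exact_mod_cast hK0 e
  let arc : (e : Edge G) → Path (q (Sum.inl e.1.1)) (q (Sum.inl e.1.2)) := fun e =>
    { toFun := fun s => poly (P e) (K e) (K e * s)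
      continuous_toFun := (poly_cont _ _).comp (by fun_prop)
      source' := by
        have := poly_nat (P e) (hK0 e) (Nat.zero_le _)
        simpa [P, i0] using this
      target' := by
        have := poly_nat (P e) (hK0 e) le_rfl
        simpa [P, iK] using this }
  have harc : ∀ e s, arc e s = poly (P e) (K e) (K e * s) := fun _ _ => rfl
  have seg_ne : ∀ i ∈ s, ∀ j ∈ s, ∀ k ∈ s, i ≠ j → ∀ μ : ℝ, 0 < μ → μ < 1 →
      q i + μ * (q j - q i) ≠ q k := by
    intro i hi j hj k hk hij μ m0 m1 e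
    have h0 := sub_ne_zero.mpr (hne i hi j hj hij).symm
    by_cases h1 : i = k
    · subst h1
      have : (μ : ℂ) = 0 := (mul_eq_zero.mp (by linear_combination e)).resolve_right h0
      exact m0.ne' (by exact_mod_cast this)
    by_cases h2 : j = k
    · subst h2
      have : (μ : ℂ) - 1 = 0 := (mul_eq_zero.mp (by linear_combination e)).resolve_right h0
      exact m1.ne (by exact_mod_cast sub_eq_zero.mp this)
    exact m0.ne' (det2_cancel (hdet i hi j hj k hk hij h1 h2) (a := μ) (b := 1)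
      (by push_cast; linear_combination e)).1
  have loc : ∀ (e : Edge G) (t : unitInterval), 0 < t → t < 1 →
      (∃ k, k < K e ∧ arc e t = q (Sum.inr (e, k))) ∨ ∃ k, k < K e ∧ (k : ℝ) < K e * t ∧
        (K e : ℝ) * t < k + 1 ∧
        arc e t = P e k + ((K e * t - k : ℝ) : ℂ) * (P e (k + 1) - P e k) := by
    intro e t t0 t1
    have t0' : (0 : ℝ) < t := t0
    have t1' : (t : ℝ) < 1 := t1
    have := hK' e
    obtain ⟨k, k1, k2, k3, k4⟩ := locate (τ := K e * t) (hK0 e) (by positivity) (by nlinarith)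
    rcases eq_or_lt_of_le k2 with h | h
    · refine Or.inl ⟨k, k1, ?_⟩
      have : 0 < k := by
        have : (0 : ℝ) < k := by rw [h]; positivity
        exact_mod_cast this
      rw [harc, ← h, poly_nat _ (hK0 e) k1.le, ← im' e k this k1]
    · exact Or.inr ⟨k, k1, h, k4 (by nlinarith), by rw [harc, poly_eq _ k1 k2 k3]⟩
  have hseg : ∀ (e : Edge G) k, k < K e → ∀ μ : ℝ, (k : ℝ) < μ → μ < k + 1 → ∀ i ∈ s,
      P e k + ((μ - k : ℝ) : ℂ) * (P e (k + 1) - P e k) ≠ q i := fun e k hk μ m0 m1 i hi =>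
    seg_ne _ (i1 e k hk.le) _ (i1 e _ hk) i hi (i2 e _ _ (by omega)) _ (by linarith) (by linarith)
  have meet : ∀ e f : Edge G, e ≠ f → ∀ p ∈ Meet (arc e) (arc f), ∃ k < K e, ∃ l < K f,
      (k : ℝ) < K e * p.1 ∧ (K e : ℝ) * p.1 < k + 1 ∧ (l : ℝ) < K f * p.2 ∧
      (K f : ℝ) * p.2 < l + 1 ∧ det2 (P e (k + 1) - P e k) (P f (l + 1) - P f l) ≠ 0 ∧
      P e k + ((K e * p.1 - k : ℝ) : ℂ) * (P e (k + 1) - P e k) =
        P f l + ((K f * p.2 - l : ℝ) : ℂ) * (P f (l + 1) - P f l) := by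
    rintro e f hef p ⟨p1, p2, p3, p4, p5⟩
    rcases loc e p.1 p1 p2 with ⟨k, k1, k2⟩ | ⟨k, k1, k2, k3, k4⟩ <;>
      rcases loc f p.2 p3 p4 with ⟨l, l1, l2⟩ | ⟨l, l1, l2, l3, l4⟩
    · exact absurd (k2.symm.trans (p5.trans l2)) (hne _ (s2 e k k1) _ (s2 f l l1) (by simp [hef]))
    · exact absurd (l4.symm.trans (p5.symm.trans k2)) (hseg f l l1 _ l2 l3 _ (s2 e k k1))
    · exact absurd (k4.symm.trans (p5.trans l2)) (hseg e k k1 _ k2 k3 _ (s2 f l l1))
    have e1 := k4.symm.trans (p5.trans l4)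
    refine ⟨k, k1, l, l1, k2, k3, l2, l3, fun h0 => ?_, e1⟩
    have key : ∀ j, 0 < j → j < K f → det2 (P e (k + 1) - P e k) (P f j - P e k) ≠ 0 := by
      intro j j1 j2
      simp only [P, im' f j j1 j2]
      exact hdet _ (i1 e k k1.le) _ (i1 e _ k1) _ (s2 f j j2) (i2 e _ _ (by omega))
        (i3 e f _ _ hef) (i3 e f _ _ hef)
    have r1 := congrArg re e1
    have r2 := congrArg im e1
    simp only [add_re, add_im, re_ofReal_mul, im_ofReal_mul] at r1 r2
    rcases Nat.eq_zero_or_pos l with hl | hl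
    · apply key (l + 1) (by omega) (by have := hK f; omega)
      simp only [det2, sub_re, sub_im] at h0 r1 r2 ⊢
      linear_combination (1 - (K f * p.2 - l : ℝ)) * h0 - ((P e (k + 1)).re - (P e k).re) * r2 +
        ((P e (k + 1)).im - (P e k).im) * r1
    · apply key l hl l1
      simp only [det2, sub_re, sub_im] at h0 r1 r2 ⊢
      linear_combination (-(K f * p.2 - l : ℝ)) * h0 - ((P e (k + 1)).re - (P e k).re) * r2 +
        ((P e (k + 1)).im - (P e k).im) * r1
  have hR' := fun e : Edge G => hR e (P e) (by simpa [P, i0] using hq _ (s1 e.1.1))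
    (by simpa [P, iK] using hq _ (s1 e.1.2))
    (fun k k1 k2 => by simpa [P, im' e k k1 k2] using hq _ (s2 e k k2))
  let D : Drawing G :=
    { pos := fun v => q (Sum.inl v)
      pos_inj := fun u v h => by
        by_contra huv
        exact hne _ (s1 u) _ (s1 v) (by simpa using huv) h
      arc := arc
      avoid := fun e t v t0 t1 => by
        rcases loc e t t0 t1 with ⟨k, k1, k2⟩ | ⟨k, k1, k2, k3, k4⟩
        · rw [k2]; exact hne _ (s2 e k k1) _ (s1 v) (by simp)
        · rw [k4]; exact hseg e k k1 _ k2 k3 _ (s1 v)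
      finite := fun e f hef => by
        refine ((finite_lt_nat (K e)).biUnion fun k _ => (finite_lt_nat (K f)).biUnion fun l _ =>
          Set.Subsingleton.finite (s := {p : unitInterval × unitInterval |
            det2 (P e (k + 1) - P e k) (P f (l + 1) - P f l) ≠ 0 ∧
            P e k + ((K e * p.1 - k : ℝ) : ℂ) * (P e (k + 1) - P e k) =
              P f l + ((K f * p.2 - l : ℝ) : ℂ) * (P f (l + 1) - P f l)}) ?_).subset ?_
        · intro p hp p' hp'
          have := det2_cancel hp.1 (a := K e * (p.1 - p'.1)) (b := K f * (p.2 - p'.2))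
            (by have h1 := hp.2; have h2 := hp'.2; push_cast at h1 h2 ⊢; linear_combination h1 - h2)
          exact Prod.ext
            (Subtype.ext (sub_eq_zero.mp ((mul_eq_zero.mp this.1).resolve_left (hK' e).ne')))
            (Subtype.ext (sub_eq_zero.mp ((mul_eq_zero.mp this.2).resolve_left (hK' f).ne')))
        · intro p hp
          obtain ⟨k, k1, l, l1, -, -, -, -, h⟩ := meet e f hef p hp
          exact mem_biUnion k1 (mem_biUnion l1 h)
      proper := fun e f hef p hp => by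
        obtain ⟨k, k1, l, l1, a1, a2, a3, a4, a5, -⟩ := meet e f hef p hp
        have g1 := poly_local (P e) k1 a1 a2
        have g2 := poly_local (P f) l1 a3 a4
        have g3 : poly (P e) (K e) (K e * p.1) = poly (P f) (K f) (K f * p.2) := hp.2.2.2.2
        rw [← g3] at g2
        rcases lt_or_gt_of_ne a5 with h | h
        · exact Or.inr (cross_of_lin _ _ _ _ _ (hK' f) (hK' e)
            (by unfold det2 at h ⊢; linarith) g2 g1)
        · exact Or.inl (cross_of_lin _ _ _ _ _ (hK' e) (hK' f) h g1 g2) }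
  refine ⟨D, fun e t t' h => ?_, iacr_eq D A hA m0 x (inter_formula D
    (fun u v => log (I * (D.pos u - D.pos v))) x (fun u v huv => ?_) fun e v h1 h2 => ?_)⟩
  · have := poly_inj (P e) (hK0 e)
      (fun k hk => hne _ (i1 e k hk.le) _ (i1 e _ hk) (i2 e _ _ (by omega)))
      (fun k hk => hdet _ (i1 e _ hk.le) _ (i1 e k (by omega)) _ (i1 e _ hk) (i2 e _ _ (by omega))
        (i2 e _ _ (by omega)) (i2 e _ _ (by omega))) (hR' e).1
      ⟨mul_nonneg (hK' e).le t.2.1, mul_le_of_le_one_right (hK' e).le t.2.2⟩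
      ⟨mul_nonneg (hK' e).le t'.2.1, mul_le_of_le_one_right (hK' e).le t'.2.2⟩ h
    exact Subtype.ext (mul_left_cancel₀ (hK' e).ne' this)
  · have h1 := (hq _ (s1 u)).2.1
    have h2 := (hq _ (s1 v)).1
    have h3 : ((u : ℕ) : ℝ) + 1 ≤ (v : ℕ) := by exact_mod_cast huv
    rw [← log_neg_of_im_neg]
    · congr 1; ring
    · simp only [I_mul_im, sub_re, D]
      push_cast at h1 h2
      linarith
  · obtain ⟨a1, a2⟩ := (hR' e).2 (v : ℕ) (by omega) (by exact_mod_cast v.2)
      (fun h => h1 (Fin.ext (by exact_mod_cast h))) (fun h => h2 (Fin.ext (by exact_mod_cast h)))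
      (D.pos v) (hq _ (s1 v))
    rw [dlog_poly (P e) (hK0 e) _ a1 (by fun_prop) (fun t ht => by
      rw [Path.extend_apply _ ht]; rfl), a2]
    simp [P, i0, iK, D]

end Pool.Agent.Lib.MP_d8c195_lc
end
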