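import Pool.Agent.Lib.MP_d8c195_lc.Lower
import Pool.Agent.Lib.MP_d8c195_lc.Real
import Pool.Agent.Shared.NP.CookLevin
import Pool.Agent.Shared.PolyTime.Graph

/-! Membership in NP. -/

set_option autoImplicit false

namespace Pool.Agent.Lib.MP_d8c195_lc

open Finset Pool.Agent.Shared.PolyTime Pool.Agent.Shared.NP

lemma iacr_iff (simple : Bool) (I : Inst) (A : ℕ → ℕ → Bool)
    (hA : ∀ i j : Fin I.n, I.graph.Adj i j ↔ A i j = true) :
    IACR simple I ↔ ∃ x, acost I.n A m0 x ≤ I.k := by
  constructor
  · rintro ⟨D, -, h⟩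
    obtain ⟨x, hx⟩ := exists_cocycle D A hA
    exact ⟨x, hx ▸ h⟩
  · rintro ⟨x, h⟩
    obtain ⟨D, h1, h2⟩ := exists_drawing I.graph A hA x
    exact ⟨D, fun _ => h1, h2 ▸ h⟩

/-- A binary digit of the certificate. -/
def dig (n : ℕ) (y : List Bool) (j a b v : ℕ) : ℕ :=
  bif y.getD (v + n * (b + n * (a + n * j))) false then 1 else 0

/-- Clamped Horner evaluation of the coboundary, shifted by `M`. -/
def hv (n M : ℕ) (y : List Bool) (a b c d : ℕ) : ℕ :=
  (List.range y.length).reverse.foldl (fun u j => min (2 * M)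
    (2 * u + dig n y j a b c + dig n y j c d b - (M + dig n y j a b d + dig n y j c d a))) M

/-- The standard order with natural values. -/
def mN (u v : ℕ) : ℕ := bif Nat.blt u v then 1 else 0

/-- The clamped cost of one pair. -/
def term (n M : ℕ) (y : List Bool) (a b c d : ℕ) : ℕ :=
  (hv n M y a b c d + mN b c + mN a d - (M + mN a c + mN b d)) +
    (M + mN a c + mN b d - (hv n M y a b c d + mN b c + mN a d))

/-- Test for a pair of independent edges. -/
def isQ (A : List (List Bool)) (a b c d : ℕ) : Bool :=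
  Nat.blt a b && (Nat.blt c d && (Nat.blt a c && (!(b == c) && (!(b == d) &&
    (entry A a b && entry A c d)))))

/-- The clamped value of a binary number. -/
def kval (B : ℕ) (l : List Bool) : ℕ :=
  l.reverse.foldl (fun u b => min B (2 * u + bif b then 1 else 0)) 0

/-- The verifier. -/
def ver (d : List (List Bool) × List Bool) (y : List Bool) : Bool :=
  Nat.ble (((List.range d.1.length).map fun a => ((List.range d.1.length).map fun b =>
    ((List.range d.1.length).map fun c => ((List.range d.1.length).map fun e =>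
      bif isQ d.1 a b c e then term d.1.length (d.1.length ^ 4 + 3) y a b c e else 0).sum).sum).sum).sum)
    (kval (d.1.length ^ 4) d.2)

lemma pf_foldl_nat {α γ : Type} [Enc α] [Enc γ] {l : α → List γ} {i g : α → ℕ}
    {st : α → ℕ → γ → ℕ} (hl : PF l) (hi : PF i) (hg : PF g)
    (hs : PF (fun p : α × ℕ × γ => st p.1 p.2.1 p.2.2)) (h1 : ∀ a, i a ≤ g a)
    (h2 : ∀ a b c, st a b c ≤ g a) : PF (fun a => (l a).foldl (st a) (i a)) := by
  obtain ⟨q, hq⟩ := hg.size
  refine PF.foldl hl hi hs ⟨q, fun a j => ?_⟩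
  have := hq a _ le_rfl
  rw [len_nat] at this ⊢
  refine le_trans ?_ this
  rcases List.eq_nil_or_concat ((l a).take j) with h | ⟨m, c, h⟩
  · rw [h]; exact h1 a
  · rw [h, List.concat_eq_append, List.foldl_append]; exact h2 _ _ _

@[fun_prop] lemma pf_hv {α : Type} [Enc α] {n M a b c d : α → ℕ} {y : α → List Bool} (hn : PF n)
    (hM : PF M) (hy : PF y) (ha : PF a) (hb : PF b) (hc : PF c) (hd : PF d) :
    PF (fun x => hv (n x) (M x) (y x) (a x) (b x) (c x) (d x)) := by
  unfold hv
  refine pf_foldl_nat (g := fun x => 2 * M x) (by fun_prop) hM (by fun_prop) ?_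
    (fun x => by omega) (fun _ _ _ => min_le_left _ _)
  unfold dig
  fun_prop

@[fun_prop] lemma pf_kval {α : Type} [Enc α] {B : α → ℕ} {l : α → List Bool} (hB : PF B)
    (hl : PF l) : PF (fun x => kval (B x) (l x)) := by
  unfold kval
  exact pf_foldl_nat (g := B) (by fun_prop) (by fun_prop) hB (by fun_prop)
    (fun x => Nat.zero_le _) (fun _ _ _ => min_le_left _ _)

lemma pf_ver : PF (fun p : (List (List Bool) × List Bool) × List Bool => ver p.1 p.2) := by
  unfold ver isQ term mN
  fun_prop

lemma kval_bits (B k : ℕ) : kval B k.bits = min B k := by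
  unfold kval
  rw [List.foldl_reverse]
  induction k using Nat.binaryRec' with
  | zero => simp
  | bit b k h ih =>
    rw [Nat.bits_append_bit k b h, List.foldr_cons, ih, Nat.bit_val]
    cases b <;> simp <;> omega

lemma horner (M : ℕ) (hM : 2 ≤ M) (p q : ℕ → ℕ) (hp : ∀ j, p j ≤ 2) (hq : ∀ j, q j ≤ 2) (L : ℕ) :
    ∀ v : ℤ, (List.range L).reverse.foldl (fun u j => min (2 * M) (2 * u + p j - (M + q j)))
      (max (-(M : ℤ)) (min v M) + M).toNat =
      (max (-(M : ℤ)) (min (2 ^ L * v + ∑ j ∈ range L, 2 ^ j * ((p j : ℤ) - q j)) M) + M).toNat := by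
  induction L with
  | zero => intro v; simp
  | succ L ih =>
    intro v
    rw [List.range_succ, List.reverse_append, List.reverse_singleton, List.singleton_append,
      List.foldl_cons, sum_range_succ,
      show 2 ^ (L + 1) * v + (∑ j ∈ range L, 2 ^ j * ((p j : ℤ) - q j) + 2 ^ L * ((p L : ℤ) - q L)) =
        2 ^ L * (2 * v + ((p L : ℤ) - q L)) + ∑ j ∈ range L, 2 ^ j * ((p j : ℤ) - q j) by ring, ← ih]
    congr 1
    have := hp L
    have := hq L
    omega

/-- The finger moves described by a certificate. -/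
def xval (n : ℕ) (y : List Bool) (a b v : ℕ) : ℤ :=
  ∑ j ∈ range y.length, 2 ^ j * (dig n y j a b v : ℤ)

lemma dig_le (n : ℕ) (y : List Bool) (j a b v : ℕ) : dig n y j a b v ≤ 1 := by
  unfold dig
  cases y.getD _ false <;> simp

lemma term_eq (n M : ℕ) (hM : 3 ≤ M) (y : List Bool) (a b c d : ℕ) :
    (term n M y a b c d ≤ M - 3 ∨ (Yf m0 (xval n y) a b c d).natAbs ≤ M - 3) →
      term n M y a b c d = (Yf m0 (xval n y) a b c d).natAbs := by
  have h := horner M (by omega) (fun j => dig n y j a b c + dig n y j c d b)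
    (fun j => dig n y j a b d + dig n y j c d a)
    (fun j => by have := dig_le n y j a b c; have := dig_le n y j c d b; omega)
    (fun j => by have := dig_le n y j a b d; have := dig_le n y j c d a; omega) y.length 0
  have e : ∑ j ∈ range y.length, 2 ^ j * (((dig n y j a b c + dig n y j c d b : ℕ) : ℤ) -
      (dig n y j a b d + dig n y j c d a : ℕ)) =
      xval n y a b c - xval n y a b d + xval n y c d b - xval n y c d a := by
    simp only [xval, ← sum_sub_distrib, ← sum_add_distrib]
    exact sum_congr rfl fun j _ => by push_cast; ring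
  rw [e, mul_zero, zero_add, show (max (-(M : ℤ)) (min 0 M) + M).toNat = M by omega] at h
  simp only [← add_assoc] at h
  have hm : ∀ u v, m0 u v = mN u v ∧ mN u v ≤ 1 := fun u v => by
    unfold m0 mN
    by_cases h : u < v
    · simp [h, Nat.blt_eq.mpr h]
    · simp [h, show Nat.blt u v = false from by rw [Bool.eq_false_iff]; simpa [Nat.blt_eq] using h]
  have := hm b c
  have := hm a d
  have := hm a c
  have := hm b d
  unfold term hv Yf
  rw [h]
  omega

lemma list_sum (n : ℕ) (f : ℕ → ℕ) : ((List.range n).map f).sum = ∑ i ∈ range n, f i := by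
  induction n with
  | zero => rfl
  | succ n ih => rw [List.range_succ, List.map_append, List.sum_append, ih, sum_range_succ]; simp

lemma ver_iff (A : List (List Bool)) (k : ℕ) (y : List Bool) : ver (A, k.bits) y = true ↔
    acost A.length (entry A) m0 (xval A.length y) ≤ min (A.length ^ 4) k := by
  unfold ver
  simp only [Nat.ble_eq, kval_bits, list_sum]
  have e : ∑ a ∈ range A.length, ∑ b ∈ range A.length, ∑ c ∈ range A.length, ∑ e ∈ range A.length,
      (bif isQ A a b c e then term A.length (A.length ^ 4 + 3) y a b c e else 0) =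
      ∑ q ∈ Q4 A.length (entry A), term A.length (A.length ^ 4 + 3) y q.1 q.2.1 q.2.2.1 q.2.2.2 := by
    simp only [Q4, sum_filter, sum_product]
    refine sum_congr rfl fun a _ => sum_congr rfl fun b _ => sum_congr rfl fun c _ =>
      sum_congr rfl fun e _ => ?_
    rw [Bool.cond_eq_ite]
    congr 1
    simp [isQ, Nat.blt_eq]
  rw [e]
  unfold acost
  constructor
  · intro h
    refine le_trans (le_of_eq (sum_congr rfl fun q hq => (term_eq _ _ (by omega) y _ _ _ _
      (Or.inl ?_)).symm)) h
    exact (single_le_sum (f := fun q : ℕ × ℕ × ℕ × ℕ =>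
      term A.length (A.length ^ 4 + 3) y q.1 q.2.1 q.2.2.1 q.2.2.2) (fun _ _ => Nat.zero_le _)
      hq).trans (h.trans (min_le_left _ _))
  · intro h
    refine le_trans (le_of_eq (sum_congr rfl fun q hq => term_eq _ _ (by omega) y _ _ _ _
      (Or.inr ?_))) h
    exact (single_le_sum (f := fun q : ℕ × ℕ × ℕ × ℕ =>
      (Yf m0 (xval A.length y) q.1 q.2.1 q.2.2.1 q.2.2.2).natAbs) (fun _ _ => Nat.zero_le _)
      hq).trans (h.trans (min_le_left _ _))

lemma acost_zero (n : ℕ) (A : ℕ → ℕ → Bool) : acost n A m0 0 ≤ n ^ 4 := by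
  unfold acost
  refine (sum_le_card_nsmul _ _ 1 ?_).trans ?_
  · rintro ⟨a, b, c, d⟩ hq
    have := mem_Q4.mp hq
    simp only [Yf, m0, Pi.zero_apply]
    split_ifs <;> omega
  · rw [smul_eq_mul, mul_one]
    refine (card_filter_le _ _).trans (le_of_eq ?_)
    simp only [card_product, card_range]
    ring

lemma sum_testBit (X L : ℕ) : ∑ j ∈ range L, 2 ^ j * (X.testBit j).toNat = X % 2 ^ L := by
  induction L with
  | zero => simp [Nat.mod_one]
  | succ L ih => rw [sum_range_succ, ih, Nat.mod_pow_succ, Nat.toNat_testBit]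

lemma exists_cert (n L : ℕ) (x : ℕ → ℕ → ℕ → ℕ) (hx : ∀ a b v, x a b v < 2 ^ L) :
    ∃ y : List Bool, y.length = n ^ 3 * L ∧ ∀ a < n, ∀ b < n, ∀ v < n, xval n y a b v = x a b v := by
  refine ⟨(List.range (n ^ 3 * L)).map fun i =>
    (x (i / n / n % n) (i / n % n) (i % n)).testBit (i / n / n / n), by simp, fun a ha b hb v hv => ?_⟩
  have hn : 0 < n := by omega
  have h1 : L ≤ n ^ 3 * L := Nat.le_mul_of_pos_left _ (by positivity)
  unfold xval
  rw [List.length_map, List.length_range]
  have := sum_testBit (x a b v) (n ^ 3 * L)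
  rw [Nat.mod_eq_of_lt ((hx a b v).trans_le (Nat.pow_le_pow_right (by norm_num) h1))] at this
  rw [← this]
  push_cast
  refine sum_congr rfl fun j _ => ?_
  congr 2
  have d : ∀ u < n, ∀ w, (u + n * w) / n = w ∧ (u + n * w) % n = u := fun u hu w =>
    ⟨by rw [Nat.add_mul_div_left _ _ hn, Nat.div_eq_of_lt hu, zero_add],
      by rw [Nat.add_mul_mod_self_left, Nat.mod_eq_of_lt hu]⟩
  unfold dig
  rw [Bool.cond_eq_ite]
  by_cases h : v + n * (b + n * (a + n * j)) < n ^ 3 * L
  · rw [List.getD_eq_getElem _ _ (by simpa using h)]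
    simp only [List.getElem_map, List.getElem_range, d v hv, d b hb, d a ha]
    cases (x a b v).testBit j <;> rfl
  · rw [List.getD_eq_default _ _ (by simpa using h)]
    have h2 : L ≤ j := by
      by_contra h3
      apply h
      have e1 : a + n * j < n * L := by nlinarith
      have e2 : b + n * (a + n * j) < n * (n * L) := by nlinarith
      have e3 : v + n * (b + n * (a + n * j)) < n * (n * (n * L)) := by nlinarith
      calc _ < _ := e3
        _ = _ := by ring
    rw [Nat.testBit_lt_two_pow ((hx a b v).trans_le (Nat.pow_le_pow_right (by norm_num) h2))]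
    rfl

lemma length_adjMatrix {n : ℕ} (G : SimpleGraph (Fin n)) : (adjMatrix G).length = n := by
  simp [adjMatrix]

open Polynomial in
theorem inNP (simple : Bool) : InNP Inst.code (IACR simple) := by
  refine inNP_of_pf Inst.code _ (fun I => (adjMatrix I.graph, I.k.bits)) (fun _ => rfl) ver pf_ver
    (X ^ 3 * ((X ^ 3 + (X ^ 4 + 6 + (X ^ 3 + 2 + (X ^ 3 + 2) * X ^ 3))) * (X ^ 3 + 1) + 2))
    fun I => ?_
  rw [iacr_iff simple I (entry (adjMatrix I.graph)) (fun i j => by simp [entry_adjMatrix])]
  simp only [ver_iff, length_adjMatrix]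
  constructor
  · intro h
    obtain ⟨x0, h0⟩ : ∃ x, acost I.n (entry (adjMatrix I.graph)) m0 x ≤ min (I.n ^ 4) I.k := by
      rcases le_total (I.n ^ 4) I.k with h' | h'
      · exact ⟨0, by rw [min_eq_left h']; exact acost_zero _ _⟩
      · rwa [min_eq_right h']
    obtain ⟨x, x1, x2⟩ := small_cocycle _ _ x0 (h0.trans (min_le_left _ _))
    obtain ⟨y, y1, y2⟩ := exists_cert I.n _ x x1
    refine ⟨y, ?_, le_trans (le_of_eq ?_) h0⟩
    · have hn : I.n ≤ I.code.length := by
        have := length_le_len (adjMatrix I.graph)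
        rw [length_adjMatrix] at this
        have e : I.code = Enc.enc (adjMatrix I.graph, I.k.bits) := rfl
        rw [e, len_prod]
        omega
      refine le_trans (le_of_eq ?_) (eval_mono _ hn)
      simp [y1, nbits]
    · rw [← x2]
      refine sum_congr rfl fun ⟨a, b, c, d⟩ hq => ?_
      have := mem_Q4.mp hq
      simp only [Yf]
      rw [y2 a (by omega) b (by omega) c (by omega), y2 a (by omega) b (by omega) d (by omega),
        y2 c (by omega) d (by omega) b (by omega), y2 c (by omega) d (by omega) a (by omega)]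
  · rintro ⟨y, -, h⟩
    exact ⟨_, h.trans (min_le_right _ _)⟩

end Pool.Agent.Lib.MP_d8c195_lc
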