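import Pool.Agent.Lib.MP_d8c195_lc.Lower
import Pool.Agent.Lib.MP_d8c195_lc.Ver

/-! The reduction from 3-SAT. -/

set_option autoImplicit false

namespace Pool.Agent.Lib.MP_d8c195_lc

open Finset Pool.Agent.Shared.PolyTime Pool.Agent.Shared.NP

/-- The node of a literal. -/
def lp (l : Lit) : ℕ := 5 * l.2 + bif l.1 then 1 else 0

/-- The node of the negated literal. -/
def ln (l : Lit) : ℕ := 5 * l.2 + bif l.1 then 0 else 1

/-- The ten pairs of nodes of a clause. -/
def tab (c : ℕ) (C : Cl3) : List ℕ :=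
  [lp C.1, ln C.1, lp C.2.1, ln C.2.1, lp C.2.2, ln C.2.2, 5 * c + 2, 5 * c + 3, lp C.1, lp C.2.1,
    lp C.2.1, 5 * c + 2, 5 * c + 2, lp C.1, 5 * c + 3, lp C.2.2, lp C.2.2, 4, 4, 5 * c + 3]

/-- A clause of the formula. -/
def cls (φ : CNF3) (c : ℕ) : Cl3 := φ.getD c ((true, 0), (true, 0), (true, 0))

/-- The node of a chord. -/
def node (φ : CNF3) (j : ℕ) : ℕ := (tab (j / 20) (cls φ (j / 20))).getD (j % 20) 0

/-- The number of uncut pairs of a clause. -/
def cl10 (a a' b b' c c' z z' f : Bool) : ℕ :=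
  (if a = a' then 1 else 0) + (if b = b' then 1 else 0) + (if c = c' then 1 else 0) +
    (if z = z' then 1 else 0) + (if a = b then 1 else 0) + (if b = z then 1 else 0) +
    (if z = a then 1 else 0) + (if z' = c then 1 else 0) + (if c = f then 1 else 0) +
    (if f = z' then 1 else 0)

set_option synthInstance.maxSize 1000 in
lemma cl_facts : ∀ a a' b b' c c' z z' f : Bool, 2 ≤ cl10 a a' b b' c c' z z' f ∧
    (cl10 a a' b b' c c' z z' f ≤ 2 → a ≠ a' ∧ b ≠ b' ∧ c ≠ c' ∧ (a ≠ f ∨ b ≠ f ∨ c ≠ f)) := by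
  decide +kernel

lemma cl_good : ∀ a b c : Bool, (a = true ∨ b = true ∨ c = true) →
    cl10 a (!a) b (!b) c (!c) (!(a || b)) (a || b) false ≤ 2 := by
  decide

lemma count_eq (φ : CNF3) (sd : ℕ → Bool) (m : ℕ) :
    ((range (10 * m)).filter fun g => sd (node φ (2 * g)) = sd (node φ (2 * g + 1))).card =
      ∑ c ∈ range m, cl10 (sd (lp (cls φ c).1)) (sd (ln (cls φ c).1)) (sd (lp (cls φ c).2.1))
        (sd (ln (cls φ c).2.1)) (sd (lp (cls φ c).2.2)) (sd (ln (cls φ c).2.2)) (sd (5 * c + 2))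
        (sd (5 * c + 3)) (sd 4) := by
  rw [card_filter]
  induction m with
  | zero => simp
  | succ m ih =>
    rw [sum_range_succ, ← ih, Nat.mul_succ, sum_range_add]
    congr 1
    rw [sum_congr rfl (g := fun r => if sd ((tab m (cls φ m)).getD (2 * r) 0) =
      sd ((tab m (cls φ m)).getD (2 * r + 1) 0) then 1 else 0) fun r hr => by
        have := mem_range.mp hr
        unfold node
        rw [show 2 * (10 * m + r) / 20 = m by omega, show 2 * (10 * m + r) % 20 = 2 * r by omega,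
          show (2 * (10 * m + r) + 1) / 20 = m by omega,
          show (2 * (10 * m + r) + 1) % 20 = 2 * r + 1 by omega]]
    simp only [sum_range_succ, sum_range_zero, zero_add]
    rfl

lemma sat_iff (φ : CNF3) : Sat3 φ ↔ ∃ sd : ℕ → Bool, ((range (10 * φ.length)).filter fun g =>
    sd (node φ (2 * g)) = sd (node φ (2 * g + 1))).card ≤ 2 * φ.length := by
  simp only [count_eq]
  constructor
  · rintro ⟨asg, h⟩
    let z : ℕ → Bool := fun c => (asg (cls φ c).1.2 == (cls φ c).1.1) ||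
      (asg (cls φ c).2.1.2 == (cls φ c).2.1.1)
    let sd : ℕ → Bool := fun v => if v % 5 = 1 then asg (v / 5) else if v % 5 = 0 then !asg (v / 5)
      else if v % 5 = 2 then !z (v / 5) else if v % 5 = 3 then z (v / 5) else false
    have e : ∀ v r, r < 5 → (5 * v + r) % 5 = r ∧ (5 * v + r) / 5 = v := fun v r h => by omega
    have h1 : ∀ l : Lit, sd (lp l) = (asg l.2 == l.1) ∧ sd (ln l) = !(asg l.2 == l.1) := by
      rintro ⟨b, v⟩
      cases b <;> simp [sd, lp, ln, e v 1]
    refine ⟨sd, (sum_le_card_nsmul _ _ 2 fun c hc => ?_).trans (by simp [mul_comm])⟩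
    have h2 : sd (5 * c + 2) = !z c := by simp [sd, e c 2]
    have h3 : sd (5 * c + 3) = z c := by simp [sd, e c 3]
    have h4 : sd 4 = false := by simp [sd]
    simp only [h1, h2, h3, h4]
    apply cl_good
    have := h (cls φ c) (by
      rw [cls, List.getD_eq_getElem _ _ (mem_range.mp hc)]; exact List.getElem_mem _)
    simpa using this
  · rintro ⟨sd, h⟩
    refine ⟨fun v => sd (5 * v + 1) != sd 4, fun C hC => ?_⟩
    obtain ⟨c, hc, rfl⟩ := List.getElem_of_mem hC
    have e : cls φ c = φ[c] := List.getD_eq_getElem _ _ hc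
    have h1 := (sum_eq_sum_iff_of_le (s := range φ.length) (f := fun _ => 2)
      (fun c _ => (cl_facts _ _ _ _ _ _ _ _ _).1)).mp (le_antisymm
        (sum_le_sum fun c _ => (cl_facts _ _ _ _ _ _ _ _ _).1) (by simpa [mul_comm] using h))
      c (mem_range.mpr hc)
    obtain ⟨g1, g2, g3, g4⟩ := (cl_facts _ _ _ _ _ _ _ _ _).2 h1.ge
    have key : ∀ l : Lit, sd (lp l) ≠ sd (ln l) → sd (lp l) ≠ sd 4 →
        (sd (5 * l.2 + 1) != sd 4) = l.1 := by
      rintro ⟨b, v⟩
      cases b <;> simp only [lp, ln, cond_true, cond_false, add_zero] <;>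
        cases sd (5 * v) <;> cases sd (5 * v + 1) <;> cases sd 4 <;> simp
    rw [e] at g1 g2 g3 g4
    exact g4.imp (key _ g1) (Or.imp (key _ g2) (key _ g3))

/-- Size of the medium bundles. -/
def pW (φ : CNF3) : ℕ := 2 * (10 * φ.length) + 1

/-- The bound. -/
def pk (φ : CNF3) : ℕ := pW φ ^ 2 * (2 * φ.length) + (2 * (10 * φ.length)) ^ 2

/-- Range of the indices. -/
def pP (φ : CNF3) : ℕ :=
  4 * (10 * φ.length) + 5 * ((φ.map fun C => C.1.2 + C.2.1.2 + C.2.2.2).sum + φ.length + 1)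

/-- Number of vertices. -/
def pn (φ : CNF3) : ℕ := 5 * (pP φ * (4 * pk φ + 1 + pW φ))

/-- Adjacency. -/
def pA (φ : CNF3) (a b : ℕ) : Bool := adj (10 * φ.length) (pW φ) (4 * pk φ + 1) (pP φ) (node φ) a b

/-- The instance produced by the reduction. -/
def reduce (φ : CNF3) : Inst where
  n := pn φ
  graph :=
    { Adj := fun i j => pA φ i j = true
      symm := ⟨fun i j h => by rwa [pA, adj, Bool.or_comm]⟩
      loopless := ⟨fun i h => by
        rw [pA, adj, Bool.or_self, rel_iff] at h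
        rcases h with ⟨_, _, -, -, h1, h2⟩ | ⟨_, _, -, -, h1, h2⟩ | ⟨_, -, h1, h2⟩ |
          ⟨_, _, -, -, h1, h2⟩ | ⟨_, _, -, -, h1, h2⟩ | ⟨_, -, h1, h2⟩ <;>
        simp [h1] at h2⟩ }
  k := pk φ

lemma node_lt (φ : CNF3) (j : ℕ) (hj : j < 2 * (10 * φ.length)) : node φ j < pP φ := by
  have hc : j / 20 < φ.length := by omega
  have h1 : (cls φ (j / 20)).1.2 + (cls φ (j / 20)).2.1.2 + (cls φ (j / 20)).2.2.2 ≤
      (φ.map fun C => C.1.2 + C.2.1.2 + C.2.2.2).sum := by
    apply List.single_le_sum (fun _ _ => Nat.zero_le _)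
    rw [cls, List.getD_eq_getElem _ _ hc]
    exact List.mem_map.mpr ⟨_, List.getElem_mem _, rfl⟩
  have h2 : ∀ l : Lit, lp l ≤ 5 * l.2 + 1 ∧ ln l ≤ 5 * l.2 + 1 := by
    rintro ⟨b, v⟩
    cases b <;> simp [lp, ln]
  have h3 : node φ j ∈ tab (j / 20) (cls φ (j / 20)) := by
    unfold node
    rw [List.getD_eq_getElem _ _ (show j % 20 < 20 by omega)]
    exact List.getElem_mem _
  have := h2 (cls φ (j / 20)).1
  have := h2 (cls φ (j / 20)).2.1
  have := h2 (cls φ (j / 20)).2.2
  simp only [tab, List.mem_cons, List.not_mem_nil, or_false] at h3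
  unfold pP
  omega

theorem reduce_iff (simple : Bool) (φ : CNF3) : Sat3 φ ↔ IACR simple (reduce φ) := by
  rw [iacr_iff simple _ (pA φ) (fun _ _ => Iff.rfl), sat_iff]
  constructor
  · rintro ⟨sd, h⟩
    obtain ⟨x, hx⟩ := upper (pn φ) (10 * φ.length) (pW φ) (4 * pk φ + 1) (pP φ) (node φ) sd
    exact ⟨x, hx.trans (Nat.add_le_add_right (Nat.mul_le_mul_left _ h) _)⟩
  · rintro ⟨x, hx⟩
    refine lower (pn φ) (10 * φ.length) (pW φ) (4 * pk φ + 1) (pP φ) (pk φ) _ (node φ)
      (by unfold pP; omega) (node_lt φ) (fun t h1 h2 h3 => ?_) (by omega) ?_ x hx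
    · have := Nat.mul_le_mul_left (pP φ) (show t.2.2 + 1 ≤ 4 * pk φ + 1 + pW φ from h3)
      unfold cod pn
      rw [Nat.mul_succ] at this
      omega
    · unfold pk pW
      nlinarith

lemma pf_bits {α : Type} [Enc α] {f : α → ℕ} (hf : PF f) : PF (fun a => (f a).bits) := by
  let st : ℕ × List Bool → ℕ × List Bool := fun s =>
    bif Nat.blt 0 s.1 then (s.1 / 2, s.2 ++ [s.1 % 2 == 1]) else s
  have hb : ∀ m : ℕ, 0 < m → (m % 2 == 1) :: (m / 2).bits = m.bits := by
    intro m hm
    rw [← Nat.bits_append_bit _ _ (fun h => by simp; omega), Nat.bit_val]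
    congr 1
    rcases Nat.mod_two_eq_zero_or_one m with h | h <;> simp [h] <;> omega
  have key : ∀ m j : ℕ, (st^[j] (m, [])).1 ≤ m - j ∧ (st^[j] (m, [])).2.length ≤ j ∧
      (st^[j] (m, [])).2 ++ (st^[j] (m, [])).1.bits = m.bits := by
    intro m j
    induction j with
    | zero => simp
    | succ j ih =>
      rw [Function.iterate_succ_apply']
      generalize st^[j] (m, []) = s at ih ⊢
      rcases Nat.eq_zero_or_pos s.1 with h | h
      · have : st s = s := by simp only [st, h]; rfl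
        rw [this]
        exact ⟨by omega, by omega, ih.2.2⟩
      · have : st s = (s.1 / 2, s.2 ++ [s.1 % 2 == 1]) := by simp [st, Nat.blt_eq.mpr h]
        rw [this]
        refine ⟨by simp only; omega, by simp; omega, ?_⟩
        rw [← ih.2.2, ← hb _ h]
        simp
  have h := PF.iterate (k := f) (i := fun a => (f a, ([] : List Bool))) (st := fun _ => st) hf
    (by fun_prop) (by simp only [st]; fun_prop) (by
      obtain ⟨q, hq⟩ := hf.size
      refine ⟨5 * q + 1, fun a j hj => ?_⟩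
      have h1 := hq a _ le_rfl
      have h2 := key (f a) j
      have h3 := len_le_mul (st^[j] (f a, [])).2 1 (fun _ _ => le_rfl)
      rw [← Prod.mk.eta (p := st^[j] (f a, [])), len_prod]
      simp only [len_nat, Polynomial.eval_add, Polynomial.eval_mul, Polynomial.eval_ofNat,
        Polynomial.eval_one] at h1 ⊢
      omega)
  refine h.snd.of_eq fun a => ?_
  have h2 := key (f a) (f a)
  rw [← h2.2.2, show (st^[f a] (f a, [])).1 = 0 by omega]
  simp

theorem npHard (simple : Bool) : NPHard Inst.code (IACR simple) := by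
  refine npHard_of_sat3 _ _ reduce (fun φ => ((List.range (pn φ)).map fun i =>
    (List.range (pn φ)).map fun j => pA φ i j, (pk φ).bits)) ?_ (fun φ => ?_) (reduce_iff simple)
  · have h1 : PF pW := by unfold pW; fun_prop
    have h2 : PF pk := by unfold pk; fun_prop
    have h3 : PF pP := by unfold pP; fun_prop
    have h4 : PF pn := by unfold pn; fun_prop
    have h5 : PF fun p : CNF3 × ℕ => node p.1 p.2 := by unfold node tab cls lp ln; fun_prop
    have h6 : ∀ {α : Type} [Enc α] {φ : α → CNF3} {j : α → ℕ}, PF φ → PF j →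
        PF fun a => node (φ a) (j a) := fun hφ hj => h5.comp (hφ.pair hj)
    have h7 : PF fun p : CNF3 × Tr × Tr => rel (10 * p.1.length) (pW p.1) (4 * pk p.1 + 1)
        (node p.1) p.2.1 p.2.2 := by
      have := h6 (α := CNF3 × Tr × Tr) (φ := fun p => p.1) (j := fun p => p.2.1.2.1) (by fun_prop)
        (by fun_prop)
      unfold rel nx ep
      fun_prop
    have h8 : PF fun p : CNF3 × ℕ × ℕ => pA p.1 p.2.1 p.2.2 := by
      unfold pA adj
      exact PF.or'
        (h7.comp (g := fun p : CNF3 × ℕ × ℕ => (p.1, dec (pP p.1) p.2.1, dec (pP p.1) p.2.2))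
          (by unfold dec; fun_prop))
        (h7.comp (g := fun p : CNF3 × ℕ × ℕ => (p.1, dec (pP p.1) p.2.2, dec (pP p.1) p.2.1))
          (by unfold dec; fun_prop))
    refine PF.pair (PF.map h4.range (PF.map (by fun_prop) ?_)) (pf_bits h2)
    exact h8.comp (g := fun p : (CNF3 × ℕ) × ℕ => (p.1.1, p.1.2, p.2)) (by fun_prop)
  · unfold Inst.code
    rw [encGraph_eq, adjMatrix_eq _ (pA φ) (fun _ _ => Iff.rfl)]
    rfl

theorem npComplete (simple : Bool) : NPComplete Inst.code (IACR simple) :=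
  ⟨inNP simple, npHard simple⟩

end Pool.Agent.Lib.MP_d8c195_lc
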